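import Pool.Agent.Work.MP_e64a38_co.IZ.LnL

/-!
# IZ/Coord (S): projective coordinates

With h0 (x0) = 0, w = p - x0, y = -(h0.a w1 + h0.b w2), u = h0.b w1 - h0.a w2: w1 = (-h0.a y + h0.b u) / N,
w2 = (-h0.b y - h0.a u) / N, N = h0.a ^ 2 + h0.b ^ 2 > 0. coord_model: divide by y and use sl, ct.
-/

namespace Pool.Agent.Work.MP_e64a38_co.IZ

private theorem nPos (h0 : Ln) : 0 < h0.a ^ 2 + h0.b ^ 2 := by
  rcases h0.h with h | h
  · have := pow_pos (abs_pos.mpr h) 2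
    rw [sq_abs] at this
    nlinarith [sq_nonneg h0.b]
  · have := pow_pos (abs_pos.mpr h) 2
    rw [sq_abs] at this
    nlinarith [sq_nonneg h0.a]

theorem coord (h0 l : Ln) (x0 p : ℝ × ℝ) (hx0 : h0.ev x0 = 0) :
    l.ev p = al h0 l * uv h0 x0 p + be h0 l * yv h0 p + l.ev x0 := by
  have hN := (nPos h0).ne'
  have hy : yv h0 p = -(h0.a * (p.1 - x0.1) + h0.b * (p.2 - x0.2)) := by
    unfold yv Ln.ev
    unfold Ln.ev at hx0
    linarith
  rw [hy]
  unfold al be uv Ln.ev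
  field_simp
  ring

theorem coord_surj (h0 : Ln) (x0 : ℝ × ℝ) (hx0 : h0.ev x0 = 0) (u y : ℝ) : ∃ p, uv h0 x0 p = u ∧ yv h0 p = y := by
  have hN := (nPos h0).ne'
  refine ⟨(x0.1 + (-h0.a * y + h0.b * u) / (h0.a ^ 2 + h0.b ^ 2),
    x0.2 + (-h0.b * y - h0.a * u) / (h0.a ^ 2 + h0.b ^ 2)), ?_, ?_⟩
  · unfold uv
    simp only
    field_simp
    ring
  · unfold yv Ln.ev
    unfold Ln.ev at hx0
    simp only
    have h1 : h0.a * ((-h0.a * y + h0.b * u) / (h0.a ^ 2 + h0.b ^ 2)) +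
        h0.b * ((-h0.b * y - h0.a * u) / (h0.a ^ 2 + h0.b ^ 2)) = -y := by
      field_simp
      ring
    linarith

theorem coord_inj (h0 : Ln) (x0 p q : ℝ × ℝ) (hx0 : h0.ev x0 = 0) (hu : uv h0 x0 p = uv h0 x0 q)
    (hy : yv h0 p = yv h0 q) : p = q := by
  have hN := (nPos h0).ne'
  unfold uv at hu
  unfold yv Ln.ev at hy
  have h1 : (h0.a ^ 2 + h0.b ^ 2) * (p.1 - q.1) = 0 := by
    linear_combination h0.b * hu - h0.a * hy
  have h2 : (h0.a ^ 2 + h0.b ^ 2) * (p.2 - q.2) = 0 := by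
    linear_combination - h0.a * hu - h0.b * hy
  ext
  · rcases mul_eq_zero.mp h1 with h | h
    · exact absurd h hN
    · linarith
  · rcases mul_eq_zero.mp h2 with h | h
    · exact absurd h hN
    · linarith

theorem coord_model (h0 l : Ln) (x0 p : ℝ × ℝ) (hx0 : h0.ev x0 = 0) (hl : l.ev x0 ≠ 0) (hy : 0 < yv h0 p) :
    l.ev p = yv h0 p * l.ev x0 * (1 / yv h0 p - (sl h0 x0 l * (uv h0 x0 p / yv h0 p) + ct h0 x0 l)) := by
  have hy' := hy.ne'
  rw [coord h0 l x0 p hx0]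
  unfold sl ct
  field_simp
  ring

/-- Different lines (not through x0) have different slopes or constant terms. -/
theorem coord_ne (h0 l l' : Ln) (x0 : ℝ × ℝ) (hx0 : h0.ev x0 = 0) (hl : l.ev x0 ≠ 0) (hl' : l'.ev x0 ≠ 0)
    (hne : l.pts ≠ l'.pts) : sl h0 x0 l ≠ sl h0 x0 l' ∨ ct h0 x0 l ≠ ct h0 x0 l' := by
  by_contra hcon
  push Not at hcon
  obtain ⟨h1, h2⟩ := hcon
  apply hne
  have key : ∀ p, l.ev p / l.ev x0 = l'.ev p / l'.ev x0 := by
    intro p
    have e1 : l.ev p / l.ev x0 = - sl h0 x0 l * uv h0 x0 p - ct h0 x0 l * yv h0 p + 1 := by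
      rw [coord h0 l x0 p hx0]
      unfold sl ct
      field_simp
      ring
    have e2 : l'.ev p / l'.ev x0 = - sl h0 x0 l' * uv h0 x0 p - ct h0 x0 l' * yv h0 p + 1 := by
      rw [coord h0 l' x0 p hx0]
      unfold sl ct
      field_simp
      ring
    rw [e1, e2, h1, h2]
  ext p
  have hk := key p
  show l.ev p = 0 ↔ l'.ev p = 0
  constructor
  · intro h
    rw [h, zero_div] at hk
    rcases div_eq_zero_iff.mp hk.symm with h' | h'
    · exact h'
    · exact absurd h' hl'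
  · intro h
    rw [h, zero_div] at hk
    rcases div_eq_zero_iff.mp hk with h' | h'
    · exact h'
    · exact absurd h' hl

end Pool.Agent.Work.MP_e64a38_co.IZ
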