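import Pool.Agent.Work.MP_e64a38_co.IZ.SideA

/-!
# IZ/SideB (S-M): every line meets at most two sides in inner points; the total number of supports

line_sides. Let z0 in inn h on the line l i. For every j with Crs choose T j with Rel h j (T j), l i (T j) = 0. All
points z0, T j are on the line l i: with the direction v = (- (l i).b, (l i).a), T j = z0 + t j • v. Let j ≠ j' with t j, t j' of
the same sign and |t j| ≤ |t j'|: then T j is on the segment from z0 to T j', T j = z0 + λ (T j' - z0), 0 ≤ λ ≤ 1,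
so h j (T j) = (1 - λ) h j z0 + λ h j (T j') < 0 (both are negative: Rel for j' ≠ j), contradicting h j (T j) = 0. t j ≠ 0 since
h j z0 < 0. So among three indices two have the same sign: impossible.
side_total. Exchange the sums: ∑ s #{j | Sup s j} = ∑ j #{s | Sup s j} ≤ ∑ j (1 + #{i | Crs i j}) = k + ∑ i #{j | Crs i j} ≤ k + 2 n.
-/

namespace Pool.Agent.Work.MP_e64a38_co.IZ

variable {n k : ℕ}

private theorem sb_num {e1 e2 s1 s2 t1 t2 : ℝ} (h1 : e1 < 0) (h2 : e2 < 0) (h3 : e1 + t1 * s1 = 0)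
    (h4 : e2 + t2 * s2 = 0) (h5 : e1 + t2 * s1 < 0) (h6 : e2 + t1 * s2 < 0) (h7 : 0 < t1 * t2) :
    False := by
  have a1 : 0 < t1 * s1 := by linarith
  have a2 : 0 < t2 * s2 := by linarith
  have a3 : 0 < (t1 - t2) * s1 := by nlinarith
  have a4 : 0 < (t2 - t1) * s2 := by nlinarith
  have b1 : 0 < (t1 * t2) * (s1 * s2) := by
    have := mul_pos a1 a2
    nlinarith
  have b2 : 0 < s1 * s2 := (pos_iff_pos_of_mul_pos b1).1 h7
  have b3 := mul_pos a3 a4
  have b4 : 0 ≤ (t1 - t2) ^ 2 * (s1 * s2) := mul_nonneg (sq_nonneg _) b2.le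
  nlinarith

/-- a point of the line as a multiple of the direction -/
private theorem sb_par (l : Ln) {z T : ℝ × ℝ} (hz : l.ev z = 0) (hT : l.ev T = 0) :
    ∃ t : ℝ, ∀ g : Ln, g.ev T = g.ev z + t * (g.b * l.a - g.a * l.b) := by
  have hpos : 0 < l.a ^ 2 + l.b ^ 2 := by
    rcases l.h with h | h
    · have := sq_pos_of_ne_zero h
      have := sq_nonneg l.b
      linarith
    · have := sq_pos_of_ne_zero h
      have := sq_nonneg l.a
      linarith
  unfold Ln.ev at hz hT
  have h1 : l.a * (T.1 - z.1) + l.b * (T.2 - z.2) = 0 := by linarith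
  refine ⟨(l.a * (T.2 - z.2) - l.b * (T.1 - z.1)) / (l.a ^ 2 + l.b ^ 2), fun g => ?_⟩
  unfold Ln.ev
  have h2 : (T.1 - z.1) * (l.a ^ 2 + l.b ^ 2) =
      -(l.a * (T.2 - z.2) - l.b * (T.1 - z.1)) * l.b := by
    linear_combination l.a * h1
  have h3 : (T.2 - z.2) * (l.a ^ 2 + l.b ^ 2) =
      (l.a * (T.2 - z.2) - l.b * (T.1 - z.1)) * l.a := by
    linear_combination l.b * h1
  have h4 : (g.a * (T.1 - z.1) + g.b * (T.2 - z.2)) * (l.a ^ 2 + l.b ^ 2) =
      (l.a * (T.2 - z.2) - l.b * (T.1 - z.1)) * (g.b * l.a - g.a * l.b) := by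
    linear_combination g.a * h2 + g.b * h3
  have h5 : g.a * (T.1 - z.1) + g.b * (T.2 - z.2) =
      (l.a * (T.2 - z.2) - l.b * (T.1 - z.1)) / (l.a ^ 2 + l.b ^ 2) * (g.b * l.a - g.a * l.b) := by
    rw [div_mul_eq_mul_div, eq_div_iff hpos.ne']
    exact h4
  linarith

open Classical in
theorem line_sides (l : Fin n → Ln) (h : Fin k → Ln) (i : Fin n) (hm : ((l i).pts ∩ inn h).Nonempty) :
    (Finset.univ.filter (fun j : Fin k => Crs l h i j)).card ≤ 2 := by
  obtain ⟨z, hz, hzi⟩ := hm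
  have hz' : (l i).ev z = 0 := hz
  have key : ∀ j, Crs l h i j → ∃ t : ℝ, t ≠ 0 ∧
      (h j).ev z + t * ((h j).b * (l i).a - (h j).a * (l i).b) = 0 ∧
      ∀ j', j' ≠ j → (h j').ev z + t * ((h j').b * (l i).a - (h j').a * (l i).b) < 0 := by
    rintro j ⟨T, hT, hTl⟩
    obtain ⟨t, ht⟩ := sb_par (l i) hz' hTl
    refine ⟨t, ?_, ?_, ?_⟩
    · rintro rfl
      have h1 := ht (h j)
      rw [hT.1, zero_mul, add_zero] at h1
      have h2 := hzi j
      linarith
    · rw [← ht (h j)]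
      exact hT.1
    · intro j' hj'
      rw [← ht (h j')]
      exact hT.2 j' hj'
  by_contra hcon
  push Not at hcon
  obtain ⟨j1, h1, j2, h2, j3, h3, h12, h13, h23⟩ := Finset.two_lt_card.1 hcon
  rw [Finset.mem_filter] at h1 h2 h3
  obtain ⟨t1, n1, e1, g1⟩ := key j1 h1.2
  obtain ⟨t2, n2, e2, g2⟩ := key j2 h2.2
  obtain ⟨t3, n3, e3, g3⟩ := key j3 h3.2
  have c12 : ¬ 0 < t1 * t2 := fun hp =>
    sb_num (hzi j1) (hzi j2) e1 e2 (g2 j1 h12) (g1 j2 h12.symm) hp
  have c13 : ¬ 0 < t1 * t3 := fun hp =>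
    sb_num (hzi j1) (hzi j3) e1 e3 (g3 j1 h13) (g1 j3 h13.symm) hp
  have c23 : ¬ 0 < t2 * t3 := fun hp =>
    sb_num (hzi j2) (hzi j3) e2 e3 (g3 j2 h23) (g2 j3 h23.symm) hp
  rcases lt_or_gt_of_ne n1 with m1 | m1 <;> rcases lt_or_gt_of_ne n2 with m2 | m2 <;>
    rcases lt_or_gt_of_ne n3 with m3 | m3
  · exact c12 (mul_pos_of_neg_of_neg m1 m2)
  · exact c12 (mul_pos_of_neg_of_neg m1 m2)
  · exact c13 (mul_pos_of_neg_of_neg m1 m3)
  · exact c23 (mul_pos m2 m3)
  · exact c23 (mul_pos_of_neg_of_neg m2 m3)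
  · exact c13 (mul_pos m1 m3)
  · exact c12 (mul_pos m1 m2)
  · exact c12 (mul_pos m1 m2)

open Classical in
theorem side_total (l : Fin n → Ln) (h : Fin k → Ln) (hm : ∀ i, ((l i).pts ∩ inn h).Nonempty) :
    ∑ s : Fin n → Bool, (Finset.univ.filter (fun j : Fin k => Sup l h s j)).card ≤ 2 * n + k := by
  have e1 : ∑ s : Fin n → Bool, (Finset.univ.filter (fun j : Fin k => Sup l h s j)).card =
      ∑ j : Fin k, (Finset.univ.filter (fun s : Fin n → Bool => Sup l h s j)).card := by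
    simp only [Finset.card_filter]
    exact Finset.sum_comm
  have e2 : ∑ j : Fin k, (Finset.univ.filter (fun i : Fin n => Crs l h i j)).card =
      ∑ i : Fin n, (Finset.univ.filter (fun j : Fin k => Crs l h i j)).card := by
    simp only [Finset.card_filter]
    exact Finset.sum_comm
  rw [e1]
  calc ∑ j : Fin k, (Finset.univ.filter (fun s : Fin n → Bool => Sup l h s j)).card
      ≤ ∑ j : Fin k, (1 + (Finset.univ.filter (fun i : Fin n => Crs l h i j)).card) :=
        Finset.sum_le_sum fun j _ => side_cells l h j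
    _ = k + ∑ i : Fin n, (Finset.univ.filter (fun j : Fin k => Crs l h i j)).card := by
        rw [Finset.sum_add_distrib, e2]
        simp
    _ ≤ k + ∑ _i : Fin n, 2 := by
        exact Nat.add_le_add_left (Finset.sum_le_sum fun i _ => line_sides l h i (hm i)) k
    _ = 2 * n + k := by
        simp
        ring

end Pool.Agent.Work.MP_e64a38_co.IZ
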