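import Pool.Agent.Work.MP_e64a38_co.IZ.EdgeP
import Pool.Agent.Work.MP_e64a38_co.IZ.SideB

/-!
# IZ/Compl (S-M): the zone complexity in terms of incidences

Proof. For every s: edges l h C is contained in the union of the images of {i | EdgG l h s i} under
i ↦ closure C ∩ (l i).pts (edge_pt) and of {j | Sup l h s j} under j ↦ closure C ∩ side h j (supp_pt, any x0), C = cellOf l h s.
So its ncard is at most the sum of the two cardinalities (Set.ncard_le_ncard and finiteness, Finset.card_image_le).
Zone l h s implies ZonG l h s (supp_pt). Sum over s and use side_total.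
-/

namespace Pool.Agent.Work.MP_e64a38_co.IZ

variable {n k : ℕ}

private theorem sup_of (l : Fin n → Ln) (h : Fin k → Ln) (hP : IsPolygon h)
    (hm : ∀ i, ((l i).pts ∩ inn h).Nonempty) (s : Fin n → Bool) (j : Fin k)
    (hS : (closure (cellOf l h s) ∩ side h j).Nontrivial) : Sup l h s j := by
  obtain ⟨T, _, h1, h2⟩ := supp_pt l h hP hm (0, 0) s j hS
  exact ⟨T, h1, h2⟩

private theorem zonG_of (l : Fin n → Ln) (h : Fin k → Ln) (hP : IsPolygon h)
    (hm : ∀ i, ((l i).pts ∩ inn h).Nonempty) (s : Fin n → Bool) (hZ : Zone l h s) :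
    ZonG l h s := by
  obtain ⟨h1, j, h2⟩ := hZ
  exact ⟨h1, j, sup_of l h hP hm s j h2⟩

open Classical in
private theorem edges_le (l : Fin n → Ln) (h : Fin k → Ln) (hP : IsPolygon h)
    (hl : Function.Injective (fun i => (l i).pts)) (hm : ∀ i, ((l i).pts ∩ inn h).Nonempty)
    (s : Fin n → Bool) : (edges l h (cellOf l h s)).ncard ≤
      (Finset.univ.filter (fun i : Fin n => EdgG l h s i)).card +
        (Finset.univ.filter (fun j : Fin k => Sup l h s j)).card := by
  set A : Finset (Set (ℝ × ℝ)) := (Finset.univ.filter (fun i : Fin n => EdgG l h s i)).image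
    (fun i => closure (cellOf l h s) ∩ (l i).pts) with hA
  set B : Finset (Set (ℝ × ℝ)) := (Finset.univ.filter (fun j : Fin k => Sup l h s j)).image
    (fun j => closure (cellOf l h s) ∩ side h j) with hB
  have hsub : edges l h (cellOf l h s) ⊆ ((A ∪ B : Finset (Set (ℝ × ℝ))) : Set (Set (ℝ × ℝ))) := by
    rintro E ⟨hE, ⟨i, hi⟩ | ⟨j, hj⟩⟩
    · rw [Finset.mem_coe, Finset.mem_union]
      left
      rw [hA, Finset.mem_image]
      refine ⟨i, ?_, hi.symm⟩
      rw [Finset.mem_filter]
      rw [hi] at hE
      exact ⟨Finset.mem_univ _, edge_pt l h hl hm s i hE⟩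
    · rw [Finset.mem_coe, Finset.mem_union]
      right
      rw [hB, Finset.mem_image]
      refine ⟨j, ?_, hj.symm⟩
      rw [Finset.mem_filter]
      rw [hj] at hE
      exact ⟨Finset.mem_univ _, sup_of l h hP hm s j hE⟩
  have h1 := Set.ncard_le_ncard hsub (Finset.finite_toSet _)
  rw [Set.ncard_coe_finset] at h1
  refine h1.trans ((Finset.card_union_le _ _).trans ?_)
  exact Nat.add_le_add Finset.card_image_le Finset.card_image_le

open Classical in
theorem compl_le (l : Fin n → Ln) (h : Fin k → Ln) (hP : IsPolygon h)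
    (hl : Function.Injective (fun i => (l i).pts)) (hm : ∀ i, ((l i).pts ∩ inn h).Nonempty) :
    zoneComplexity l h ≤ ∑ s ∈ Finset.univ.filter (fun s : Fin n → Bool => ZonG l h s),
      (Finset.univ.filter (fun i : Fin n => EdgG l h s i)).card + (2 * n + k) := by
  unfold zoneComplexity
  refine le_trans ?_ (Nat.add_le_add_left (side_total l h hm) _)
  rw [Finset.sum_filter, ← Finset.sum_add_distrib]
  refine Finset.sum_le_sum fun s _ => ?_
  by_cases hZ : Zone l h s
  · rw [if_pos hZ, if_pos (zonG_of l h hP hm s hZ)]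
    exact edges_le l h hP hl hm s
  · rw [if_neg hZ]
    exact Nat.zero_le _

end Pool.Agent.Work.MP_e64a38_co.IZ
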