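import Pool.Agent.Work.MP_e64a38_co.IZ.LnL

/-!
# IZ/EdgeP (S-M): from the closure of a cell to strict points

edge_pt. p ≠ q in closure C and on l i; let z = the midpoint (ev_comb, t = 1/2), l i z = 0. For j ≠ i:
sb (s j) * l j ≥ 0 at p and q (closure_cell), so ≥ 0 at z, and = 0 only if it is 0 at p and q, then l j and l i have the
same points (pts_eq), excluded by injectivity. h j ≤ 0 at p, q, so at z, and = 0 only if (h j).pts = (l i).pts by pts_eq,
but l i has a point in inn h, where h j < 0.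
supp_pt. The same with p ≠ q in closure C ∩ side j and z = p + t (q - p), t = 1/2 or t = 1/3 (one of them is ≠ x0):
h j z = 0, for j' ≠ j: h j' z < 0 (IsPolygon.ne), for every i: sb (s i) * l i z > 0 (otherwise (l i).pts = (h j).pts).
-/

namespace Pool.Agent.Work.MP_e64a38_co.IZ

variable {n k : ℕ}

private theorem sb_ne (b : Bool) : sb b ≠ 0 := by
  unfold sb; split_ifs <;> norm_num

theorem edge_pt (l : Fin n → Ln) (h : Fin k → Ln) (hl : Function.Injective (fun i => (l i).pts))
    (hm : ∀ i, ((l i).pts ∩ inn h).Nonempty) (s : Fin n → Bool) (i : Fin n)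
    (hE : (closure (cellOf l h s) ∩ (l i).pts).Nontrivial) : EdgG l h s i := by
  obtain ⟨p, ⟨hpC, hpi⟩, q, ⟨hqC, hqi⟩, hpq⟩ := hE
  have cp := closure_cell l h s hpC
  have cq := closure_cell l h s hqC
  have hpi' : (l i).ev p = 0 := hpi
  have hqi' : (l i).ev q = 0 := hqi
  refine ⟨p + (1/2 : ℝ) • (q - p), ?_, ?_, ?_⟩
  · intro j
    rw [ev_comb]
    have h1 := cp.1 j
    have h2 := cq.1 j
    rcases lt_or_eq_of_le h1 with h1' | h1'
    · linarith
    rcases lt_or_eq_of_le h2 with h2' | h2'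
    · linarith
    exfalso
    have he := pts_eq hpq hpi' hqi' h1' h2'
    obtain ⟨w, hw1, hw2⟩ := hm i
    rw [he] at hw1
    have hw3 : (h j).ev w = 0 := hw1
    have := hw2 j
    linarith
  · rw [ev_comb, hpi', hqi']; ring
  · intro j hj
    rw [ev_comb]
    have h1 := cp.2 j
    have h2 := cq.2 j
    have hs := sb_ne (s j)
    have e : sb (s j) * ((1 - 1/2) * (l j).ev p + 1/2 * (l j).ev q) =
      1/2 * (sb (s j) * (l j).ev p) + 1/2 * (sb (s j) * (l j).ev q) := by ring
    rw [e]
    rcases lt_or_eq_of_le h1 with h1' | h1'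
    · linarith
    rcases lt_or_eq_of_le h2 with h2' | h2'
    · linarith
    exfalso
    have h3 : (l j).ev p = 0 := by
      rcases mul_eq_zero.mp h1'.symm with h | h
      · exact absurd h hs
      · exact h
    have h4 : (l j).ev q = 0 := by
      rcases mul_eq_zero.mp h2'.symm with h | h
      · exact absurd h hs
      · exact h
    exact hj (hl (pts_eq hpq h3 h4 hpi' hqi'))

private theorem supp_aux (l : Fin n → Ln) (h : Fin k → Ln) (hP : IsPolygon h)
    (hm : ∀ i, ((l i).pts ∩ inn h).Nonempty) (s : Fin n → Bool) (j : Fin k) (p q : ℝ × ℝ) (hpq : p ≠ q)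
    (hpC : p ∈ closure (cellOf l h s)) (hqC : q ∈ closure (cellOf l h s)) (hp : (h j).ev p = 0)
    (hq : (h j).ev q = 0) (t : ℝ) (ht0 : 0 < t) (ht1 : t < 1) :
    Rel h j (p + t • (q - p)) ∧ ∀ i, 0 < sb (s i) * (l i).ev (p + t • (q - p)) := by
  have cp := closure_cell l h s hpC
  have cq := closure_cell l h s hqC
  refine ⟨⟨?_, ?_⟩, ?_⟩
  · rw [ev_comb, hp, hq]; ring
  · intro j' hj'
    rw [ev_comb]
    have h1 := cp.1 j'
    have h2 := cq.1 j'
    rcases lt_or_eq_of_le h1 with h1' | h1'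
    · have : (1 - t) * (h j').ev p < 0 := mul_neg_of_pos_of_neg (by linarith) h1'
      have : t * (h j').ev q ≤ 0 := mul_nonpos_of_nonneg_of_nonpos ht0.le h2
      linarith
    rcases lt_or_eq_of_le h2 with h2' | h2'
    · have : (1 - t) * (h j').ev p ≤ 0 := mul_nonpos_of_nonneg_of_nonpos (by linarith) h1
      have : t * (h j').ev q < 0 := mul_neg_of_pos_of_neg ht0 h2'
      linarith
    exact absurd (pts_eq hpq h1' h2' hp hq) (hP.ne j' j hj')
  · intro i
    rw [ev_comb]
    have h1 := cp.2 i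
    have h2 := cq.2 i
    have hs := sb_ne (s i)
    have e : sb (s i) * ((1 - t) * (l i).ev p + t * (l i).ev q) =
      (1 - t) * (sb (s i) * (l i).ev p) + t * (sb (s i) * (l i).ev q) := by ring
    rw [e]
    rcases lt_or_eq_of_le h1 with h1' | h1'
    · have : 0 < (1 - t) * (sb (s i) * (l i).ev p) := mul_pos (by linarith) h1'
      have : 0 ≤ t * (sb (s i) * (l i).ev q) := mul_nonneg ht0.le h2
      linarith
    rcases lt_or_eq_of_le h2 with h2' | h2'
    · have : 0 ≤ (1 - t) * (sb (s i) * (l i).ev p) := mul_nonneg (by linarith) h1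
      have : 0 < t * (sb (s i) * (l i).ev q) := mul_pos ht0 h2'
      linarith
    exfalso
    have h3 : (l i).ev p = 0 := by
      rcases mul_eq_zero.mp h1'.symm with h | h
      · exact absurd h hs
      · exact h
    have h4 : (l i).ev q = 0 := by
      rcases mul_eq_zero.mp h2'.symm with h | h
      · exact absurd h hs
      · exact h
    have he := pts_eq hpq h3 h4 hp hq
    obtain ⟨w, hw1, hw2⟩ := hm i
    rw [he] at hw1
    have hw3 : (h j).ev w = 0 := hw1
    have := hw2 j
    linarith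

theorem supp_pt (l : Fin n → Ln) (h : Fin k → Ln) (hP : IsPolygon h)
    (hm : ∀ i, ((l i).pts ∩ inn h).Nonempty) (x0 : ℝ × ℝ) (s : Fin n → Bool) (j : Fin k)
    (hS : (closure (cellOf l h s) ∩ side h j).Nontrivial) :
    ∃ T, T ≠ x0 ∧ Rel h j T ∧ ∀ i, 0 < sb (s i) * (l i).ev T := by
  obtain ⟨p, ⟨hpC, hpj, _⟩, q, ⟨hqC, hqj, _⟩, hpq⟩ := hS
  by_cases hx : p + (1/2 : ℝ) • (q - p) = x0
  · have H := supp_aux l h hP hm s j p q hpq hpC hqC hpj hqj (1/3) (by norm_num) (by norm_num)
    refine ⟨p + (1/3 : ℝ) • (q - p), ?_, H.1, H.2⟩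
    intro hx'
    rw [← hx] at hx'
    have h1 : (1/3 : ℝ) • (q - p) = (1/2 : ℝ) • (q - p) := by
      simpa using hx'
    have h2 : ((1/2 : ℝ) - 1/3) • (q - p) = 0 := by
      rw [sub_smul, h1, sub_self]
    rcases smul_eq_zero.mp h2 with h3 | h3
    · norm_num at h3
    · exact hpq (sub_eq_zero.mp h3).symm
  · have H := supp_aux l h hP hm s j p q hpq hpC hqC hpj hqj (1/2) (by norm_num) (by norm_num)
    exact ⟨p + (1/2 : ℝ) • (q - p), hx, H.1, H.2⟩

/-- If a cell touches a side in a point T as in Sup, we can choose such a point different from x0. -/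
theorem sup_ne (l : Fin n → Ln) (h : Fin k → Ln) (x0 : ℝ × ℝ) (s : Fin n → Bool) (j : Fin k) (hS : Sup l h s j) :
    ∃ T, T ≠ x0 ∧ Rel h j T ∧ ∀ i, 0 < sb (s i) * (l i).ev T := by
  obtain ⟨T, hT, hs⟩ := hS
  by_cases hx : T = x0
  · set v : ℝ × ℝ := (-(h j).b, (h j).a) with hv
    have hv0 : v ≠ 0 := by
      intro h0
      have h1 : -(h j).b = 0 := congrArg Prod.fst h0
      have h2 : (h j).a = 0 := congrArg Prod.snd h0
      rcases (h j).h with h3 | h3
      · exact h3 h2
      · exact h3 (by linarith)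
    have hc : ∀ m : Ln, Continuous (fun e : ℝ => m.ev (T + e • v)) := fun m =>
      (continuous_ev m).comp (by fun_prop)
    have h1 : ∀ᶠ e in nhds (0 : ℝ), ∀ j', j' ≠ j → (h j').ev (T + e • v) < 0 := by
      rw [Filter.eventually_all]
      intro j'
      by_cases hj' : j' = j
      · exact Filter.Eventually.of_forall (fun e h => absurd hj' h)
      · have := (hc (h j')).continuousAt (x := 0)
        have h0 : (h j').ev (T + (0 : ℝ) • v) < 0 := by simpa using hT.2 j' hj'
        exact (this.eventually_lt continuousAt_const h0).mono (fun e he _ => he)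
    have h2 : ∀ᶠ e in nhds (0 : ℝ), ∀ i, 0 < sb (s i) * (l i).ev (T + e • v) := by
      rw [Filter.eventually_all]
      intro i
      have := ((hc (l i)).const_mul (sb (s i))).continuousAt (x := 0)
      have h0 : 0 < sb (s i) * (l i).ev (T + (0 : ℝ) • v) := by simpa using hs i
      exact continuousAt_const.eventually_lt this h0
    have h3 : ∀ᶠ e in nhdsWithin (0 : ℝ) {0}ᶜ, e ≠ 0 := eventually_mem_nhdsWithin
    obtain ⟨e, ⟨he1, he2⟩, he3⟩ :=
      (((h1.and h2).filter_mono nhdsWithin_le_nhds).and h3).exists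
    refine ⟨T + e • v, ?_, ⟨?_, he1⟩, he2⟩
    · intro hx'
      rw [hx] at hx'
      have : e • v = 0 := by simpa using hx'
      rcases smul_eq_zero.mp this with h4 | h4
      · exact he3 h4
      · exact hv0 h4
    · have h5 : (h j).ev T = 0 := hT.1
      simp only [Ln.ev, hv, Prod.fst_add, Prod.snd_add, Prod.smul_fst, Prod.smul_snd, smul_eq_mul] at h5 ⊢
      linarith
  · exact ⟨T, hx, hT, hs⟩

end Pool.Agent.Work.MP_e64a38_co.IZ
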