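import Pool.Agent.Work.MP_e64a38_co.IZ.SDefs

/-!
# IZ/GDefs: definitions for the geometric part
-/

namespace Pool.Agent.Work.MP_e64a38_co.IZ

variable {n k : ℕ}

/-- T is an inner point of the side j. -/
def Rel (h : Fin k → Ln) (j : Fin k) (T : ℝ × ℝ) : Prop := (h j).ev T = 0 ∧ ∀ j', j' ≠ j → (h j').ev T < 0

/-- The cell with signs s touches the side j. -/
def Sup (l : Fin n → Ln) (h : Fin k → Ln) (s : Fin n → Bool) (j : Fin k) : Prop :=
  ∃ T, Rel h j T ∧ ∀ i, 0 < sb (s i) * (l i).ev T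

/-- The line i meets the side j in an inner point. -/
def Crs (l : Fin n → Ln) (h : Fin k → Ln) (i : Fin n) (j : Fin k) : Prop := ∃ T, Rel h j T ∧ (l i).ev T = 0

/-- The cell with signs s has an edge on the line i. -/
def EdgG (l : Fin n → Ln) (h : Fin k → Ln) (s : Fin n → Bool) (i : Fin n) : Prop :=
  ∃ p ∈ inn h, (l i).ev p = 0 ∧ ∀ j, j ≠ i → 0 < sb (s j) * (l j).ev p

/-- The cell with signs s is not empty and touches a side. -/
def ZonG (l : Fin n → Ln) (h : Fin k → Ln) (s : Fin n → Bool) : Prop :=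
  (cellOf l h s).Nonempty ∧ ∃ j, Sup l h s j

/-- Coordinates (u, y) of a point p relative to the line h0 through x0: y is positive inside. -/
def yv (h0 : Ln) (p : ℝ × ℝ) : ℝ := - h0.ev p

def uv (h0 : Ln) (x0 p : ℝ × ℝ) : ℝ := h0.b * (p.1 - x0.1) - h0.a * (p.2 - x0.2)

noncomputable def al (h0 l : Ln) : ℝ := (l.a * h0.b - l.b * h0.a) / (h0.a ^ 2 + h0.b ^ 2)

noncomputable def be (h0 l : Ln) : ℝ := - (l.a * h0.a + l.b * h0.b) / (h0.a ^ 2 + h0.b ^ 2)

/-- Slope and constant term of the line l in the coordinates (X, Y) = (u / y, 1 / y). -/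
noncomputable def sl (h0 : Ln) (x0 : ℝ × ℝ) (l : Ln) : ℝ := - al h0 l / l.ev x0

noncomputable def ct (h0 : Ln) (x0 : ℝ × ℝ) (l : Ln) : ℝ := - be h0 l / l.ev x0

/-- The function F with a small quadratic term. -/
def Ft (F : ℝ → ℝ) (ε x : ℝ) : ℝ := F x + ε * (1 + x ^ 2)

/-- The pattern of the signs s in the model (e i is the sign of l i at the base point x0). -/
def ptn (e s : Fin n → Bool) : Finset (Fin n) := Finset.univ.filter (fun i => s i ≠ e i)

end Pool.Agent.Work.MP_e64a38_co.IZ
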