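import Pool.Agent.Work.MP_e64a38_co.IZ.LnL

/-!
# IZ/Base (S-M): the base point x0 and perturbation of a boundary point

base. j0 = any index (polygon_pos). Take p ≠ q in side h j0 and x0 = p + t (q - p) with t in (0, 1): h j0 = 0; for j ≠ j0
h j ≤ 0 at p and q, and not both 0 (pts_eq, IsPolygon.ne), so h j x0 < 0. l i is not 0 at both p and q (otherwise
(l i).pts = (h j0).pts, but l i has a point in inn h), so l i (x0) = 0 for at most one t. x0 in Q for finitely many t.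
Choose t in (0, 1) outside a finite set.
pin_pert. Let q be in bd h, h j q = 0. Take p ≠ q in side h j (nontrivial), T = q + t (p - q) with small t in (0, 1): as
before Rel h j T for all t in (0, 1), l i T ≠ 0 and T ≠ x0 for all but finitely many t, and a strict sign of l i at q is kept
for small t (finitely many conditions; an infinite set of t in (0, δ) remains).
-/

namespace Pool.Agent.Work.MP_e64a38_co.IZ

variable {n k : ℕ}

private theorem rel_seg (h : Fin k → Ln) (hP : IsPolygon h) (j : Fin k) (p q : ℝ × ℝ) (hpq : p ≠ q)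
    (hp : p ∈ side h j) (hq : q ∈ side h j) (t : ℝ) (ht0 : 0 < t) (ht1 : t < 1) :
    Rel h j (p + t • (q - p)) := by
  refine ⟨?_, ?_⟩
  · rw [ev_comb, hp.1, hq.1]; ring
  · intro j' hj'
    rw [ev_comb]
    have h1 := hp.2 j'
    have h2 := hq.2 j'
    rcases lt_or_eq_of_le h1 with h1' | h1'
    · have : (1 - t) * (h j').ev p < 0 := mul_neg_of_pos_of_neg (by linarith) h1'
      have : t * (h j').ev q ≤ 0 := mul_nonpos_of_nonneg_of_nonpos ht0.le h2
      linarith
    rcases lt_or_eq_of_le h2 with h2' | h2'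
    · have : (1 - t) * (h j').ev p ≤ 0 := mul_nonpos_of_nonneg_of_nonpos (by linarith) h1
      have : t * (h j').ev q < 0 := mul_neg_of_pos_of_neg ht0 h2'
      linarith
    exact absurd (pts_eq hpq h1' h2' hp.1 hq.1) (hP.ne j' j hj')

private theorem fin_zero (l : Ln) (h : Fin k → Ln) (j : Fin k) (p q : ℝ × ℝ) (hpq : p ≠ q)
    (hp : p ∈ side h j) (hq : q ∈ side h j) (hm : (l.pts ∩ inn h).Nonempty) :
    {t : ℝ | l.ev (p + t • (q - p)) = 0}.Finite := by
  have hne : ¬ (l.ev p = 0 ∧ l.ev q = 0) := by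
    rintro ⟨h3, h4⟩
    have he := pts_eq hpq h3 h4 hp.1 hq.1
    obtain ⟨w, hw1, hw2⟩ := hm
    rw [he] at hw1
    have hw3 : (h j).ev w = 0 := hw1
    have := hw2 j
    linarith
  apply Set.Subsingleton.finite
  intro t ht t' ht'
  simp only [Set.mem_setOf_eq, ev_comb] at ht ht'
  by_contra hne'
  apply hne
  have h5 : (t - t') * (l.ev q - l.ev p) = 0 := by linarith
  have h6 : l.ev q = l.ev p := by
    rcases mul_eq_zero.mp h5 with h | h
    · exact absurd (sub_eq_zero.mp h) hne'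
    · linarith
  rw [h6] at ht
  have : l.ev p = 0 := by linarith
  exact ⟨this, by rw [h6, this]⟩

private theorem fin_pt (p q y : ℝ × ℝ) (hpq : p ≠ q) : {t : ℝ | p + t • (q - p) = y}.Finite := by
  apply Set.Subsingleton.finite
  intro t ht t' ht'
  simp only [Set.mem_setOf_eq] at ht ht'
  rw [← ht'] at ht
  have h1 : t • (q - p) = t' • (q - p) := by simpa using ht
  have h2 : (t - t') • (q - p) = 0 := by rw [sub_smul, h1, sub_self]
  rcases smul_eq_zero.mp h2 with h3 | h3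
  · linarith
  · exact absurd (sub_eq_zero.mp h3).symm hpq

private theorem ev_cof {S : Set ℝ} (hS : S.Finite) : ∀ᶠ t in nhdsWithin (0 : ℝ) (Set.Ioi 0), t ∉ S := by
  have h1 : ∀ᶠ t in Filter.cofinite, t ∉ S := by simpa using hS
  have h2 : nhdsWithin (0 : ℝ) (Set.Ioi 0) ≤ nhdsWithin (0 : ℝ) {0}ᶜ :=
    nhdsWithin_mono _ (fun x hx => ne_of_gt hx)
  exact h1.filter_mono (h2.trans (nhdsNE_le_cofinite (a := (0 : ℝ))))

private theorem ev_unit : ∀ᶠ t in nhdsWithin (0 : ℝ) (Set.Ioi 0), 0 < t ∧ t < 1 := by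
  have h1 : ∀ᶠ t in nhdsWithin (0 : ℝ) (Set.Ioi 0), 0 < t := eventually_mem_nhdsWithin
  have h2 : ∀ᶠ t in nhdsWithin (0 : ℝ) (Set.Ioi 0), t < 1 :=
    (eventually_lt_nhds (by norm_num : (0 : ℝ) < 1)).filter_mono nhdsWithin_le_nhds
  exact h1.and h2

theorem base (l : Fin n → Ln) (h : Fin k → Ln) (hP : IsPolygon h) (hm : ∀ i, ((l i).pts ∩ inn h).Nonempty)
    (Q : Finset (ℝ × ℝ)) : ∃ j0 x0, Rel h j0 x0 ∧ (∀ i, (l i).ev x0 ≠ 0) ∧ x0 ∉ Q := by
  have hk := polygon_pos hP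
  obtain ⟨p, hp, q, hq, hpq⟩ := hP.side ⟨0, hk⟩
  have h1 : ∀ᶠ t in nhdsWithin (0 : ℝ) (Set.Ioi 0), ∀ i, (l i).ev (p + t • (q - p)) ≠ 0 := by
    rw [Filter.eventually_all]
    intro i
    exact ev_cof (fin_zero (l i) h _ p q hpq hp hq (hm i))
  have h2 : ∀ᶠ t in nhdsWithin (0 : ℝ) (Set.Ioi 0), p + t • (q - p) ∉ Q := by
    have hf : {t : ℝ | p + t • (q - p) ∈ Q}.Finite := by
      have : {t : ℝ | p + t • (q - p) ∈ Q} = ⋃ y ∈ Q, {t : ℝ | p + t • (q - p) = y} := by
        ext t; simp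
      rw [this]
      exact Set.Finite.biUnion Q.finite_toSet (fun y _ => fin_pt p q y hpq)
    exact ev_cof hf
  obtain ⟨t, ⟨ht0, ht1⟩, ht2, ht3⟩ := (ev_unit.and (h1.and h2)).exists
  exact ⟨⟨0, hk⟩, p + t • (q - p), rel_seg h hP _ p q hpq hp hq t ht0 ht1, ht2, ht3⟩

theorem pin_pert (l : Fin n → Ln) (h : Fin k → Ln) (hP : IsPolygon h) (hm : ∀ i, ((l i).pts ∩ inn h).Nonempty)
    (x0 q : ℝ × ℝ) (hq : q ∈ bd h) :
    ∃ j T, T ≠ x0 ∧ Rel h j T ∧ (∀ i, (l i).ev T ≠ 0) ∧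
      ∀ i, (0 < (l i).ev q → 0 < (l i).ev T) ∧ ((l i).ev q < 0 → (l i).ev T < 0) := by
  obtain ⟨hqP, j, hj⟩ := hq
  have hqs : q ∈ side h j := ⟨hj, hqP⟩
  obtain ⟨p, hps, hpq⟩ : ∃ p ∈ side h j, p ≠ q := (hP.side j).exists_ne q
  have h1 : ∀ᶠ t in nhdsWithin (0 : ℝ) (Set.Ioi 0), ∀ i, (l i).ev (q + t • (p - q)) ≠ 0 := by
    rw [Filter.eventually_all]
    intro i
    exact ev_cof (fin_zero (l i) h _ q p hpq.symm hqs hps (hm i))
  have h2 : ∀ᶠ t in nhdsWithin (0 : ℝ) (Set.Ioi 0), q + t • (p - q) ≠ x0 :=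
    ev_cof (fin_pt q p x0 hpq.symm)
  have hc : ∀ m : Ln, Continuous (fun e : ℝ => m.ev (q + e • (p - q))) := fun m =>
    (continuous_ev m).comp (by fun_prop)
  have h3 : ∀ᶠ t in nhdsWithin (0 : ℝ) (Set.Ioi 0), ∀ i,
      (0 < (l i).ev q → 0 < (l i).ev (q + t • (p - q))) ∧ ((l i).ev q < 0 → (l i).ev (q + t • (p - q)) < 0) := by
    rw [Filter.eventually_all]
    intro i
    have hci := (hc (l i)).continuousAt (x := 0)
    have hz : (l i).ev (q + (0 : ℝ) • (p - q)) = (l i).ev q := by simp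
    apply Filter.Eventually.and
    · by_cases hq0 : 0 < (l i).ev q
      · exact ((continuousAt_const.eventually_lt hci (by rw [hz]; exact hq0)).filter_mono
          nhdsWithin_le_nhds).mono (fun e he _ => he)
      · exact Filter.Eventually.of_forall (fun e h => absurd h hq0)
    · by_cases hq0 : (l i).ev q < 0
      · exact ((hci.eventually_lt continuousAt_const (by rw [hz]; exact hq0)).filter_mono
          nhdsWithin_le_nhds).mono (fun e he _ => he)
      · exact Filter.Eventually.of_forall (fun e h => absurd h hq0)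
  obtain ⟨t, ⟨ht0, ht1⟩, ht2, ht3, ht4⟩ := (ev_unit.and (h1.and (h2.and h3))).exists
  exact ⟨j, q + t • (p - q), ht3, rel_seg h hP _ q p hpq.symm hqs hps t ht0 ht1, ht2, ht4⟩

end Pool.Agent.Work.MP_e64a38_co.IZ
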