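import Pool.Agent.Work.MP_e64a38_co.IZ.GDefs

/-!
# IZ/Eps (S-M): adding a small quadratic term (one variable analysis)

eps_pt, eps_pt': continuity in ε at 0. eps_interval: by eps_pt at x1 we may assume Ft F ε x1 < m x1 + c. The set
I = {x | Ft F ε x < m x + c} is open, convex (Ft F ε - (m x + c) is convex), nonempty, and bounded since Ft F ε x ≥ ε x ^ 2.
So I = Ioo a b with a = sInf, b = sSup (an open, bounded, nonempty, order connected set), and at a and b equality holds by
continuity and a, b not in I. (Alternatively: intermediate value theorem left and right of x1 and convexity.)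
eps_tie: if m = m' then c ≠ c' and both equations are never true together. Otherwise both equations force
x = s := (c' - c) / (m - m') and ε = (m s + c - F s) / (1 + s ^ 2), a single value, which is avoided eventually in 𝓝[>] 0.
eps_path: G y = 1 / y - F (u / y) - ε (1 + (u / y) ^ 2) is continuous on (0, ∞); G y1 > 0 for small ε (eps_pt);
G y → -∞ as y → 0, since F ≥ 0: G y ≤ 1 / y - ε u ^ 2 / y ^ 2 ≤ 0 for y ≤ ε u ^ 2. Intermediate value theorem on
[min (ε u ^ 2) (y1 / 2), y1]: there is y with G y = 0, and y < y1 since G y1 > 0.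
-/

open Filter Topology

namespace Pool.Agent.Work.MP_e64a38_co.IZ

theorem eps_pt (F : ℝ → ℝ) (x y : ℝ) (h : F x < y) : ∀ᶠ ε in 𝓝[>] (0 : ℝ), Ft F ε x < y := by
  have hc : Continuous (fun ε : ℝ => Ft F ε x) := by
    unfold Ft
    fun_prop
  have h0 : Ft F 0 x < y := by
    unfold Ft
    rw [zero_mul, add_zero]
    exact h
  exact ((hc.tendsto 0).eventually (gt_mem_nhds h0)).filter_mono nhdsWithin_le_nhds

private theorem big {m c ε y : ℝ} (hε : 0 < ε) (h1 : 1 ≤ |y|) (h2 : (|m| + |c|) / ε ≤ |y|) :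
    m * y + c ≤ ε * (1 + y ^ 2) := by
  rw [div_le_iff₀ hε] at h2
  have h3 : m * y ≤ |m| * |y| := (le_abs_self _).trans (abs_mul m y).le
  have h4 : c ≤ |c| := le_abs_self c
  have h5 : y ^ 2 = |y| * |y| := by rw [← sq, sq_abs]
  have h6 : (|m| + |c|) * |y| ≤ |y| * ε * |y| := mul_le_mul_of_nonneg_right h2 (abs_nonneg y)
  have h7 : |c| * 1 ≤ |c| * |y| := mul_le_mul_of_nonneg_left h1 (abs_nonneg c)
  rw [h5]
  nlinarith

theorem eps_interval (F : ℝ → ℝ) (hF : Continuous F) (hc : ConvexOn ℝ Set.univ F) (h0 : ∀ x, 0 ≤ F x)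
    (m c x1 : ℝ) (h1 : F x1 < m * x1 + c) :
    ∀ᶠ ε in 𝓝[>] (0 : ℝ), ∃ a b, a < b ∧ (∀ x, Ft F ε x < m * x + c ↔ (a < x ∧ x < b)) ∧
      Ft F ε a = m * a + c ∧ Ft F ε b = m * b + c := by
  filter_upwards [eps_pt F x1 _ h1, self_mem_nhdsWithin] with ε hε1 hε0
  have hε : 0 < ε := hε0
  have hcont : Continuous (fun x => Ft F ε x) := by
    unfold Ft
    fun_prop
  have hlin : Continuous (fun x : ℝ => m * x + c) := by fun_prop
  obtain ⟨S, hS⟩ : ∃ S : Set ℝ, S = {x | Ft F ε x < m * x + c} := ⟨_, rfl⟩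
  have hmem : ∀ x, x ∈ S ↔ Ft F ε x < m * x + c := fun x => by rw [hS]; rfl
  have hopen : IsOpen S := by
    rw [hS]
    exact isOpen_lt hcont hlin
  have hx1 : x1 ∈ S := (hmem x1).2 hε1
  have hord : ∀ p ∈ S, ∀ q ∈ S, ∀ x, p ≤ x → x ≤ q → x ∈ S := by
    intro p hp q hq x hpx hxq
    rcases eq_or_lt_of_le hpx with rfl | hpx'
    · exact hp
    rcases eq_or_lt_of_le hxq with rfl | hxq'
    · exact hq
    have hpq : 0 < q - p := by linarith
    obtain ⟨s, hs⟩ : ∃ s : ℝ, s = (q - x) / (q - p) := ⟨_, rfl⟩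
    obtain ⟨t, ht⟩ : ∃ t : ℝ, t = (x - p) / (q - p) := ⟨_, rfl⟩
    have hs0 : 0 < s := by rw [hs]; exact div_pos (by linarith) hpq
    have ht0 : 0 < t := by rw [ht]; exact div_pos (by linarith) hpq
    have hst : s + t = 1 := by
      rw [hs, ht, ← add_div]
      rw [show q - x + (x - p) = q - p by ring]
      exact div_self hpq.ne'
    have hx : s * p + t * q = x := by
      rw [hs, ht]
      field_simp
      ring
    have h2 := hc.2 (Set.mem_univ p) (Set.mem_univ q) hs0.le ht0.le hst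
    simp only [smul_eq_mul] at h2
    rw [hx] at h2
    have hp' := (hmem p).1 hp
    have hq' := (hmem q).1 hq
    rw [hmem]
    unfold Ft at hp' hq' ⊢
    have h3 : x ^ 2 ≤ s * p ^ 2 + t * q ^ 2 := by
      have e : s * p ^ 2 + t * q ^ 2 - x ^ 2 = s * t * (p - q) ^ 2 := by
        rw [← hx]
        have : t = 1 - s := by linarith
        rw [this]
        ring
      nlinarith [mul_nonneg (mul_nonneg hs0.le ht0.le) (sq_nonneg (p - q))]
    have h4 := mul_lt_mul_of_pos_left hp' hs0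
    have h5 := mul_lt_mul_of_pos_left hq' ht0
    have h6 : ε * x ^ 2 ≤ ε * (s * p ^ 2 + t * q ^ 2) := mul_le_mul_of_nonneg_left h3 hε.le
    have h7 : F x + ε * (1 + x ^ 2) ≤ s * (F p + ε * (1 + p ^ 2)) + t * (F q + ε * (1 + q ^ 2)) := by
      have e : s * (F p + ε * (1 + p ^ 2)) + t * (F q + ε * (1 + q ^ 2)) =
          (s * F p + t * F q) + ε * (s + t) + ε * (s * p ^ 2 + t * q ^ 2) := by ring
      rw [e, hst]
      linarith
    have h8 : s * (m * p + c) + t * (m * q + c) = m * x + c := by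
      rw [← hx]
      have : t = 1 - s := by linarith
      rw [this]
      ring
    linarith
  obtain ⟨Y, hY⟩ : ∃ Y : ℝ, Y = max (max 1 ((|m| + |c|) / ε)) (|x1| + 1) := ⟨_, rfl⟩
  have hY1 : 1 ≤ Y := by rw [hY]; exact (le_max_left _ _).trans (le_max_left _ _)
  have hY2 : (|m| + |c|) / ε ≤ Y := by rw [hY]; exact (le_max_right _ _).trans (le_max_left _ _)
  have hY3 : |x1| + 1 ≤ Y := by rw [hY]; exact le_max_right _ _
  have hnot : ∀ y, |y| = Y → y ∉ S := by
    intro y hy h2
    have h3 := (hmem y).1 h2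
    have h4 := big (m := m) (c := c) hε (y := y) (by rw [hy]; exact hY1) (by rw [hy]; exact hY2)
    unfold Ft at h3
    linarith [h0 y]
  have hYp : Y ∉ S := hnot Y (abs_of_nonneg (by linarith))
  have hYn : -Y ∉ S := hnot (-Y) (by rw [abs_neg]; exact abs_of_nonneg (by linarith))
  have hx1Y : -Y < x1 ∧ x1 < Y := ⟨by linarith [neg_abs_le x1], by linarith [le_abs_self x1]⟩
  have hub : ∀ y ∈ S, y ≤ Y := by
    intro y hy
    by_contra hcon
    push Not at hcon
    exact hYp (hord x1 hx1 y hy Y hx1Y.2.le hcon.le)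
  have hlb : ∀ y ∈ S, -Y ≤ y := by
    intro y hy
    by_contra hcon
    push Not at hcon
    exact hYn (hord y hy x1 hx1 (-Y) hcon.le hx1Y.1.le)
  have hne : S.Nonempty := ⟨x1, hx1⟩
  have hba : BddAbove S := ⟨Y, hub⟩
  have hbb : BddBelow S := ⟨-Y, hlb⟩
  have hin : ∀ x, x ∈ S ↔ sInf S < x ∧ x < sSup S := by
    intro x
    constructor
    · intro hx
      obtain ⟨δ, hδ, hδS⟩ := Metric.isOpen_iff.1 hopen x hx
      have h2 : x - δ / 2 ∈ S := hδS (by
        rw [Metric.mem_ball, Real.dist_eq]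
        rw [show x - δ / 2 - x = -(δ / 2) by ring, abs_neg, abs_of_pos (by positivity)]
        linarith)
      have h3 : x + δ / 2 ∈ S := hδS (by
        rw [Metric.mem_ball, Real.dist_eq]
        rw [show x + δ / 2 - x = δ / 2 by ring, abs_of_pos (by positivity)]
        linarith)
      have h4 := csInf_le hbb h2
      have h5 := le_csSup hba h3
      constructor <;> linarith
    · rintro ⟨h2, h3⟩
      obtain ⟨p, hp, hpx⟩ := exists_lt_of_csInf_lt hne h2
      obtain ⟨q, hq, hxq⟩ := exists_lt_of_lt_csSup hne h3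
      exact hord p hp q hq x hpx.le hxq.le
  have hx1' := (hin x1).1 hx1
  have hclS : closure S ⊆ {x | Ft F ε x ≤ m * x + c} := by
    refine closure_minimal (fun x hx => ((hmem x).1 hx).le) ?_
    exact isClosed_le hcont hlin
  refine ⟨sInf S, sSup S, hx1'.1.trans hx1'.2, fun x => (hmem x).symm.trans (hin x), ?_, ?_⟩
  · refine le_antisymm (hclS (csInf_mem_closure hne hbb)) ?_
    by_contra hcon
    push Not at hcon
    exact lt_irrefl _ ((hin _).1 ((hmem _).2 hcon)).1
  · refine le_antisymm (hclS (csSup_mem_closure hne hba)) ?_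
    by_contra hcon
    push Not at hcon
    exact lt_irrefl _ ((hin _).1 ((hmem _).2 hcon)).2

private theorem ev_ne (e : ℝ) : ∀ᶠ ε in 𝓝[>] (0 : ℝ), ε ≠ e := by
  by_cases h : e = 0
  · subst h
    filter_upwards [self_mem_nhdsWithin] with ε hε
    exact ne_of_gt hε
  · exact (eventually_ne_nhds (Ne.symm h)).filter_mono nhdsWithin_le_nhds

theorem eps_tie (F : ℝ → ℝ) (m c m' c' : ℝ) (hne : m ≠ m' ∨ c ≠ c') :
    ∀ᶠ ε in 𝓝[>] (0 : ℝ), ∀ x, ¬ (Ft F ε x = m * x + c ∧ Ft F ε x = m' * x + c') := by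
  by_cases hm : m = m'
  · have hc : c ≠ c' := by
      rcases hne with h | h
      · exact absurd hm h
      · exact h
    refine Eventually.of_forall fun ε x h => hc ?_
    have := h.1.symm.trans h.2
    rw [hm] at this
    linarith
  · have hm' : m - m' ≠ 0 := sub_ne_zero.2 hm
    obtain ⟨s, hs⟩ : ∃ s : ℝ, s = (c' - c) / (m - m') := ⟨_, rfl⟩
    filter_upwards [ev_ne ((m * s + c - F s) / (1 + s ^ 2))] with ε hε x h
    have h2 : x = s := by
      rw [hs, eq_div_iff hm']
      linarith [h.1.symm.trans h.2]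
    subst h2
    apply hε
    rw [eq_div_iff (by positivity)]
    have := h.1
    unfold Ft at this
    linarith

theorem eps_path (F : ℝ → ℝ) (hF : Continuous F) (h0 : ∀ x, 0 ≤ F x) (u y1 : ℝ) (hu : u ≠ 0) (hy : 0 < y1)
    (h : F (u / y1) < 1 / y1) :
    ∀ᶠ ε in 𝓝[>] (0 : ℝ), ∃ y, 0 < y ∧ y < y1 ∧ Ft F ε (u / y) = 1 / y := by
  filter_upwards [eps_pt F (u / y1) _ h, self_mem_nhdsWithin] with ε hε1 hε0
  have hε : 0 < ε := hε0
  have hu2 : 0 < u ^ 2 := by positivity
  obtain ⟨y0, hy0⟩ : ∃ y0 : ℝ, y0 = min (ε * u ^ 2) (y1 / 2) := ⟨_, rfl⟩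
  have hy0p : 0 < y0 := by rw [hy0]; positivity
  have hy01 : y0 < y1 := by
    rw [hy0]
    exact (min_le_right _ _).trans_lt (by linarith)
  have hy0u : y0 ≤ ε * u ^ 2 := by
    rw [hy0]
    exact min_le_left _ _
  have hcont : ContinuousOn (fun y : ℝ => 1 / y - Ft F ε (u / y)) (Set.Icc y0 y1) := by
    have h1 : ContinuousOn (fun y : ℝ => u / y) (Set.Icc y0 y1) :=
      continuousOn_const.div continuousOn_id fun y hy => (hy0p.trans_le hy.1).ne'
    have h2 : ContinuousOn (fun y : ℝ => 1 / y) (Set.Icc y0 y1) :=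
      continuousOn_const.div continuousOn_id fun y hy => (hy0p.trans_le hy.1).ne'
    unfold Ft
    exact h2.sub ((hF.comp_continuousOn h1).add
      (continuousOn_const.mul (continuousOn_const.add (h1.pow 2))))
  have hlo : 1 / y0 - Ft F ε (u / y0) ≤ 0 := by
    unfold Ft
    have h1 := h0 (u / y0)
    have h2 : 1 / y0 ≤ ε * (u / y0) ^ 2 := by
      rw [div_pow, ← mul_div_assoc, div_le_div_iff₀ hy0p (by positivity), one_mul, sq y0]
      nlinarith
    nlinarith
  have hhi : 0 < 1 / y1 - Ft F ε (u / y1) := by linarith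
  obtain ⟨y, hyI, hy2⟩ := intermediate_value_Icc hy01.le hcont ⟨hlo, hhi.le⟩
  have hy3 : 1 / y - Ft F ε (u / y) = 0 := hy2
  refine ⟨y, hy0p.trans_le hyI.1, lt_of_le_of_ne hyI.2 ?_, by linarith⟩
  rintro rfl
  linarith

end Pool.Agent.Work.MP_e64a38_co.IZ
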