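import Pool.Agent.Work.MP_e64a38_co.IZ.ExF
import Pool.Agent.Work.MP_e64a38_co.IZ.Eps

/-!
# IZ/Bdry (M): boundary points in the model

The claim: for small ε > 0 there is X such that for all i the sign of l i at T is the sign of
l i (x0) * (Ft F ε X - (sl i * X + ct i)).
Case j ≠ j0: X = u / y at T (hF5), F X = 1 / y, so by coord_model l i T = y * l i x0 * (F X - (sl i X + ct i)), which is not 0;
Ft F ε X → F X as ε → 0, so the sign is kept for small ε.
Case j = j0: y (T) = 0 and u (T) ≠ 0 (T ≠ x0, coord_inj). By coord l i T = al u + l i x0. For y > 0 let p y be the point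
with coordinates (u, y) (coord_surj). By coord, l i (p y) = al u + be y + l i x0 → l i T and h j (p y) → h j T < 0 (j ≠ j0) as
y → 0, h j0 (p y) = - y < 0. So there is y1 > 0 such that for all y in (0, y1]: l i (p y) has the sign of l i T and p y is in
inn h. In particular F (u / y1) < 1 / y1 (hF4). By eps_path for small ε there is y in (0, y1) with Ft F ε (u / y) = 1 / y.
X = u / y: by coord_model l i (p y) = y * l i x0 * (1 / y - (sl i X + ct i)) = y * l i x0 * (Ft F ε X - (sl i X + ct i)).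
-/

open Filter Topology

namespace Pool.Agent.Work.MP_e64a38_co.IZ

variable {n k : ℕ}

private theorem cont_pos (F : ℝ → ℝ) (X A B D : ℝ) (h : 0 < A * (B * (F X - D))) :
    ∀ᶠ ε in 𝓝[>] (0 : ℝ), 0 < A * (B * (Ft F ε X - D)) := by
  have hc : Continuous (fun ε : ℝ => A * (B * (Ft F ε X - D))) := by
    unfold Ft
    fun_prop
  have h0 : 0 < A * (B * (Ft F 0 X - D)) := by
    have : Ft F 0 X = F X := by unfold Ft; ring
    rw [this]; exact h
  exact (hc.continuousAt.eventually (lt_mem_nhds h0)).filter_mono nhdsWithin_le_nhds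

private theorem lin_pos (A B : ℝ) (h : A ≠ 0) : ∀ᶠ y in 𝓝[>] (0 : ℝ), 0 < A * (A + B * y) := by
  have hc : Continuous (fun y : ℝ => A * (A + B * y)) := by fun_prop
  have h0 : 0 < A * (A + B * 0) := by
    rw [mul_zero, add_zero]
    exact mul_self_pos.2 h
  exact (hc.continuousAt.eventually (lt_mem_nhds h0)).filter_mono nhdsWithin_le_nhds

theorem bdry (l : Fin n → Ln) (h : Fin k → Ln) (j0 : Fin k) (x0 : ℝ × ℝ) (hx0 : Rel h j0 x0)
    (hl0 : ∀ i, (l i).ev x0 ≠ 0) (F : ℝ → ℝ) (hF1 : Continuous F) (hF3 : ∀ x, 0 ≤ F x)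
    (hF4 : ∀ p, p ∈ inn h ↔ 0 < yv (h j0) p ∧ F (uv (h j0) x0 p / yv (h j0) p) < 1 / yv (h j0) p)
    (hF5 : ∀ j, j ≠ j0 → ∀ T, Rel h j T →
        0 < yv (h j0) T ∧ F (uv (h j0) x0 T / yv (h j0) T) = 1 / yv (h j0) T)
    (j : Fin k) (T : ℝ × ℝ) (hT : Rel h j T) (hTx : T ≠ x0) (hlT : ∀ i, (l i).ev T ≠ 0) :
    ∀ᶠ ε in 𝓝[>] (0 : ℝ), ∃ X : ℝ, ∀ i,
      0 < (l i).ev T * ((l i).ev x0 * (Ft F ε X - (sl (h j0) x0 (l i) * X + ct (h j0) x0 (l i)))) := by
  by_cases hj : j = j0
  · subst hj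
    have hy0 : yv (h j) T = 0 := by
      unfold yv; rw [hT.1, neg_zero]
    have hyx : yv (h j) x0 = 0 := by
      unfold yv; rw [hx0.1, neg_zero]
    have hux : uv (h j) x0 x0 = 0 := by
      unfold uv; ring
    obtain ⟨u, hu⟩ : ∃ u, u = uv (h j) x0 T := ⟨_, rfl⟩
    have hu0 : u ≠ 0 := by
      intro h0
      exact hTx (coord_inj (h j) x0 T x0 hx0.1 (by rw [← hu, h0, hux]) (by rw [hy0, hyx]))
    choose p hpu hpy using fun y : ℝ => coord_surj (h j) x0 hx0.1 u y
    have hlin : ∀ (l' : Ln) (y : ℝ), l'.ev (p y) = l'.ev T + be (h j) l' * y := by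
      intro l' y
      rw [coord (h j) l' x0 (p y) hx0.1, coord (h j) l' x0 T hx0.1, hpu, hpy, hy0, ← hu]
      ring
    have e1 : ∀ᶠ y in 𝓝[>] (0 : ℝ), ∀ i, 0 < (l i).ev T * (l i).ev (p y) := by
      rw [Filter.eventually_all]
      intro i
      refine (lin_pos ((l i).ev T) (be (h j) (l i)) (hlT i)).mono fun y hy => ?_
      rw [hlin]
      exact hy
    have e2 : ∀ᶠ y in 𝓝[>] (0 : ℝ), ∀ j', j' ≠ j → (h j').ev (p y) < 0 := by
      rw [Filter.eventually_all]
      intro j'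
      by_cases hjj : j' = j
      · exact Filter.Eventually.of_forall fun y hy => absurd hjj hy
      · refine (lin_pos ((h j').ev T) (be (h j) (h j')) (hT.2 j' hjj).ne).mono fun y hy _ => ?_
        rw [hlin]
        exact neg_of_mul_pos_right hy (hT.2 j' hjj).le
    obtain ⟨y1, hy1, hsub⟩ := mem_nhdsGT_iff_exists_Ioc_subset.1 (e1.and e2)
    have hy1' : (0 : ℝ) < y1 := hy1
    have hg : ∀ y, 0 < y → y ≤ y1 → (∀ i, 0 < (l i).ev T * (l i).ev (p y)) ∧
        ∀ j', j' ≠ j → (h j').ev (p y) < 0 := fun y h1 h2 => hsub ⟨h1, h2⟩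
    have hin : p y1 ∈ inn h := by
      intro j'
      by_cases hjj : j' = j
      · subst hjj
        have := hpy y1
        unfold yv at this
        linarith
      · exact (hg y1 hy1' le_rfl).2 j' hjj
    have hF : F (u / y1) < 1 / y1 := by
      have := ((hF4 (p y1)).1 hin).2
      rwa [hpu, hpy] at this
    refine (eps_path F hF1 hF3 u y1 hu0 hy1' hF).mono fun ε hε => ?_
    obtain ⟨y, hy, hyy, hFt⟩ := hε
    refine ⟨u / y, fun i => ?_⟩
    have h1 := (hg y hy hyy.le).1 i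
    have hyp : 0 < yv (h j) (p y) := by rw [hpy]; exact hy
    rw [coord_model (h j) (l i) x0 (p y) hx0.1 (hl0 i) hyp, hpu, hpy] at h1
    rw [hFt]
    have h2 : (l i).ev T * (y * (l i).ev x0 *
        (1 / y - (sl (h j) x0 (l i) * (u / y) + ct (h j) x0 (l i)))) =
        y * ((l i).ev T * ((l i).ev x0 *
          (1 / y - (sl (h j) x0 (l i) * (u / y) + ct (h j) x0 (l i))))) := by ring
    rw [h2] at h1
    exact pos_of_mul_pos_right h1 hy.le
  · obtain ⟨hy, hFT⟩ := hF5 j hj T hT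
    have key : ∀ᶠ ε in 𝓝[>] (0 : ℝ), ∀ i, 0 < (l i).ev T * ((l i).ev x0 *
        (Ft F ε (uv (h j0) x0 T / yv (h j0) T) -
          (sl (h j0) x0 (l i) * (uv (h j0) x0 T / yv (h j0) T) + ct (h j0) x0 (l i)))) := by
      rw [Filter.eventually_all]
      intro i
      apply cont_pos
      rw [hFT]
      have h1 := coord_model (h j0) (l i) x0 T hx0.1 (hl0 i) hy
      have h2 : 0 < (l i).ev T * (l i).ev T := mul_self_pos.2 (hlT i)
      obtain ⟨W, hW⟩ : ∃ W, W = 1 / yv (h j0) T -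
        (sl (h j0) x0 (l i) * (uv (h j0) x0 T / yv (h j0) T) + ct (h j0) x0 (l i)) := ⟨_, rfl⟩
      rw [← hW] at h1 ⊢
      have h3 : (l i).ev T * (l i).ev T = yv (h j0) T * ((l i).ev T * ((l i).ev x0 * W)) := by
        nth_rewrite 2 [h1]
        ring
      rw [h3] at h2
      exact pos_of_mul_pos_right h2 hy.le
    exact key.mono fun ε hε => ⟨_, hε⟩

end Pool.Agent.Work.MP_e64a38_co.IZ
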