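import Pool.Agent.Work.MP_e64a38_co.IZ.Defs

/-!
# IZ/BlkL (S): facts on blk

blk P x is the number of points of P that are < x.
-/

namespace Pool.Agent.Work.MP_e64a38_co.IZ

theorem blk_mono (P : Finset ℝ) {x y : ℝ} (h : x ≤ y) : blk P x ≤ blk P y := by
  unfold blk
  refine Finset.card_le_card ?_
  intro p hp
  simp only [Finset.mem_filter] at hp ⊢
  exact ⟨hp.1, lt_of_lt_of_le hp.2 h⟩

/-- If there is a point of P in [x, y) then blk P x < blk P y. -/
theorem blk_lt (P : Finset ℝ) {x y p : ℝ} (hp : p ∈ P) (h1 : x ≤ p) (h2 : p < y) : blk P x < blk P y := by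
  unfold blk
  refine Finset.card_lt_card ?_
  rw [Finset.ssubset_iff_of_subset (by
    intro q hq
    simp only [Finset.mem_filter] at hq ⊢
    exact ⟨hq.1, lt_trans (lt_of_lt_of_le hq.2 h1) h2⟩)]
  refine ⟨p, ?_, ?_⟩
  · simp only [Finset.mem_filter]
    exact ⟨hp, h2⟩
  · simp only [Finset.mem_filter, not_and, not_lt]
    exact fun _ => h1

/-- If blk P x < blk P y then there is a point of P in [x, y). -/
theorem exists_of_blk_lt (P : Finset ℝ) {x y : ℝ} (h : blk P x < blk P y) : ∃ p ∈ P, x ≤ p ∧ p < y := by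
  by_contra hcon
  push Not at hcon
  refine absurd h (not_lt.2 ?_)
  unfold blk
  refine Finset.card_le_card ?_
  intro p hp
  simp only [Finset.mem_filter] at hp ⊢
  refine ⟨hp.1, ?_⟩
  by_contra h1
  push Not at h1
  exact absurd hp.2 (not_lt.2 (hcon p hp.1 h1))

theorem blk_sub (P : Finset ℝ) {x y : ℝ} (h : x ≤ y) :
    blk P y = blk P x + (P.filter (fun p => x ≤ p ∧ p < y)).card := by
  unfold blk
  have hd : Disjoint (P.filter (fun p => p < x)) (P.filter (fun p => x ≤ p ∧ p < y)) := by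
    rw [Finset.disjoint_left]
    intro p hp hq
    simp only [Finset.mem_filter] at hp hq
    exact absurd hp.2 (not_lt.2 hq.2.1)
  rw [← Finset.card_union_of_disjoint hd]
  congr 1
  ext p
  simp only [Finset.mem_filter, Finset.mem_union]
  constructor
  · rintro ⟨h1, h2⟩
    rcases lt_or_ge p x with h3 | h3
    · exact Or.inl ⟨h1, h3⟩
    · exact Or.inr ⟨h1, h3, h2⟩
  · rintro (⟨h1, h2⟩ | ⟨h1, _, h2⟩)
    · exact ⟨h1, lt_of_lt_of_le h2 h⟩
    · exact ⟨h1, h2⟩

end Pool.Agent.Work.MP_e64a38_co.IZ
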