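import Mathlib

/-!
# IZ/Chain (S): counting incidences

Z is a finite set with a rank function t (injective on Z), I a relation. Suppose for every R in Z at most one i in A with
I R i has a later R' in Z (t R < t R') with I R' i. Then the number of pairs (R, i) with I R i is at most card Z + card A.
Proof: the pairs (R, i), R in Z, i in A, I R i, that have a later R' with I R' i: at most one for each R. The other pairs:
at most one for each i (two such pairs (R, i), (R', i), R ≠ R', say t R < t R', contradict that (R, i) has no later one).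
-/

namespace Pool.Agent.Work.MP_e64a38_co.IZ

open Classical in
theorem chain_count {α ι : Type*} (Z : Finset α) (A : Finset ι) (t : α → ℝ)
    (ht : ∀ R ∈ Z, ∀ R' ∈ Z, t R = t R' → R = R') (I : α → ι → Prop)
    (h : ∀ R ∈ Z, ∀ i ∈ A, ∀ k ∈ A, i ≠ k → I R i → I R k →
      (∃ R' ∈ Z, t R < t R' ∧ I R' i) → (∃ R' ∈ Z, t R < t R' ∧ I R' k) → False) :
    ∑ R ∈ Z, (A.filter (fun i => I R i)).card ≤ Z.card + A.card := by
  have h1 : ∀ R ∈ Z, (A.filter (fun i => I R i)).card
      = (A.filter (fun i => I R i ∧ ∃ R' ∈ Z, t R < t R' ∧ I R' i)).card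
        + (A.filter (fun i => I R i ∧ ¬ ∃ R' ∈ Z, t R < t R' ∧ I R' i)).card := by
    intro R _
    rw [← Finset.filter_filter, ← Finset.filter_filter]
    exact (Finset.card_filter_add_card_filter_not _).symm
  rw [Finset.sum_congr rfl h1, Finset.sum_add_distrib]
  refine Nat.add_le_add ?_ ?_
  · calc ∑ R ∈ Z, (A.filter (fun i => I R i ∧ ∃ R' ∈ Z, t R < t R' ∧ I R' i)).card
        ≤ ∑ _R ∈ Z, 1 := by
          refine Finset.sum_le_sum fun R hR => ?_
          refine Finset.card_le_one.mpr ?_
          intro i hi k hk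
          rw [Finset.mem_filter] at hi hk
          by_contra hne
          exact h R hR i hi.1 k hk.1 hne hi.2.1 hk.2.1 hi.2.2 hk.2.2
      _ = Z.card := by simp
  · calc ∑ R ∈ Z, (A.filter (fun i => I R i ∧ ¬ ∃ R' ∈ Z, t R < t R' ∧ I R' i)).card
        = ∑ R ∈ Z, ∑ i ∈ A, (if I R i ∧ ¬ ∃ R' ∈ Z, t R < t R' ∧ I R' i then 1 else 0) := by
          refine Finset.sum_congr rfl fun R _ => ?_
          rw [Finset.card_filter]
      _ = ∑ i ∈ A, ∑ R ∈ Z, (if I R i ∧ ¬ ∃ R' ∈ Z, t R < t R' ∧ I R' i then 1 else 0) :=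
          Finset.sum_comm
      _ = ∑ i ∈ A, (Z.filter (fun R => I R i ∧ ¬ ∃ R' ∈ Z, t R < t R' ∧ I R' i)).card := by
          refine Finset.sum_congr rfl fun i _ => ?_
          rw [Finset.card_filter]
      _ ≤ ∑ _i ∈ A, 1 := by
          refine Finset.sum_le_sum fun i _ => ?_
          refine Finset.card_le_one.mpr ?_
          intro R hR R' hR'
          rw [Finset.mem_filter] at hR hR'
          rcases lt_trichotomy (t R) (t R') with hlt | heq | hgt
          · exact absurd ⟨R', hR'.1, hlt, hR'.2.1⟩ hR.2.2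
          · exact ht R hR.1 R' hR'.1 heq
          · exact absurd ⟨R, hR.1, hgt, hR.2.1⟩ hR'.2.2
      _ = A.card := by simp

end Pool.Agent.Work.MP_e64a38_co.IZ
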