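import Pool.Agent.Work.MP_e64a38_co.IZ.Defs

/-!
# IZ/Cross (S-M): in the model two lines cross above F iff their intervals overlap

v i x = m i * x + c i. By mem: F x < v i x iff a i < x < b i, and F = v i at a i and b i.
(→) Say a i < a j < b i < b j. At x = a j: v i > F = v j; at x = b i: v j > F = v i. So v i - v j is positive at a j and
negative at b i: it vanishes at some x in (a j, b i), which lies in both intervals, so F x < v i x.
(←) Let v i x = v j x > F x, i ≠ j. Then x is in both intervals. If m i = m j then v i = v j everywhere, hence a i = a j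
(both are the left end of the set {F < v i}: e.g. from mem at a i: F (a i) = v i (a i) = v j (a i), so not a j < a i < b j,
... ), contradicting nea. If m i < m j then v i > v j left of x and v i < v j right of x: at a j < x: v i > v j = F so
a i < a j (< b i); at b i > x: v j > v i = F so b i < b j. If m i > m j, symmetric.
-/

namespace Pool.Agent.Work.MP_e64a38_co.IZ

variable {ι : Type*} {m c a b : ι → ℝ} {F : ℝ → ℝ}

private theorem zero_between {m c m' c' p q : ℝ} (hpq : p < q) (h1 : m' * p + c' < m * p + c)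
    (h2 : m * q + c < m' * q + c') : ∃ x, p < x ∧ x < q ∧ m * x + c = m' * x + c' := by
  have hD : 0 < m' - m := by
    by_contra hcon
    push Not at hcon
    nlinarith
  refine ⟨(c - c') / (m' - m), ?_, ?_, ?_⟩
  · rw [lt_div_iff₀ hD]
    linarith
  · rw [div_lt_iff₀ hD]
    linarith
  · field_simp
    ring

theorem cross (h : Mdl m c a b F) {i j : ι} (hij : i ≠ j) :
    Ov a b i j ↔ ∃ x, F x < m i * x + c i ∧ m i * x + c i = m j * x + c j := by
  constructor
  · rintro (⟨h1, h2, h3⟩ | ⟨h1, h2, h3⟩)
    · have e1 : F (a j) < m i * a j + c i := (h.mem i _).2 ⟨h1, h2⟩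
      have e2 : F (b i) < m j * b i + c j := (h.mem j _).2 ⟨h2, h3⟩
      rw [h.ea j] at e1
      rw [h.eb i] at e2
      obtain ⟨x, hx1, hx2, hx⟩ := zero_between h2 e1 e2
      exact ⟨x, (h.mem i x).2 ⟨h1.trans hx1, hx2⟩, hx⟩
    · have e1 : F (a i) < m j * a i + c j := (h.mem j _).2 ⟨h1, h2⟩
      have e2 : F (b j) < m i * b j + c i := (h.mem i _).2 ⟨h2, h3⟩
      rw [h.ea i] at e1
      rw [h.eb j] at e2
      obtain ⟨x, hx1, hx2, hx⟩ := zero_between h2 e1 e2
      exact ⟨x, (h.mem i x).2 ⟨hx1, hx2.trans h3⟩, hx.symm⟩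
  · rintro ⟨x, hx, he⟩
    have hi := (h.mem i x).1 hx
    have hj := (h.mem j x).1 (he ▸ hx)
    rcases lt_trichotomy (m i) (m j) with hm | hm | hm
    · left
      have e1 : F (a j) < m i * a j + c i := by
        rw [h.ea j]
        nlinarith [mul_pos (sub_pos.2 hm) (sub_pos.2 hj.1)]
      have e2 : F (b i) < m j * b i + c j := by
        rw [h.eb i]
        nlinarith [mul_pos (sub_pos.2 hm) (sub_pos.2 hi.2)]
      exact ⟨((h.mem i _).1 e1).1, ((h.mem i _).1 e1).2, ((h.mem j _).1 e2).2⟩
    · exfalso
      have hc : c i = c j := by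
        rw [hm] at he
        linarith
      have e1 : a i ≤ a j := by
        by_contra hcon
        push Not at hcon
        have h1 := (h.mem j (a i)).2 ⟨hcon, hi.1.trans hj.2⟩
        rw [h.ea i, hm, hc] at h1
        exact lt_irrefl _ h1
      have e2 : a j ≤ a i := by
        by_contra hcon
        push Not at hcon
        have h1 := (h.mem i (a j)).2 ⟨hcon, hj.1.trans hi.2⟩
        rw [h.ea j, hm, hc] at h1
        exact lt_irrefl _ h1
      exact h.nea i j hij (le_antisymm e1 e2)
    · right
      have e1 : F (a i) < m j * a i + c j := by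
        rw [h.ea i]
        nlinarith [mul_pos (sub_pos.2 hm) (sub_pos.2 hi.1)]
      have e2 : F (b j) < m i * b j + c i := by
        rw [h.eb j]
        nlinarith [mul_pos (sub_pos.2 hm) (sub_pos.2 hj.2)]
      exact ⟨((h.mem j _).1 e1).1, ((h.mem j _).1 e1).2, ((h.mem i _).1 e2).2⟩

end Pool.Agent.Work.MP_e64a38_co.IZ
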