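import Pool.Agent.Work.MP_e64a38_co.IZ.Defs

/-!
# IZ/ZonCard (S-M): the number of zone cells is at most 2 n + 1

Proof. For σ in zon choose a point x σ with Tr. Let E be the finite set of all end points a i, b i (at most 2 n elements)
and let N σ = the number of elements of E that are < x σ, so N σ ≤ 2 n. N is injective on zon: if N σ = N σ' and say
x σ ≤ x σ' then {e in E | e < x σ} ⊆ {e in E | e < x σ'} have the same cardinality, so they are equal, hence
a i < x σ ↔ a i < x σ' and x σ < b i ↔ ¬ (b i < x σ) (x σ ≠ b i) ↔ x σ' < b i, so σ = σ'. So zon injects into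
range (2 n + 1).
-/

namespace Pool.Agent.Work.MP_e64a38_co.IZ

variable {ι : Type*}

theorem zon_card [Fintype ι] (a b : ι → ℝ) : (zon a b).card ≤ 2 * Fintype.card ι + 1 := by
  classical
  have hex : ∀ σ : Finset ι, ∃ x : ℝ, σ ∈ zon a b → Tr a b Finset.univ σ x := by
    intro σ
    by_cases h : σ ∈ zon a b
    · have h1 := (Finset.mem_filter.1 h).2
      obtain ⟨x, hx⟩ := h1
      exact ⟨x, fun _ => hx⟩
    · exact ⟨0, fun h' => absurd h' h⟩
  choose x hx using hex
  obtain ⟨E, hE⟩ : ∃ E : Finset ℝ, E = Finset.univ.image a ∪ Finset.univ.image b := ⟨_, rfl⟩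
  have hEc : E.card ≤ 2 * Fintype.card ι := by
    rw [hE]
    refine (Finset.card_union_le _ _).trans ?_
    have h1 := Finset.card_image_le (s := (Finset.univ : Finset ι)) (f := a)
    have h2 := Finset.card_image_le (s := (Finset.univ : Finset ι)) (f := b)
    rw [Finset.card_univ] at h1 h2
    omega
  have haE : ∀ i, a i ∈ E := fun i => by
    rw [hE]
    exact Finset.mem_union_left _ (Finset.mem_image_of_mem _ (Finset.mem_univ _))
  have hbE : ∀ i, b i ∈ E := fun i => by
    rw [hE]
    exact Finset.mem_union_right _ (Finset.mem_image_of_mem _ (Finset.mem_univ _))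
  have key : ∀ σ ∈ zon a b, ∀ τ ∈ zon a b,
      (E.filter (fun e => e < x σ)).card = (E.filter (fun e => e < x τ)).card →
      x σ ≤ x τ → σ = τ := by
    intro σ hσ τ hτ hc hle
    have h1 : E.filter (fun e => e < x σ) = E.filter (fun e => e < x τ) := by
      refine Finset.eq_of_subset_of_card_le ?_ hc.ge
      intro e he
      rw [Finset.mem_filter] at he ⊢
      exact ⟨he.1, he.2.trans_le hle⟩
    have h2 : ∀ e ∈ E, e < x σ ↔ e < x τ := by
      intro e he
      have h3 := Finset.ext_iff.1 h1 e
      rw [Finset.mem_filter, Finset.mem_filter] at h3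
      constructor
      · intro h4
        exact (h3.1 ⟨he, h4⟩).2
      · intro h4
        exact (h3.2 ⟨he, h4⟩).2
    have hxσ := hx σ hσ
    have hxτ := hx τ hτ
    ext i
    rw [hxσ.2 i, hxτ.2 i]
    have n1 := (hxσ.1 i (Finset.mem_univ i)).2
    have n2 := (hxτ.1 i (Finset.mem_univ i)).2
    have e1 := h2 _ (haE i)
    have e2 := h2 _ (hbE i)
    constructor
    · rintro ⟨_, h3, h4⟩
      refine ⟨Finset.mem_univ _, e1.1 h3, lt_of_le_of_ne ?_ n2⟩
      by_contra hcon
      push Not at hcon
      exact absurd (e2.2 hcon) (not_lt.2 h4.le)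
    · rintro ⟨_, h3, h4⟩
      refine ⟨Finset.mem_univ _, e1.2 h3, lt_of_le_of_ne ?_ n1⟩
      by_contra hcon
      push Not at hcon
      exact absurd (e2.1 hcon) (not_lt.2 h4.le)
  have h := Finset.card_le_card_of_injOn (s := zon a b) (t := Finset.range (2 * Fintype.card ι + 1))
    (fun σ => (E.filter (fun e => e < x σ)).card) (fun σ _ => by
      rw [Finset.coe_range, Set.mem_Iio]
      exact Nat.lt_succ_of_le ((Finset.card_filter_le _ _).trans hEc))
    (fun σ hσ τ hτ h => by
      rcases le_total (x σ) (x τ) with h1 | h1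
      · exact key σ hσ τ hτ h h1
      · exact (key τ hτ σ hσ h.symm h1).symm)
  rwa [Finset.card_range] at h

end Pool.Agent.Work.MP_e64a38_co.IZ
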