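import Pool.Agent.Work.MP_e64a38_co.IZ.PinB
import Pool.Agent.Work.MP_e64a38_co.IZ.Cross
import Pool.Agent.Work.MP_e64a38_co.IZ.ZonCard

/-!
# IZ/Cls (M): a good class has a linear zone

Proof. Let A t = {i in A | g i = t} and T = A.image g. For R in Z and i in A t: Edg A R i implies Edg (A t) (R ∩ A t) i. For
fixed i in A t the map R ↦ R ∩ A t is injective on the R ⊆ A in Z with Edg A R i: for j in A outside A t, the lines i and
j do not cross above F (cross and the second part of Good), so the sign of v j - v i is constant (nonzero) on (a i, b i)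
(it does not vanish there, intermediate value), hence j ∈ R iff v j > v i on (a i, b i), independent of R; and R ⊆ A since
R is a trace. So
∑ R ∈ Z, nE A A R ≤ ∑ t ∈ T, ∑ R' ∈ Z.image (fun R => R ∩ A t), nE (A t) (A t) R'
(double counting: the pairs (R, i) inject into the triples (t, R', i)). For every t in T apply pin_bound to A t and the
set Z.image (R ↦ R ∩ A t): its elements are traces of points on A t. Its cardinality is at most 2 card (A t) + 1
(the proof of zon_card, or zon_card for the subtype A t; the number of traces on a set of n intervals is at most 2 n + 1: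
count the end points left of the point), so the sum for t is at most 4 (2 n_t + 1) + 8 n_t = 16 n_t + 4 ≤ 20 n_t
(n_t ≥ 1), and ∑ n_t = card A.
-/

namespace Pool.Agent.Work.MP_e64a38_co.IZ

variable {ι : Type*} {m c a b : ι → ℝ} {F : ℝ → ℝ}

private theorem cls_sg_inter [DecidableEq ι] {R B : Finset ι} {j : ι} (hj : j ∈ B) :
    sg (R ∩ B) j = sg R j := by
  unfold sg
  by_cases h : j ∈ R
  · rw [if_pos h, if_pos (Finset.mem_inter.2 ⟨h, hj⟩)]
  · rw [if_neg h, if_neg (fun h' => h (Finset.mem_inter.1 h').1)]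

/-- If i and j do not overlap, the side of j relative to i is the same for two witnesses. -/
private theorem cls_const (h : Mdl m c a b F) {i j : ι} (hij : i ≠ j) (hov : ¬ Ov a b i j) {x x' : ℝ}
    (hx : F x < m i * x + c i) (hx' : F x' < m i * x' + c i)
    (h1 : 0 < (m j * x + c j) - (m i * x + c i)) (h2 : (m j * x' + c j) - (m i * x' + c i) < 0) :
    False := by
  have ex := (h.mem i x).1 hx
  have ex' := (h.mem i x').1 hx'
  refine hov ((cross h hij).2 ?_)
  set A1 := m j - m i with hA1
  set B1 := c j - c i with hB1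
  have e1 : 0 < A1 * x + B1 := by rw [hA1, hB1]; nlinarith
  have e2 : A1 * x' + B1 < 0 := by rw [hA1, hB1]; nlinarith
  have hA0 : A1 ≠ 0 := by
    intro h0
    rw [h0] at e1 e2
    linarith
  have hs : A1 * (-B1 / A1) + B1 = 0 := by
    field_simp
    ring
  generalize -B1 / A1 = s at hs
  have hs' : m i * s + c i = m j * s + c j := by
    rw [hA1, hB1] at hs
    linarith
  refine ⟨s, (h.mem i s).2 ?_, hs'⟩
  rcases lt_or_gt_of_ne hA0 with hneg | hpos
  · have l1 : x < s := by
      by_contra hcon
      push Not at hcon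
      nlinarith
    have l2 : s < x' := by
      by_contra hcon
      push Not at hcon
      nlinarith
    exact ⟨ex.1.trans l1, l2.trans ex'.2⟩
  · have l1 : s < x := by
      by_contra hcon
      push Not at hcon
      nlinarith
    have l2 : x' < s := by
      by_contra hcon
      push Not at hcon
      nlinarith
    exact ⟨ex'.1.trans l2, l1.trans ex.2⟩

private theorem cls_side (h : Mdl m c a b F) {A R R' : Finset ι} {i j : ι} (hij : j ≠ i) (hjA : j ∈ A)
    (hov : ¬ Ov a b i j) (e : Edg m c F A R i) (e' : Edg m c F A R' i) (hjR : j ∈ R) : j ∈ R' := by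
  by_contra hjR'
  obtain ⟨x, hx, hx2⟩ := e
  obtain ⟨x', hx', hx2'⟩ := e'
  have e1 := hx2 j hjA hij
  have e2 := hx2' j hjA hij
  unfold sg at e1 e2
  rw [if_pos hjR] at e1
  rw [if_neg hjR'] at e2
  exact cls_const h hij.symm hov hx hx' (by linarith) (by linarith)

theorem cls_bound (h : Mdl m c a b F) (A : Finset ι) (g : ι → ℕ) (p : ℕ → ℝ) (hg : Good a b A g p)
    (Z : Finset (Finset ι)) (hZ : ∀ R ∈ Z, ∃ x, Tr a b A R x) :
    ∑ R ∈ Z, nE m c F A A R ≤ 20 * A.card := by
  classical
  set At : ℕ → Finset ι := fun t => A.filter (fun i => g i = t) with hAt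
  have memAt : ∀ t i, i ∈ At t ↔ i ∈ A ∧ g i = t := fun t i => by simp [hAt]
  set Zt : ℕ → Finset (Finset ι) := fun t => Z.image (fun R => R ∩ At t) with hZt
  have trsub : ∀ t, ∀ R' ∈ Zt t, ∃ x, Tr a b (At t) R' x := by
    intro t R' hR'
    obtain ⟨R, hR, rfl⟩ := Finset.mem_image.1 hR'
    obtain ⟨x, hx⟩ := hZ R hR
    refine ⟨x, fun i hi => hx.1 i ((memAt t i).1 hi).1, fun i => ?_⟩
    rw [Finset.mem_inter, hx.2 i]
    have := memAt t i
    tauto
  have cardZt : ∀ t, (Zt t).card ≤ 2 * (At t).card + 1 := by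
    intro t
    have h1 := zon_card (ι := {i // i ∈ At t}) (fun i => a i) (fun i => b i)
    rw [Fintype.card_coe] at h1
    refine le_trans ?_ h1
    refine Finset.card_le_card_of_injOn (fun R' => R'.subtype (fun i => i ∈ At t)) ?_ ?_
    · intro R' hR'
      obtain ⟨x, hx⟩ := trsub t R' hR'
      unfold zon
      rw [Finset.mem_coe, Finset.mem_filter]
      refine ⟨Finset.mem_univ _, x, fun i _ => hx.1 i i.2, fun i => ?_⟩
      rw [Finset.mem_subtype, hx.2 i]
      exact ⟨fun h' => ⟨Finset.mem_univ _, h'.2⟩, fun h' => ⟨i.2, h'.2⟩⟩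
    · intro R1 hR1 R2 hR2 he
      obtain ⟨x1, hx1⟩ := trsub t R1 hR1
      obtain ⟨x2, hx2⟩ := trsub t R2 hR2
      have he' : R1.subtype (fun i => i ∈ At t) = R2.subtype (fun i => i ∈ At t) := he
      ext i
      constructor
      · intro hi
        have hiA := ((hx1.2 i).1 hi).1
        have : (⟨i, hiA⟩ : {i // i ∈ At t}) ∈ R1.subtype (fun i => i ∈ At t) := by
          rw [Finset.mem_subtype]; exact hi
        rw [he', Finset.mem_subtype] at this
        exact this
      · intro hi
        have hiA := ((hx2.2 i).1 hi).1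
        have : (⟨i, hiA⟩ : {i // i ∈ At t}) ∈ R2.subtype (fun i => i ∈ At t) := by
          rw [Finset.mem_subtype]; exact hi
        rw [← he', Finset.mem_subtype] at this
        exact this
  have key : ∀ i ∈ A, (Z.filter (fun R => Edg m c F A R i)).card ≤
      ((Zt (g i)).filter (fun R' => Edg m c F (At (g i)) R' i)).card := by
    intro i hi
    refine Finset.card_le_card_of_injOn (fun R => R ∩ At (g i)) ?_ ?_
    · intro R hR
      rw [Finset.mem_coe, Finset.mem_filter] at hR
      rw [Finset.mem_coe, Finset.mem_filter]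
      refine ⟨Finset.mem_image_of_mem _ hR.1, ?_⟩
      obtain ⟨x, hx, hx2⟩ := hR.2
      refine ⟨x, hx, fun j hj hji => ?_⟩
      rw [cls_sg_inter hj]
      exact hx2 j ((memAt _ j).1 hj).1 hji
    · intro R hR R' hR' he
      rw [Finset.mem_coe, Finset.mem_filter] at hR hR'
      have he' : R ∩ At (g i) = R' ∩ At (g i) := he
      obtain ⟨x, hx⟩ := hZ R hR.1
      obtain ⟨x', hx'⟩ := hZ R' hR'.1
      have main : ∀ S S' : Finset ι, S ∩ At (g i) = S' ∩ At (g i) → Edg m c F A S i →
          Edg m c F A S' i → (∀ j ∈ S, j ∈ A) → S ⊆ S' := by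
        intro S S' hSS hS hS' hSA j hj
        have hjA := hSA j hj
        by_cases hgj : g j = g i
        · have : j ∈ S ∩ At (g i) := Finset.mem_inter.2 ⟨hj, (memAt _ _).2 ⟨hjA, hgj⟩⟩
          rw [hSS] at this
          exact (Finset.mem_inter.1 this).1
        · have hji : j ≠ i := fun h0 => hgj (by rw [h0])
          exact cls_side h hji hjA (hg.2 i hi j hjA (fun h0 => hgj h0.symm)) hS hS' hj
      exact Finset.Subset.antisymm
        (main R R' he' hR.2 hR'.2 (fun j hj => ((hx.2 j).1 hj).1))
        (main R' R he'.symm hR'.2 hR.2 (fun j hj => ((hx'.2 j).1 hj).1))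
  have e1 : ∑ R ∈ Z, nE m c F A A R = ∑ i ∈ A, (Z.filter (fun R => Edg m c F A R i)).card := by
    unfold nE
    simp only [Finset.card_filter]
    exact Finset.sum_comm
  have e2 : ∑ i ∈ A, ((Zt (g i)).filter (fun R' => Edg m c F (At (g i)) R' i)).card =
      ∑ t ∈ A.image g, ∑ R' ∈ Zt t, nE m c F (At t) (At t) R' := by
    rw [← Finset.sum_fiberwise_of_maps_to (g := g) (t := A.image g)
      (fun i hi => Finset.mem_image_of_mem g hi)]
    refine Finset.sum_congr rfl fun t _ => ?_
    unfold nE
    simp only [Finset.card_filter]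
    rw [Finset.sum_comm]
    refine Finset.sum_congr rfl fun i hi => ?_
    rw [(Finset.mem_filter.1 hi).2]
  have e3 : ∀ t ∈ A.image g, ∑ R' ∈ Zt t, nE m c F (At t) (At t) R' ≤ 20 * (At t).card := by
    intro t ht
    have h1 := pin_bound h (At t) (p t) (fun i hi => by
      obtain ⟨hiA, hgi⟩ := (memAt t i).1 hi
      have := hg.1 i hiA
      rwa [hgi] at this) (Zt t) (trsub t)
    have h2 := cardZt t
    have h3 : 0 < (At t).card := by
      obtain ⟨i, hi, rfl⟩ := Finset.mem_image.1 ht
      exact Finset.card_pos.2 ⟨i, (memAt _ _).2 ⟨hi, rfl⟩⟩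
    omega
  calc ∑ R ∈ Z, nE m c F A A R = ∑ i ∈ A, (Z.filter (fun R => Edg m c F A R i)).card := e1
    _ ≤ ∑ i ∈ A, ((Zt (g i)).filter (fun R' => Edg m c F (At (g i)) R' i)).card :=
        Finset.sum_le_sum key
    _ = ∑ t ∈ A.image g, ∑ R' ∈ Zt t, nE m c F (At t) (At t) R' := e2
    _ ≤ ∑ t ∈ A.image g, 20 * (At t).card := Finset.sum_le_sum e3
    _ = 20 * A.card := by
        rw [← Finset.mul_sum, Finset.card_eq_sum_card_image g A]

end Pool.Agent.Work.MP_e64a38_co.IZ
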