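import Mathlib

/-!
# IZ/Out3 (S-M): the vertices of a family of non crossing arcs can be coloured with 3 colours

Proof. Claim: for all d and all u < v with v - u ≤ d and all colours s ≠ t there is φ : ℕ → Fin 3 with φ u = s,
φ v = t and φ e.1 ≠ φ e.2 for all e in E with u ≤ e.1 and e.2 ≤ v. Induction on d. If v = u + 1 the only possible arc
is (u, v). Otherwise let w be the largest number with u < w < v and (u, w) in E, if there is one, else w = u + 1.
Then no arc (x, y) in E with u ≤ x, y ≤ v, other than (u, v), has x < w < y: if x = u this contradicts the choice of w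
(y < v, (u, y) in E, y > w); if x > u then (u, w) is in E (else there is no x with u < x < w = u + 1) and
u < x < w < y is a crossing. Let q be the third colour, apply the induction hypothesis to (u, w) with colours s, q and
to (w, v) with colours q, t, and glue at w. Finally use the claim for u = 0, v = N + 1.
-/

namespace Pool.Agent.Work.MP_e64a38_co.IZ

private theorem third (s t : Fin 3) : ∃ q : Fin 3, s ≠ q ∧ q ≠ t := by
  revert s t
  decide

private theorem out3_aux (E : Set (ℕ × ℕ)) (hE : ∀ e ∈ E, e.1 < e.2)
    (hc : ∀ e ∈ E, ∀ f ∈ E, ¬ (e.1 < f.1 ∧ f.1 < e.2 ∧ e.2 < f.2)) :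
    ∀ d u v : ℕ, u < v → v - u ≤ d → ∀ s t : Fin 3, s ≠ t →
      ∃ φ : ℕ → Fin 3, φ u = s ∧ φ v = t ∧ ∀ e ∈ E, u ≤ e.1 → e.2 ≤ v → φ e.1 ≠ φ e.2 := by
  classical
  intro d
  induction d with
  | zero => intro u v huv hd; omega
  | succ d ih =>
    intro u v huv hd s t hst
    by_cases h1 : v = u + 1
    · subst h1
      refine ⟨fun x => if x = u then s else t, by simp, by simp, ?_⟩
      intro e he h1 h2
      have h3 := hE e he
      have h4 : e.1 = u := by omega
      have h5 : e.2 = u + 1 := by omega
      simp only [h4, h5, if_true]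
      rw [if_neg (by omega)]
      exact hst
    · -- choose w
      have hw : ∃ w, u < w ∧ w < v ∧ ∀ e ∈ E, u ≤ e.1 → e.2 ≤ v → e.1 < w → w < e.2 → e.1 = u ∧ e.2 = v := by
        let W := (Finset.Ioo u v).filter (fun w => (u, w) ∈ E)
        by_cases hW : W.Nonempty
        · refine ⟨W.max' hW, ?_⟩
          have hm := W.max'_mem hW
          have hm2 := Finset.mem_filter.mp hm
          have hm3 := Finset.mem_Ioo.mp hm2.1
          refine ⟨hm3.1, hm3.2, ?_⟩
          intro e he h2 h3 h4 h5
          have h6 := hE e he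
          rcases Nat.eq_or_lt_of_le h2 with h7 | h7
          · refine ⟨h7.symm, ?_⟩
            by_contra h8
            have h9 : e.2 ∈ W := by
              refine Finset.mem_filter.mpr ⟨Finset.mem_Ioo.mpr ⟨by omega, by omega⟩, ?_⟩
              rw [h7]; exact he
            have := W.le_max' _ h9
            omega
          · exact absurd ⟨h7, h4, h5⟩ (hc _ hm2.2 e he)
        · refine ⟨u + 1, by omega, by omega, ?_⟩
          intro e he h2 h3 h4 h5
          have h7 : e.1 = u := by omega
          refine ⟨h7, ?_⟩
          by_contra h8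
          apply hW
          refine ⟨e.2, Finset.mem_filter.mpr ⟨Finset.mem_Ioo.mpr ⟨by omega, by omega⟩, ?_⟩⟩
          rw [← h7]; exact he
      obtain ⟨w, hw1, hw2, hw3⟩ := hw
      obtain ⟨q, hq1, hq2⟩ := third s t
      obtain ⟨f, hf1, hf2, hf3⟩ := ih u w hw1 (by omega) s q hq1
      obtain ⟨g, hg1, hg2, hg3⟩ := ih w v hw2 (by omega) q t hq2
      refine ⟨fun x => if x ≤ w then f x else g x, ?_, ?_, ?_⟩
      · simp only [hw1.le, if_true]; exact hf1
      · have : ¬ v ≤ w := by omega
        simp only [this, if_false]; exact hg2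
      · intro e he h2 h3
        have h6 := hE e he
        by_cases h4 : e.2 ≤ w
        · have h5 : e.1 ≤ w := by omega
          simp only [h4, h5, if_true]
          exact hf3 e he h2 h4
        · by_cases h5 : w ≤ e.1
          · rcases Nat.eq_or_lt_of_le h5 with h7 | h7
            · have h8 := hg3 e he h5 h3
              have h9 : e.1 ≤ w := by omega
              simp only [h4, h9, if_true, if_false]
              rw [← h7, hf2, ← hg1]
              rw [← h7] at h8
              exact h8
            · have h9 : ¬ e.1 ≤ w := by omega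
              simp only [h4, h9, if_false]
              exact hg3 e he h5 h3
          · obtain ⟨ha, hb⟩ := hw3 e he h2 h3 (by omega) (by omega)
            have h9 : e.1 ≤ w := by omega
            simp only [h4, h9, if_true, if_false]
            rw [ha, hb, hf1, hg2]
            exact hst

theorem out3 (E : Set (ℕ × ℕ)) (N : ℕ) (hE : ∀ e ∈ E, e.1 < e.2 ∧ e.2 ≤ N)
    (hc : ∀ e ∈ E, ∀ f ∈ E, ¬ (e.1 < f.1 ∧ f.1 < e.2 ∧ e.2 < f.2)) :
    ∃ φ : ℕ → Fin 3, ∀ e ∈ E, φ e.1 ≠ φ e.2 := by
  obtain ⟨φ, -, -, h⟩ := out3_aux E (fun e he => (hE e he).1) hc (N + 1) 0 (N + 1) (by omega) (by omega) 0 1 (by decide)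
  exact ⟨φ, fun e he => h e he (Nat.zero_le _) (by have := (hE e he).2; omega)⟩

end Pool.Agent.Work.MP_e64a38_co.IZ
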