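import Pool.Agent.Work.MP_e64a38_co.IZ.Defs

/-!
# IZ/Prod (S): colourings with values in any finite type, and colourings glued from parts

colb_of: compose f with an equivalence κ ≃ Fin N. colb_part: for every value t of g choose a colouring f t of the
part {i in S | g i = t} and put f i = f (g i) i.
-/

namespace Pool.Agent.Work.MP_e64a38_co.IZ

variable {ι : Type*}

theorem colb_of {κ : Type*} [Fintype κ] (a b : ι → ℝ) (S : Finset ι) (N : ℕ) (hN : Fintype.card κ = N) (f : ι → κ)
    (hf : ∀ i ∈ S, ∀ j ∈ S, Ov a b i j → f i ≠ f j) : Colb a b S N := by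
  refine ⟨fun i => (Fintype.equivFinOfCardEq hN) (f i), ?_⟩
  intro i hi j hj h e
  exact hf i hi j hj h ((Fintype.equivFinOfCardEq hN).injective e)

open Classical in
/-- If every part {i in S | g i = t} is colourable with N colours, there is one function f with values in Fin N such
that overlapping i, j of the same part have different colours. -/
theorem colb_part (a b : ι → ℝ) (S : Finset ι) (N : ℕ) {τ : Type*} (g : ι → τ)
    (h : ∀ t, Colb a b (S.filter (fun i => g i = t)) N) :
    ∃ f : ι → Fin N, ∀ i ∈ S, ∀ j ∈ S, g i = g j → Ov a b i j → f i ≠ f j := by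
  choose f hf using h
  refine ⟨fun i => f (g i) i, ?_⟩
  intro i hi j hj hg ho
  have h1 := hf (g i) i (Finset.mem_filter.mpr ⟨hi, rfl⟩) j (Finset.mem_filter.mpr ⟨hj, hg.symm⟩) ho
  show f (g i) i ≠ f (g j) j
  rw [← hg]
  exact h1

theorem colb_mono (a b : ι → ℝ) (S : Finset ι) {N M : ℕ} (h : Colb a b S N) (hNM : N ≤ M) : Colb a b S M := by
  obtain ⟨f, hf⟩ := h
  refine ⟨fun i => Fin.castLE hNM (f i), ?_⟩
  intro i hi j hj ho e
  exact hf i hi j hj ho (Fin.castLE_injective hNM e)

end Pool.Agent.Work.MP_e64a38_co.IZ
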