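import Pool.Agent.Work.MP_e64a38_co.IZ.Deep
import Pool.Agent.Work.MP_e64a38_co.IZ.Out3
import Pool.Agent.Work.MP_e64a38_co.IZ.Prod

/-!
# IZ/Pin (S-M): a pinned family can be coloured with 3 N colours

Proof. By IH, dgen and dnocl there is f : ι → Fin N such that i, j in S with overlapping deepened intervals have
different colours. For each colour s let E s be the set of pairs (blk P (a i), blk P (b i)) with i in S, f i = s.
E s satisfies the hypotheses of out3 (bound P.card, blk (a i) < blk (b i) by Pinned and blk_lt): if i, j in S have colour s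
and blk (a i) < blk (a j) < blk (b i) < blk (b j) then a i < a j < b i < b j (blk_mono), the deepened intervals do not
overlap since f i = f j, so blk (a j) = blk (b i) by dshallow, a contradiction. Let φ s : ℕ → Fin 3 be from out3 and
colour i with (φ (f i) (blk P (a i)), f i) in Fin 3 × Fin N (colb_of). If i, j in S overlap, say a i < a j < b i < b j
(the other case is symmetric), and f i = f j = s, then blk (a j) = blk (b i) by dshallow, and
φ s (blk (a i)) ≠ φ s (blk (b i)) = φ s (blk (a j)).
-/

namespace Pool.Agent.Work.MP_e64a38_co.IZ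

variable {ι : Type*}

theorem pin (r N : ℕ) (hr : 1 ≤ r)
    (IH : ∀ (a b : ι → ℝ) (S : Finset ι), Gen a b S → NoCl a b S r → Colb a b S N)
    (a b : ι → ℝ) (S : Finset ι) (P : Finset ℝ) (hG : Gen a b S) (hP : Pinned a b S P r) :
    Colb a b S (3 * N) := by
  obtain ⟨f, hf⟩ := IH (dl P a) (dr P b) S (dgen a b S P r hG hP) (dnocl a b S P r hr hG hP)
  have key : ∀ x y : ℝ, blk P x < blk P y → x < y := by
    intro x y hxy
    by_contra hc
    push Not at hc
    exact absurd hxy (not_lt.2 (blk_mono P hc))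
  have hout : ∀ s : Fin N, ∃ φ : ℕ → Fin 3, ∀ e ∈ {e : ℕ × ℕ | ∃ i ∈ S, f i = s ∧ e = (blk P (a i), blk P (b i))},
      φ e.1 ≠ φ e.2 := by
    intro s
    refine out3 _ P.card ?_ ?_
    · rintro e ⟨i, hi, hfi, rfl⟩
      obtain ⟨p, hp, h1, h2⟩ := hP.1 i hi
      refine ⟨blk_lt P hp h1.le h2, ?_⟩
      unfold blk
      exact Finset.card_filter_le _ _
    · rintro e ⟨i, hi, hfi, rfl⟩ e' ⟨j, hj, hfj, rfl⟩ ⟨h1, h2, h3⟩
      have hno : ¬ Ov (dl P a) (dr P b) i j := by
        intro hov
        exact hf i hi j hj hov (hfi.trans hfj.symm)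
      have := dshallow a b P (key _ _ h1) (key _ _ h2) (key _ _ h3) hno
      simp only at h2
      omega
  choose φ hφ using hout
  refine colb_of a b S (3 * N) (κ := Fin 3 × Fin N) (by simp) (fun i => (φ (f i) (blk P (a i)), f i)) ?_
  have main : ∀ i ∈ S, ∀ j ∈ S, a i < a j → a j < b i → b i < b j →
      (φ (f i) (blk P (a i)), f i) ≠ (φ (f j) (blk P (a j)), f j) := by
    intro i hi j hj h1 h2 h3 h
    have hfe : f i = f j := congrArg Prod.snd h
    have hc : φ (f i) (blk P (a i)) = φ (f j) (blk P (a j)) := congrArg Prod.fst h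
    have hno : ¬ Ov (dl P a) (dr P b) i j := fun hov => hf i hi j hj hov hfe
    have hs := dshallow a b P h1 h2 h3 hno
    have := hφ (f i) (blk P (a i), blk P (b i)) ⟨i, hi, rfl, rfl⟩
    refine this ?_
    simp only
    rw [hc, ← hfe, hs]
  intro i hi j hj hov
  rcases hov with ⟨h1, h2, h3⟩ | ⟨h1, h2, h3⟩
  · exact main i hi j hj h1 h2 h3
  · exact (main j hj i hi h1 h2 h3).symm

end Pool.Agent.Work.MP_e64a38_co.IZ
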