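import Pool.Agent.Work.MP_e64a38_co.IZ.Lay
import Pool.Agent.Work.MP_e64a38_co.IZ.Pin

/-!
# IZ/Col: overlap graphs are chi bounded
-/

namespace Pool.Agent.Work.MP_e64a38_co.IZ

variable {ι : Type*}

/-- A family of intervals without r + 1 pairwise overlapping members can be coloured with 6 ^ r colours. -/
theorem col (r : ℕ) : ∀ (a b : ι → ℝ) (S : Finset ι), Gen a b S → NoCl a b S (r + 1) → Colb a b S (6 ^ r) := by
  induction r with
  | zero =>
    intro a b S hG hN
    have hS : S = ∅ := by
      by_contra h
      obtain ⟨i, hi⟩ := Finset.nonempty_iff_ne_empty.mpr h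
      have := hN {i} (by simpa using hi) (by
        intro x hx y hy hxy
        rw [Finset.mem_singleton] at hx hy
        exact absurd (hx.trans hy.symm) hxy)
      simp at this
    subst hS
    exact ⟨fun _ => ⟨0, by simp⟩, by simp⟩
  | succ r IH =>
    intro a b S hG hN
    have h6 : 0 < 6 ^ r := by positivity
    have h := lay (r + 1) (3 * 6 ^ r) (by omega) a b
      (fun S P hG hP => pin (r + 1) (6 ^ r) (by omega) IH a b S P hG hP) S hG hN
    have e : 2 * (3 * 6 ^ r) = 6 ^ (r + 1) := by ring
    rwa [e] at h

end Pool.Agent.Work.MP_e64a38_co.IZ
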