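import Pool.Agent.Work.MP_e64a38_co.IZ.LnL

/-!
# IZ/Ends (S-M): the end points of a chord

Proof. Let z0 in inn h on the line l, v = (-l.b, l.a) ≠ 0 its direction; every point of l is z0 + t v. The set
{t ≥ 0 | z0 + t v in poly h} is closed, convex, bounded (IsPolygon.bounded), contains 0; let t1 be its maximum,
e1 = z0 + t1 v in poly h. Some h j e1 = 0, otherwise all h j e1 < 0 and a slightly larger t is possible; t1 > 0 since
z0 is in inn h. In the same way e2 = z0 - t2 v, t2 > 0. A point z of inn h on l is z0 + t v with -t2 ≤ t ≤ t1 (maximality;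
poly ⊇ inn), and t ≠ t1, -t2 since e1, e2 are not in inn h.
-/

namespace Pool.Agent.Work.MP_e64a38_co.IZ

variable {k : ℕ}

private theorem ev_neg_near (h : Fin k → Ln) (z v : ℝ × ℝ) (hz : z ∈ inn h) :
    ∀ᶠ e in nhds (0 : ℝ), z + e • v ∈ inn h := by
  have : ∀ᶠ e in nhds (0 : ℝ), ∀ j, (h j).ev (z + e • v) < 0 := by
    rw [Filter.eventually_all]
    intro j
    have hc : Continuous (fun e : ℝ => (h j).ev (z + e • v)) := (continuous_ev (h j)).comp (by fun_prop)
    exact (hc.continuousAt (x := 0)).eventually_lt continuousAt_const (by simpa using hz j)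
  exact this

private theorem ray_end (h : Fin k → Ln) (hP : IsPolygon h) (z v : ℝ × ℝ) (hz : z ∈ inn h) (hv : v ≠ 0) :
    ∃ t1 : ℝ, 0 < t1 ∧ z + t1 • v ∈ bd h ∧ ∀ t, z + t • v ∈ inn h → t < t1 := by
  set S : Set ℝ := {t | 0 ≤ t ∧ z + t • v ∈ poly h} with hS
  have hcl : IsClosed S := by
    have h1 : IsClosed {t : ℝ | 0 ≤ t} := isClosed_le continuous_const continuous_id
    have h2 : IsClosed {t : ℝ | z + t • v ∈ poly h} := by
      have : {t : ℝ | z + t • v ∈ poly h} = ⋂ j, {t : ℝ | (h j).ev (z + t • v) ≤ 0} := by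
        ext t; simp [poly]
      rw [this]
      exact isClosed_iInter (fun j =>
        isClosed_le ((continuous_ev (h j)).comp (by fun_prop)) continuous_const)
    exact h1.inter h2
  have hv0 : 0 < ‖v‖ := norm_pos_iff.mpr hv
  obtain ⟨C, hC⟩ := isBounded_iff_forall_norm_le.mp hP.bounded
  have hub : ∀ t ∈ S, t ≤ (C + ‖z‖) / ‖v‖ := by
    intro t ht
    rw [le_div_iff₀ hv0]
    have h1 := hC _ ht.2
    have h2 : ‖t • v‖ ≤ ‖z + t • v‖ + ‖z‖ := by
      have : t • v = (z + t • v) - z := by abel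
      calc ‖t • v‖ = ‖(z + t • v) - z‖ := by rw [← this]
        _ ≤ ‖z + t • v‖ + ‖z‖ := norm_sub_le _ _
    rw [norm_smul, Real.norm_of_nonneg ht.1] at h2
    linarith
  have hbdd : BddAbove S := ⟨_, hub⟩
  have h0 : (0 : ℝ) ∈ S := by
    refine ⟨le_refl _, ?_⟩
    intro j
    simpa using (hz j).le
  have hmem : sSup S ∈ S := hcl.csSup_mem ⟨0, h0⟩ hbdd
  -- a point of S which is strictly inside can be increased
  have hinc : ∀ t ∈ S, z + t • v ∈ inn h → ∃ t' ∈ S, t < t' := by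
    intro t ht hti
    have h1 := (ev_neg_near h (z + t • v) v hti).filter_mono
      (nhdsWithin_le_nhds : nhdsWithin (0 : ℝ) (Set.Ioi 0) ≤ nhds 0)
    have h2 : ∀ᶠ e in nhdsWithin (0 : ℝ) (Set.Ioi 0), 0 < e := eventually_mem_nhdsWithin
    obtain ⟨e, he1, he2⟩ := (h1.and h2).exists
    refine ⟨t + e, ⟨by linarith [ht.1], ?_⟩, by linarith⟩
    intro j
    have h3 := he1 j
    have h4 : z + (t + e) • v = z + t • v + e • v := by rw [add_smul]; abel
    rw [h4]; exact h3.le
  have hnot : z + sSup S • v ∉ inn h := by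
    intro hin
    obtain ⟨t', ht', hlt⟩ := hinc _ hmem hin
    exact absurd (le_csSup hbdd ht') (not_le.mpr hlt)
  have hpos : 0 < sSup S := by
    obtain ⟨t', ht', hlt⟩ := hinc 0 h0 (by simpa using hz)
    exact lt_of_lt_of_le hlt (le_csSup hbdd ht')
  refine ⟨sSup S, hpos, ⟨hmem.2, ?_⟩, ?_⟩
  · by_contra hno
    push Not at hno
    exact hnot (fun j => lt_of_le_of_ne (hmem.2 j) (hno j))
  · intro t ht
    by_cases ht0 : 0 ≤ t
    · have hts : t ∈ S := ⟨ht0, fun j => (ht j).le⟩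
      refine lt_of_le_of_ne (le_csSup hbdd hts) ?_
      intro he
      rw [he] at ht
      exact hnot ht
    · push Not at ht0
      linarith

theorem chord_ends (h : Fin k → Ln) (hP : IsPolygon h) (l : Ln) (hm : (l.pts ∩ inn h).Nonempty) :
    ∃ e1 e2 : ℝ × ℝ, e1 ∈ bd h ∧ e2 ∈ bd h ∧ l.ev e1 = 0 ∧ l.ev e2 = 0 ∧
      ∀ z ∈ inn h, l.ev z = 0 → ∃ t : ℝ, 0 < t ∧ t < 1 ∧ z = e1 + t • (e2 - e1) := by
  obtain ⟨z0, hz0, hz0i⟩ := hm
  have hz0' : l.ev z0 = 0 := hz0
  set v : ℝ × ℝ := (-l.b, l.a) with hv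
  have hv0 : v ≠ 0 := by
    intro h0
    have h1 : -l.b = 0 := congrArg Prod.fst h0
    have h2 : l.a = 0 := congrArg Prod.snd h0
    rcases l.h with h3 | h3
    · exact h3 h2
    · exact h3 (by linarith)
  have hnv : (-v) ≠ 0 := neg_ne_zero.mpr hv0
  obtain ⟨t1, ht1, hb1, hm1⟩ := ray_end h hP z0 v hz0i hv0
  obtain ⟨t2, ht2, hb2, hm2⟩ := ray_end h hP z0 (-v) hz0i hnv
  have hev : ∀ t : ℝ, l.ev (z0 + t • v) = 0 := by
    intro t
    simp only [Ln.ev, hv, Prod.fst_add, Prod.snd_add, Prod.smul_fst, Prod.smul_snd, smul_eq_mul] at hz0' ⊢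
    linarith
  refine ⟨z0 + t1 • v, z0 + t2 • (-v), hb1, hb2, hev t1, ?_, ?_⟩
  · have : t2 • (-v) = (-t2) • v := by rw [smul_neg, neg_smul]
    rw [this]; exact hev _
  · intro z hz hzl
    have hD : 0 < l.a ^ 2 + l.b ^ 2 := by
      rcases l.h with h3 | h3
      · have := sq_pos_of_ne_zero h3
        positivity
      · have := sq_pos_of_ne_zero h3
        positivity
    -- z = z0 + t v
    obtain ⟨t, ht⟩ : ∃ t : ℝ, z = z0 + t • v := by
      refine ⟨(l.a * (z.2 - z0.2) - l.b * (z.1 - z0.1)) / (l.a ^ 2 + l.b ^ 2), ?_⟩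
      have e1 : l.a * (z.1 - z0.1) + l.b * (z.2 - z0.2) = 0 := by
        simp only [Ln.ev] at hzl hz0'
        linarith
      apply Prod.ext
      · simp only [hv, Prod.fst_add, Prod.smul_fst, smul_eq_mul]
        rw [div_mul_eq_mul_div, ← sub_eq_iff_eq_add', eq_div_iff hD.ne']
        linear_combination (l.a) * e1
      · simp only [hv, Prod.snd_add, Prod.smul_snd, smul_eq_mul]
        rw [div_mul_eq_mul_div, ← sub_eq_iff_eq_add', eq_div_iff hD.ne']
        linear_combination (l.b) * e1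
    have h1 : t < t1 := hm1 t (ht ▸ hz)
    have h2 : -t < t2 := by
      apply hm2 (-t)
      have : (-t) • (-v) = t • v := by rw [smul_neg, neg_smul, neg_neg]
      rw [this]; exact ht ▸ hz
    have h3 : 0 < t1 + t2 := by linarith
    refine ⟨(t1 - t) / (t1 + t2), div_pos (by linarith) h3, ?_, ?_⟩
    · rw [div_lt_one h3]; linarith
    · have h4 : z0 + t2 • (-v) - (z0 + t1 • v) = (-(t1 + t2)) • v := by
        rw [smul_neg, neg_smul, add_smul]; abel
      rw [h4, smul_smul, ht]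
      have h5 : (t1 - t) / (t1 + t2) * -(t1 + t2) = t - t1 := by
        field_simp
        ring
      rw [h5, sub_smul]
      abel

end Pool.Agent.Work.MP_e64a38_co.IZ
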