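import Pool.Agent.Work.MP_e64a38_co.IZ.Fin
import Pool.Agent.Work.MP_e64a38_co.IZ.Ends

/-!
# IZ/Cor (S-M): families in which among any r + 1 lines two cross

Proof. Let M be a maximal (for inclusion) set of pairwise non crossing lines, so M.card ≤ r, and every line i not in M crosses
some t in M inside the polygon. Let Q be the set of the end points e1, e2 (chord_ends) of the lines in M, Q.card ≤ 2 r.
A line i that crosses t ∈ M, i ≠ t: the crossing point z = e1 + λ (e2 - e1), 0 < λ < 1, l i z = 0; l i is not 0 at both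
e1 and e2 (pts_eq, hl; e1 ≠ e2 since otherwise... z = e1 would be in inn h, but e1 is in bd h), so by ev_comb l i has
opposite strict signs at e1 and e2. So i is Balanced with C = 2 r (both closed sides contain at most Q.card points). The
lines that are not balanced are in M, pairwise non crossing, so hT holds with r = 1. zone_bound with r = 1, C = 2 r.
-/

namespace Pool.Agent.Work.MP_e64a38_co.IZ

variable {n k : ℕ}

private theorem cross_symm {l : Fin n → Ln} {h : Fin k → Ln} {i j : Fin n}
    (hc : CrossIn l h i j) : CrossIn l h j i := by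
  obtain ⟨p, hp, h1, h2⟩ := hc
  exact ⟨p, hp, h2, h1⟩

theorem zone_cor (r : ℕ) (l : Fin n → Ln) (h : Fin k → Ln) (hP : IsPolygon h)
    (hl : Function.Injective (fun i => (l i).pts)) (hm : ∀ i, ((l i).pts ∩ inn h).Nonempty)
    (hT : ∀ T : Finset (Fin n), (∀ i ∈ T, ∀ j ∈ T, i ≠ j → ¬ CrossIn l h i j) → T.card ≤ r) :
    zoneComplexity l h ≤ 54 * (2 * r + 1) * (n + k) := by
  classical
  -- a largest family of pairwise non crossing lines
  obtain ⟨M, hM, hmax⟩ := Finset.exists_max_image
    (Finset.univ.filter (fun T : Finset (Fin n) =>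
      ∀ i ∈ T, ∀ j ∈ T, i ≠ j → ¬ CrossIn l h i j)) Finset.card
    ⟨∅, by
      rw [Finset.mem_filter]
      exact ⟨Finset.mem_univ _, fun i hi => absurd hi (Finset.notMem_empty i)⟩⟩
  rw [Finset.mem_filter] at hM
  have hMn := hM.2
  have hMr : M.card ≤ r := hT M hMn
  have hcross : ∀ i, i ∉ M → ∃ t ∈ M, CrossIn l h i t := by
    intro i hi
    by_contra hcon
    push Not at hcon
    have h1 : insert i M ∈ Finset.univ.filter (fun T : Finset (Fin n) =>
        ∀ i ∈ T, ∀ j ∈ T, i ≠ j → ¬ CrossIn l h i j) := by
      rw [Finset.mem_filter]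
      refine ⟨Finset.mem_univ _, ?_⟩
      intro a ha b hb hab
      rw [Finset.mem_insert] at ha hb
      rcases ha with rfl | ha <;> rcases hb with rfl | hb
      · exact absurd rfl hab
      · exact hcon b hb
      · exact fun hc => hcon a ha (cross_symm hc)
      · exact hMn a ha b hb hab
    have h2 := hmax _ h1
    rw [Finset.card_insert_of_notMem hi] at h2
    omega
  -- end points of the chords
  choose e1 e2 hb1 hb2 hz1 hz2 hseg using fun i => chord_ends h hP (l i) (hm i)
  set Q : Finset (ℝ × ℝ) := M.image e1 ∪ M.image e2 with hQdef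
  have hQ : ∀ q ∈ Q, q ∈ bd h := by
    intro q hq
    rw [hQdef, Finset.mem_union, Finset.mem_image, Finset.mem_image] at hq
    rcases hq with ⟨i, _, rfl⟩ | ⟨i, _, rfl⟩
    · exact hb1 i
    · exact hb2 i
  have hQc : Q.card ≤ 2 * r := by
    have h1 : Q.card ≤ (M.image e1).card + (M.image e2).card := Finset.card_union_le _ _
    have h2 : (M.image e1).card ≤ M.card := Finset.card_image_le
    have h3 : (M.image e2).card ≤ M.card := Finset.card_image_le
    omega
  have hbal : ∀ i, i ∉ M → Balanced l Q (2 * r) i := by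
    intro i hi
    obtain ⟨t, ht, z, hz, hiz, htz⟩ := hcross i hi
    obtain ⟨c, hc0, hc1, hzc⟩ := hseg t z hz htz
    have hev := ev_comb (l i) (e1 t) (e2 t) c
    rw [← hzc, hiz] at hev
    have hq1 : e1 t ∈ Q := by
      rw [hQdef, Finset.mem_union]
      exact Or.inl (Finset.mem_image_of_mem _ ht)
    have hq2 : e2 t ∈ Q := by
      rw [hQdef, Finset.mem_union]
      exact Or.inr (Finset.mem_image_of_mem _ ht)
    have hne : e1 t ≠ e2 t := by
      intro he
      rw [← he, sub_self, smul_zero, add_zero] at hzc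
      obtain ⟨_, j, hj⟩ := hb1 t
      have := hz j
      rw [hzc, hj] at this
      exact lt_irrefl _ this
    have hnz : ¬ ((l i).ev (e1 t) = 0 ∧ (l i).ev (e2 t) = 0) := by
      rintro ⟨h1, h2⟩
      have h3 : i = t := hl (pts_eq hne h1 h2 (hz1 t) (hz2 t))
      rw [h3] at hi
      exact hi ht
    rcases lt_trichotomy ((l i).ev (e1 t)) 0 with h1 | h1 | h1
    · have h2 : 0 < (l i).ev (e2 t) := by
        by_contra h3
        push Not at h3
        nlinarith
      exact ⟨⟨_, hq2, h2⟩, ⟨_, hq1, h1⟩, Or.inl ((Finset.card_filter_le _ _).trans hQc)⟩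
    · exfalso
      apply hnz
      refine ⟨h1, ?_⟩
      rw [h1, mul_zero, zero_add] at hev
      rcases mul_eq_zero.1 hev.symm with h4 | h4
      · exact absurd h4 hc0.ne'
      · exact h4
    · have h2 : (l i).ev (e2 t) < 0 := by
        by_contra h3
        push Not at h3
        nlinarith
      exact ⟨⟨_, hq1, h1⟩, ⟨_, hq2, h2⟩, Or.inl ((Finset.card_filter_le _ _).trans hQc)⟩
  have hfin := zone_bound 1 (2 * r) l h hP hl hm Q hQ (by
    intro T hT1 hT2
    rw [Finset.card_le_one]
    intro a ha b hb
    by_contra hab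
    have haM : a ∈ M := by
      by_contra hc
      exact hT1 a ha (hbal a hc)
    have hbM : b ∈ M := by
      by_contra hc
      exact hT1 b hb (hbal b hc)
    exact hMn a haM b hbM hab (hT2 a ha b hb hab))
  refine hfin.trans (le_of_eq ?_)
  norm_num

end Pool.Agent.Work.MP_e64a38_co.IZ
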