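import Pool.Agent.Work.MP_e64a38_co.IZ.BlkL

/-!
# IZ/Deep (S-M): the deepened intervals

dl = blk (a i) + 3/4 + arctan (a i) / 8 lies in (blk + 1/2, blk + 1) and dr = blk (b i) + 1/4 + arctan (b i) / 8 lies in
(blk, blk + 1/2), since |arctan| < π/2 < 1.6. So (blk monotone, arctan strictly monotone) dl i < dl j iff a i < a j,
dr i < dr j iff b i < b j, and dl i < dr j iff blk (a i) < blk (b j) (as natural numbers).

dgen: blk (a i) < blk (b i) by Pinned (blk_lt), the rest from the above; dl ≠ dr since the fractional parts are different.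
dnocl: let T be a subset of S with pairwise overlapping deepened intervals and T.card ≥ r ≥ 1. Let j in T have the
largest a j and i in T the smallest b i. Then blk (a j) < blk (b i): if i = j by Pinned, if i ≠ j by Ov (dl, dr) i j
(the alternative dl j < dl i is impossible). By exists_of_blk_lt there is p in P with a j ≤ p < b i, and a j ≠ p. Then
p is in all intervals of T, and T is pairwise overlapping (Ov of the deepened intervals implies Ov: dl j < dr i gives
blk (a j) < blk (b i), so a j < b i by blk_mono): contradiction to Pinned.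
dshallow: blk (a j) ≤ blk (b i) by blk_mono; if < then dl i < dl j < dr i < dr j, i.e. Ov.
-/

namespace Pool.Agent.Work.MP_e64a38_co.IZ

variable {ι : Type*}

private lemma arc_bd (x : ℝ) : -(1 / 5) < Real.arctan x / 8 ∧ Real.arctan x / 8 < 1 / 5 := by
  have h1 := Real.neg_pi_div_two_lt_arctan x
  have h2 := Real.arctan_lt_pi_div_two x
  have h3 : Real.pi < 3.15 := Real.pi_lt_d2
  constructor <;> linarith

private lemma nat_lt_cast {m n : ℕ} (h : m < n) : (m : ℝ) + 1 ≤ n := by
  exact_mod_cast h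

private lemma lev_lt (P : Finset ℝ) (c : ℝ) (x y : ℝ) :
    (blk P x : ℝ) + c + Real.arctan x / 8 < (blk P y : ℝ) + c + Real.arctan y / 8 ↔ x < y := by
  have hx := arc_bd x
  have hy := arc_bd y
  constructor
  · intro h
    by_contra hc
    push Not at hc
    have h1 : (blk P y : ℝ) ≤ blk P x := by exact_mod_cast blk_mono P hc
    have h2 : Real.arctan y ≤ Real.arctan x := Real.arctan_strictMono.monotone hc
    linarith
  · intro h
    have h1 : (blk P x : ℝ) ≤ blk P y := by exact_mod_cast blk_mono P h.le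
    have h2 : Real.arctan x < Real.arctan y := Real.arctan_strictMono h
    linarith

private lemma dl_lt_dl (P : Finset ℝ) (a : ι → ℝ) (i j : ι) : dl P a i < dl P a j ↔ a i < a j := by
  unfold dl
  exact lev_lt P (3 / 4) (a i) (a j)

private lemma dr_lt_dr (P : Finset ℝ) (b : ι → ℝ) (i j : ι) : dr P b i < dr P b j ↔ b i < b j := by
  unfold dr
  exact lev_lt P (1 / 4) (b i) (b j)

private lemma dl_lt_dr (P : Finset ℝ) (a b : ι → ℝ) (i j : ι) :
    dl P a i < dr P b j ↔ blk P (a i) < blk P (b j) := by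
  unfold dl dr
  have hx := arc_bd (a i)
  have hy := arc_bd (b j)
  constructor
  · intro h
    by_contra hc
    push Not at hc
    have h1 : (blk P (b j) : ℝ) ≤ blk P (a i) := by exact_mod_cast hc
    linarith
  · intro h
    have h1 := nat_lt_cast h
    linarith

private lemma dl_ne_dr (P : Finset ℝ) (a b : ι → ℝ) (i j : ι) : dl P a i ≠ dr P b j := by
  intro h
  have h1 : ¬ dl P a i < dr P b j := by rw [h]; exact lt_irrefl _
  rw [dl_lt_dr] at h1
  push Not at h1
  have h2 : (blk P (b j) : ℝ) ≤ blk P (a i) := by exact_mod_cast h1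
  unfold dl dr at h
  have hx := arc_bd (a i)
  have hy := arc_bd (b j)
  linarith

private lemma ov_of_ov (P : Finset ℝ) (a b : ι → ℝ) {i j : ι} (h : Ov (dl P a) (dr P b) i j) : Ov a b i j := by
  unfold Ov at h ⊢
  rw [dl_lt_dl, dl_lt_dr, dr_lt_dr, dl_lt_dl, dl_lt_dr, dr_lt_dr] at h
  have key : ∀ x y : ℝ, blk P x < blk P y → x < y := by
    intro x y hxy
    by_contra hc
    push Not at hc
    exact absurd hxy (not_lt.2 (blk_mono P hc))
  rcases h with ⟨h1, h2, h3⟩ | ⟨h1, h2, h3⟩
  · exact Or.inl ⟨h1, key _ _ h2, h3⟩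
  · exact Or.inr ⟨h1, key _ _ h2, h3⟩

theorem dgen (a b : ι → ℝ) (S : Finset ι) (P : Finset ℝ) (r : ℕ) (hG : Gen a b S) (hP : Pinned a b S P r) :
    Gen (dl P a) (dr P b) S := by
  intro i hi
  obtain ⟨hg1, hg2⟩ := hG i hi
  refine ⟨?_, ?_⟩
  · rw [dl_lt_dr]
    obtain ⟨p, hp, h1, h2⟩ := hP.1 i hi
    exact blk_lt P hp h1.le h2
  · intro j hj
    refine ⟨dl_ne_dr P a b i j, ?_⟩
    intro hij
    obtain ⟨h1, h2⟩ := (hg2 j hj).2 hij
    refine ⟨?_, ?_⟩
    · rcases lt_or_gt_of_ne h1 with h | h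
      · exact ne_of_lt ((dl_lt_dl P a i j).2 h)
      · exact ne_of_gt ((dl_lt_dl P a j i).2 h)
    · rcases lt_or_gt_of_ne h2 with h | h
      · exact ne_of_lt ((dr_lt_dr P b i j).2 h)
      · exact ne_of_gt ((dr_lt_dr P b j i).2 h)

theorem dnocl (a b : ι → ℝ) (S : Finset ι) (P : Finset ℝ) (r : ℕ) (hr : 1 ≤ r) (hG : Gen a b S)
    (hP : Pinned a b S P r) : NoCl (dl P a) (dr P b) S r := by
  intro T hT hov
  by_contra hc
  push Not at hc
  have hne : T.Nonempty := by
    rw [← Finset.card_pos]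
    omega
  obtain ⟨j, hjT, hj⟩ := Finset.exists_max_image T a hne
  obtain ⟨i, hiT, hi⟩ := Finset.exists_min_image T b hne
  have hblk : blk P (a j) < blk P (b i) := by
    by_cases hij : i = j
    · subst hij
      obtain ⟨p, hp, h1, h2⟩ := hP.1 i (hT hiT)
      exact blk_lt P hp h1.le h2
    · have h := hov i hiT j hjT hij
      unfold Ov at h
      rw [dl_lt_dl, dl_lt_dr, dr_lt_dr, dl_lt_dl, dl_lt_dr, dr_lt_dr] at h
      rcases h with ⟨h1, h2, h3⟩ | ⟨h1, h2, h3⟩
      · exact h2
      · exact absurd h1 (not_lt.2 (hj i hiT))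
  obtain ⟨p, hp, h1, h2⟩ := exists_of_blk_lt P hblk
  have h3 : a j < p := by
    refine lt_of_le_of_ne h1 ?_
    intro h
    exact (hP.2.1 j (hT hjT)).1 (h ▸ hp)
  have := hP.2.2 p hp T hT (fun k hk => ⟨lt_of_le_of_lt (hj k hk) h3, lt_of_lt_of_le h2 (hi k hk)⟩)
    (fun k hk l hl hkl => ov_of_ov P a b (hov k hk l hl hkl))
  omega

theorem dshallow (a b : ι → ℝ) (P : Finset ℝ) {i j : ι} (h1 : a i < a j) (h2 : a j < b i) (h3 : b i < b j)
    (h4 : ¬ Ov (dl P a) (dr P b) i j) : blk P (a j) = blk P (b i) := by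
  refine le_antisymm (blk_mono P h2.le) ?_
  by_contra hc
  push Not at hc
  refine h4 (Or.inl ⟨(dl_lt_dl P a i j).2 h1, (dl_lt_dr P a b j i).2 hc, (dr_lt_dr P b i j).2 h3⟩)

end Pool.Agent.Work.MP_e64a38_co.IZ
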