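import Mathlib

/-!
# Inner zone (MP_e64a38_co): definitions for the model

Two overlapping intervals, general position, classes, and the epigraph model of an arrangement of lines in a convex
polygon: the interior of the polygon is the epigraph of a convex function F, line i is the graph of
x ↦ m i * x + c i, and it is above F exactly on the interval (a i, b i).
-/

namespace Pool.Agent.Work.MP_e64a38_co.IZ

variable {ι : Type*}

/-- The intervals (a i, b i) and (a j, b j) overlap: they meet and none of them contains the other one. -/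
def Ov (a b : ι → ℝ) (i j : ι) : Prop :=
  (a i < a j ∧ a j < b i ∧ b i < b j) ∨ (a j < a i ∧ a i < b j ∧ b j < b i)

/-- a < b and all end points of the intervals with index in S are different. -/
def Gen (a b : ι → ℝ) (S : Finset ι) : Prop :=
  ∀ i ∈ S, a i < b i ∧ ∀ j ∈ S, a i ≠ b j ∧ (i ≠ j → a i ≠ a j ∧ b i ≠ b j)

/-- There are no r pairwise overlapping intervals with index in S. -/
def NoCl (a b : ι → ℝ) (S : Finset ι) (r : ℕ) : Prop :=
  ∀ T : Finset ι, T ⊆ S → (∀ i ∈ T, ∀ j ∈ T, i ≠ j → Ov a b i j) → T.card < r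

/-- The intervals with index in S can be coloured with N colours such that overlapping intervals have different
colours. -/
def Colb (a b : ι → ℝ) (S : Finset ι) (N : ℕ) : Prop :=
  ∃ f : ι → Fin N, ∀ i ∈ S, ∀ j ∈ S, Ov a b i j → f i ≠ f j

/-- The number of points of the finite set P that are smaller than x. -/
noncomputable def blk (P : Finset ℝ) (x : ℝ) : ℕ := (P.filter (fun p => p < x)).card

/-- The set P pins S: every interval with index in S contains a point of P, the end points are not in P, and for each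
p in P there are no r pairwise overlapping intervals (index in S) that contain p. -/
def Pinned (a b : ι → ℝ) (S : Finset ι) (P : Finset ℝ) (r : ℕ) : Prop :=
  (∀ i ∈ S, ∃ p ∈ P, a i < p ∧ p < b i) ∧ (∀ i ∈ S, a i ∉ P ∧ b i ∉ P) ∧
    ∀ p ∈ P, ∀ T : Finset ι, T ⊆ S → (∀ i ∈ T, a i < p ∧ p < b i) →
      (∀ i ∈ T, ∀ j ∈ T, i ≠ j → Ov a b i j) → T.card < r

/-- The left end points of the deepened intervals. -/
noncomputable def dl (P : Finset ℝ) (a : ι → ℝ) (i : ι) : ℝ := (blk P (a i) : ℝ) + 3 / 4 + Real.arctan (a i) / 8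

/-- The right end points of the deepened intervals. -/
noncomputable def dr (P : Finset ℝ) (b : ι → ℝ) (i : ι) : ℝ := (blk P (b i) : ℝ) + 1 / 4 + Real.arctan (b i) / 8

/-- The epigraph model. -/
structure Mdl (m c a b : ι → ℝ) (F : ℝ → ℝ) : Prop where
  lt : ∀ i, a i < b i
  mem : ∀ i x, F x < m i * x + c i ↔ (a i < x ∧ x < b i)
  ea : ∀ i, F (a i) = m i * a i + c i
  eb : ∀ i, F (b i) = m i * b i + c i
  ne : ∀ i j, a i ≠ b j
  nea : ∀ i j, i ≠ j → a i ≠ a j
  neb : ∀ i j, i ≠ j → b i ≠ b j

/-- A levelling: K is constant on overlapping pairs, the levels L of overlapping intervals differ by at most 1, an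
interval of level t + 1 overlaps one of level t, and an interval of level 0 has the smallest left end point in its
component. -/
structure Lvl {τ : Type*} (a b : ι → ℝ) (S : Finset ι) (K : ι → τ) (L : ι → ℕ) : Prop where
  comp : ∀ i ∈ S, ∀ j ∈ S, Ov a b i j → K i = K j
  step : ∀ i ∈ S, ∀ j ∈ S, Ov a b i j → L i ≤ L j + 1
  prev : ∀ i ∈ S, ∀ t, L i = t + 1 → ∃ j ∈ S, K j = K i ∧ L j = t ∧ Ov a b i j
  root : ∀ i ∈ S, L i = 0 → ∀ j ∈ S, K j = K i → a i ≤ a j

open Classical in
/-- The sign of the line j relative to the cell with sign pattern σ: 1 if the line j is above the cell. -/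
noncomputable def sg (σ : Finset ι) (j : ι) : ℝ := if j ∈ σ then 1 else -1

/-- The cell with sign pattern σ of the arrangement of the lines with index in A has an edge on the line i: there is a
point x on the line i, above F, where every other line j of A lies on the side prescribed by σ. -/
def Edg (m c : ι → ℝ) (F : ℝ → ℝ) (A σ : Finset ι) (i : ι) : Prop :=
  ∃ x, F x < m i * x + c i ∧ ∀ j ∈ A, j ≠ i → 0 < sg σ j * ((m j * x + c j) - (m i * x + c i))

/-- As Edg, with a point x left of p. -/
def EdgL (m c : ι → ℝ) (F : ℝ → ℝ) (p : ℝ) (A σ : Finset ι) (i : ι) : Prop :=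
  ∃ x, x < p ∧ F x < m i * x + c i ∧ ∀ j ∈ A, j ≠ i → 0 < sg σ j * ((m j * x + c j) - (m i * x + c i))

/-- As Edg, with a point x right of p. -/
def EdgR (m c : ι → ℝ) (F : ℝ → ℝ) (p : ℝ) (A σ : Finset ι) (i : ι) : Prop :=
  ∃ x, p < x ∧ F x < m i * x + c i ∧ ∀ j ∈ A, j ≠ i → 0 < sg σ j * ((m j * x + c j) - (m i * x + c i))

open Classical in
/-- The number of edges, on lines with index in A, of the cell with sign pattern σ of the arrangement D. -/
noncomputable def nE (m c : ι → ℝ) (F : ℝ → ℝ) (A D σ : Finset ι) : ℕ := (A.filter (fun i => Edg m c F D σ i)).card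

/-- σ is, on A, the pattern of the intervals that contain the point x. -/
def Tr (a b : ι → ℝ) (A σ : Finset ι) (x : ℝ) : Prop :=
  (∀ i ∈ A, x ≠ a i ∧ x ≠ b i) ∧ ∀ i, i ∈ σ ↔ (i ∈ A ∧ a i < x ∧ x < b i)

open Classical in
/-- The zone: the sign patterns of the cells that touch the graph of F. -/
noncomputable def zon [Fintype ι] (a b : ι → ℝ) : Finset (Finset ι) :=
  Finset.univ.filter (fun σ => ∃ x, Tr a b Finset.univ σ x)

/-- A good class: it is the union of parts (given by g), all intervals of the part t contain the point p t, and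
intervals of different parts do not overlap. -/
def Good (a b : ι → ℝ) (A : Finset ι) (g : ι → ℕ) (p : ℕ → ℝ) : Prop :=
  (∀ i ∈ A, a i < p (g i) ∧ p (g i) < b i) ∧ ∀ i ∈ A, ∀ j ∈ A, g i ≠ g j → ¬ Ov a b i j

end Pool.Agent.Work.MP_e64a38_co.IZ
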