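import Pool.Agent.Work.MP_e64a38_co.IZ.Coord

/-!
# IZ/ExF (S-M): the polygon as an epigraph

Proof. For j ≠ j0: h j x0 < 0, so by coord_model, for y = yv p > 0: h j p < 0 iff sl j * X + ct j < Y, and h j p = 0 iff
sl j * X + ct j = Y, X = u / y, Y = 1 / y. For j0: h j0 p = - y < 0 iff y > 0. Let F X = the maximum of 0 and of the
sl j * X + ct j, j ≠ j0 (Finset.sup' over Option or fold; e.g. F X = (Finset.univ : Finset (Option (Fin k))).sup' .. where
none and some j0 give 0 and some j gives sl j * X + ct j). Continuous and convex (Finset.sup' of affine functions, or by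
induction with ConvexOn.sup), ≥ 0. p in inn h iff y > 0 and F X < 1 / y (1 / y > 0). Last part: T in the side j ≠ j0 with Rel:
h j0 T < 0 so y > 0; Y = sl j X + ct j, Y > the others, Y > 0, so F X = Y.
-/

namespace Pool.Agent.Work.MP_e64a38_co.IZ

variable {k : ℕ}

open Classical in
/-- the affine functions -/
private noncomputable def gF (h : Fin k → Ln) (j0 : Fin k) (x0 : ℝ × ℝ) : Option (Fin k) → ℝ → ℝ
  | none => fun _ => 0
  | some j => fun x => if j = j0 then 0 else sl (h j0) x0 (h j) * x + ct (h j0) x0 (h j)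

private theorem gF_cont (h : Fin k → Ln) (j0 : Fin k) (x0 : ℝ × ℝ) (o : Option (Fin k)) :
    Continuous (gF h j0 x0 o) := by
  rcases o with _ | j
  · exact continuous_const
  · unfold gF
    by_cases hj : j = j0
    · simp only [hj, if_true]
      exact continuous_const
    · simp only [hj, if_false]
      exact (continuous_const.mul continuous_id).add continuous_const

private theorem aff_conv (a b : ℝ) : ConvexOn ℝ Set.univ (fun x : ℝ => a * x + b) := by
  refine ⟨convex_univ, fun x _ y _ s t _ _ hst => ?_⟩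
  simp only [smul_eq_mul]
  have : b = s * b + t * b := by rw [← add_mul, hst, one_mul]
  nlinarith

private theorem gF_conv (h : Fin k → Ln) (j0 : Fin k) (x0 : ℝ × ℝ) (o : Option (Fin k)) :
    ConvexOn ℝ Set.univ (gF h j0 x0 o) := by
  rcases o with _ | j
  · exact convexOn_const 0 convex_univ
  · unfold gF
    by_cases hj : j = j0
    · simp only [hj, if_true]
      exact convexOn_const 0 convex_univ
    · simp only [hj, if_false]
      exact aff_conv _ _

theorem exists_F (h : Fin k → Ln) (j0 : Fin k) (x0 : ℝ × ℝ) (hx0 : Rel h j0 x0) :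
    ∃ F : ℝ → ℝ, Continuous F ∧ ConvexOn ℝ Set.univ F ∧ (∀ x, 0 ≤ F x) ∧
      (∀ p, p ∈ inn h ↔ 0 < yv (h j0) p ∧ F (uv (h j0) x0 p / yv (h j0) p) < 1 / yv (h j0) p) ∧
      (∀ j, j ≠ j0 → ∀ T, Rel h j T →
        0 < yv (h j0) T ∧ F (uv (h j0) x0 T / yv (h j0) T) = 1 / yv (h j0) T) := by
  classical
  have hne : (Finset.univ : Finset (Option (Fin k))).Nonempty := ⟨none, Finset.mem_univ _⟩
  obtain ⟨F, hF⟩ : ∃ F : ℝ → ℝ, F = (Finset.univ : Finset (Option (Fin k))).sup' hne
    (gF h j0 x0) := ⟨_, rfl⟩
  have hFx : ∀ x, F x = (Finset.univ : Finset (Option (Fin k))).sup' hne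
      (fun o => gF h j0 x0 o x) := fun x => by
    rw [hF, Finset.sup'_apply]
  have hg0 : ∀ x, gF h j0 x0 none x = 0 := fun _ => rfl
  have hgj0 : ∀ x, gF h j0 x0 (some j0) x = 0 := fun x => by
    simp [gF]
  have hgj : ∀ j, j ≠ j0 → ∀ x, gF h j0 x0 (some j) x =
      sl (h j0) x0 (h j) * x + ct (h j0) x0 (h j) := fun j hj x => by
    simp [gF, hj]
  have hlt : ∀ x y, F x < y ↔ ∀ o, gF h j0 x0 o x < y := fun x y => by
    rw [hFx, Finset.sup'_lt_iff]
    simp
  have hle : ∀ x y, F x ≤ y ↔ ∀ o, gF h j0 x0 o x ≤ y := fun x y => by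
    rw [hFx, Finset.sup'_le_iff]
    simp
  have hev : ∀ j, j ≠ j0 → ∀ p, 0 < yv (h j0) p → (h j).ev p = yv (h j0) p * (h j).ev x0 *
      (1 / yv (h j0) p - gF h j0 x0 (some j) (uv (h j0) x0 p / yv (h j0) p)) := by
    intro j hj p hp
    rw [hgj j hj]
    exact coord_model (h j0) (h j) x0 p hx0.1 (hx0.2 j hj).ne hp
  refine ⟨F, ?_, ?_, fun x => ?_, fun p => ?_, fun j hj T hT => ?_⟩
  · rw [hF]
    exact Finset.sup'_induction hne _ (fun a ha b hb => ha.sup hb) fun o _ => gF_cont h j0 x0 o
  · rw [hF]
    exact Finset.sup'_induction hne _ (fun a ha b hb => ha.sup hb) fun o _ => gF_conv h j0 x0 o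
  · exact ((hle x (F x)).1 le_rfl none)
  · constructor
    · intro hp
      have hy : 0 < yv (h j0) p := by
        have := hp j0
        unfold yv
        linarith
      refine ⟨hy, (hlt _ _).2 fun o => ?_⟩
      rcases o with _ | j
      · rw [hg0]
        positivity
      · by_cases hj : j = j0
        · rw [hj, hgj0]
          positivity
        · have h1 := hp j
          rw [hev j hj p hy] at h1
          have h2 : yv (h j0) p * (h j).ev x0 < 0 := mul_neg_of_pos_of_neg hy (hx0.2 j hj)
          have h3 := pos_of_mul_neg_right h1 h2.le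
          linarith
    · rintro ⟨hy, hp⟩ j
      by_cases hj : j = j0
      · rw [hj]
        unfold yv at hy
        linarith
      · have h1 := (hlt _ _).1 hp (some j)
        rw [hev j hj p hy]
        have h2 : yv (h j0) p * (h j).ev x0 < 0 := mul_neg_of_pos_of_neg hy (hx0.2 j hj)
        exact mul_neg_of_neg_of_pos h2 (by linarith)
  · have hy : 0 < yv (h j0) T := by
      have := hT.2 j0 hj.symm
      unfold yv
      linarith
    have hj0 : gF h j0 x0 (some j) (uv (h j0) x0 T / yv (h j0) T) = 1 / yv (h j0) T := by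
      have h1 := hT.1
      rw [hev j hj T hy] at h1
      have h2 : yv (h j0) T * (h j).ev x0 ≠ 0 :=
        (mul_neg_of_pos_of_neg hy (hx0.2 j hj)).ne
      have h3 := (mul_eq_zero.1 h1).resolve_left h2
      linarith
    refine ⟨hy, le_antisymm ((hle _ _).2 fun o => ?_) ?_⟩
    · rcases o with _ | i
      · rw [hg0]
        positivity
      · by_cases hi : i = j0
        · rw [hi, hgj0]
          positivity
        · by_cases hij : i = j
          · rw [hij]
            exact hj0.le
          · have h1 := hT.2 i hij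
            rw [hev i hi T hy] at h1
            have h2 : yv (h j0) T * (h i).ev x0 < 0 := mul_neg_of_pos_of_neg hy (hx0.2 i hi)
            have h3 := pos_of_mul_neg_right h1 h2.le
            linarith
    · rw [← hj0]
      exact (hle _ _).1 le_rfl (some j)

end Pool.Agent.Work.MP_e64a38_co.IZ
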