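import Pool.Agent.Work.MP_e64a38_co.IZ.OvStep

/-!
# IZ/OvLem (S-M): the overlay lemma

Proof. Claim: for every D ⊇ A, every pattern ρ and every nonempty finite set Z of patterns such that all σ in Z agree
with ρ on D (j ∈ σ ↔ j ∈ ρ for j in D), we have ∑ σ ∈ Z, nE A univ σ + 2 ≤ nE A D ρ + 2 * Z.card. Induction on the
number of elements of univ \ D. If D = univ then Z = {ρ}: equality. Otherwise let q ∉ D, Z⁺ = {σ in Z | q ∈ σ},
Z⁻ = {σ in Z | q ∉ σ}. If one of them is empty, say Z⁻, the claim for (insert q D, insert q ρ, Z) and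
nE A (insert q D) (insert q ρ) ≤ nE A D ρ (nE_mono) suffice. If both are nonempty, add the claims for
(insert q D, insert q ρ, Z⁺) and (insert q D, ρ.erase q, Z⁻) and use ov_step.
For the theorem sum over the fibres of σ ↦ σ ∩ A: for R in the image use the claim with D = A, ρ = R and
Z_R = {σ in Z | σ ∩ A = R} (drop the 2).
-/

namespace Pool.Agent.Work.MP_e64a38_co.IZ

variable {ι : Type*} {m c a b : ι → ℝ} {F : ℝ → ℝ}

open Classical in
private theorem claim [Fintype ι] (h : Mdl m c a b F) (A : Finset ι) : ∀ (n : ℕ) (D : Finset ι),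
    A ⊆ D → (Finset.univ \ D).card = n → ∀ (ρ : Finset ι) (Z : Finset (Finset ι)), Z.Nonempty →
    (∀ σ ∈ Z, ∀ j ∈ D, (j ∈ σ ↔ j ∈ ρ)) →
    ∑ σ ∈ Z, nE m c F A Finset.univ σ + 2 ≤ nE m c F A D ρ + 2 * Z.card := by
  intro n
  induction n with
  | zero =>
    intro D _ hD ρ Z hZ hσ
    have hDu : D = Finset.univ := by
      rw [Finset.card_eq_zero, Finset.sdiff_eq_empty_iff_subset] at hD
      exact Finset.univ_subset_iff.1 hD
    subst hDu
    have hZ1 : Z = {ρ} := by
      refine Finset.eq_singleton_iff_nonempty_unique_mem.2 ⟨hZ, fun σ hs => ?_⟩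
      ext j
      exact hσ σ hs j (Finset.mem_univ j)
    rw [hZ1, Finset.sum_singleton, Finset.card_singleton]
  | succ n ih =>
    intro D hA hD ρ Z hZ hσ
    obtain ⟨q, hq⟩ : (Finset.univ \ D).Nonempty := by
      rw [← Finset.card_pos, hD]
      exact Nat.succ_pos n
    have hqD : q ∉ D := (Finset.mem_sdiff.1 hq).2
    have hA' : A ⊆ insert q D := hA.trans (Finset.subset_insert q D)
    have hcard : (Finset.univ \ insert q D).card = n := by
      have h1 : Finset.univ \ insert q D = (Finset.univ \ D).erase q := by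
        ext j
        simp only [Finset.mem_sdiff, Finset.mem_univ, true_and, Finset.mem_insert, not_or,
          Finset.mem_erase, ne_eq]
      rw [h1, Finset.card_erase_of_mem hq, hD]
      rfl
    have hne : ∀ j ∈ D, j ≠ q := fun j hj e => hqD (e ▸ hj)
    have hp1 : ∀ σ ∈ Z.filter (fun σ => q ∈ σ), ∀ j ∈ insert q D,
        (j ∈ σ ↔ j ∈ insert q ρ) := by
      intro σ hs j hj
      rw [Finset.mem_filter] at hs
      rcases Finset.mem_insert.1 hj with e | hjD
      · subst e
        simp [hs.2]
      · rw [hσ σ hs.1 j hjD, Finset.mem_insert]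
        simp [hne j hjD]
    have hp2 : ∀ σ ∈ Z.filter (fun σ => ¬ q ∈ σ), ∀ j ∈ insert q D,
        (j ∈ σ ↔ j ∈ ρ.erase q) := by
      intro σ hs j hj
      rw [Finset.mem_filter] at hs
      rcases Finset.mem_insert.1 hj with e | hjD
      · subst e
        simp [hs.2]
      · rw [hσ σ hs.1 j hjD, Finset.mem_erase]
        simp [hne j hjD]
    have hS := Finset.sum_filter_add_sum_filter_not Z (fun σ => q ∈ σ)
      (fun σ => nE m c F A Finset.univ σ)
    have hC := Finset.card_filter_add_card_filter_not (s := Z) (fun σ => q ∈ σ)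
    have m1 : nE m c F A (insert q D) (insert q ρ) ≤ nE m c F A D ρ :=
      nE_mono A D (insert q D) ρ (insert q ρ) hA (Finset.subset_insert q D) fun j hj => by
        rw [Finset.mem_insert]
        simp [hne j hj]
    have m2 : nE m c F A (insert q D) (ρ.erase q) ≤ nE m c F A D ρ :=
      nE_mono A D (insert q D) ρ (ρ.erase q) hA (Finset.subset_insert q D) fun j hj => by
        rw [Finset.mem_erase]
        simp [hne j hj]
    have m3 := ov_step h A D ρ hA q hqD
    rcases (Z.filter (fun σ => q ∈ σ)).eq_empty_or_nonempty with e1 | n1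
    · rcases (Z.filter (fun σ => ¬ q ∈ σ)).eq_empty_or_nonempty with e2 | n2
      · exfalso
        rw [e1, e2] at hC
        simp only [Finset.card_empty] at hC
        have := hZ.card_pos
        omega
      · have c2 := ih (insert q D) hA' hcard (ρ.erase q) _ n2 hp2
        rw [e1] at hS hC
        simp only [Finset.card_empty, Finset.sum_empty] at hS hC
        omega
    · have c1 := ih (insert q D) hA' hcard (insert q ρ) _ n1 hp1
      rcases (Z.filter (fun σ => ¬ q ∈ σ)).eq_empty_or_nonempty with e2 | n2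
      · rw [e2] at hS hC
        simp only [Finset.card_empty, Finset.sum_empty] at hS hC
        omega
      · have c2 := ih (insert q D) hA' hcard (ρ.erase q) _ n2 hp2
        omega

open Classical in
theorem overlay [Fintype ι] (h : Mdl m c a b F) (A : Finset ι) (Z : Finset (Finset ι)) :
    ∑ σ ∈ Z, nE m c F A Finset.univ σ ≤ ∑ R ∈ Z.image (fun σ => σ ∩ A), nE m c F A A R + 2 * Z.card := by
  have hmap : ∀ σ ∈ Z, σ ∩ A ∈ Z.image (fun σ => σ ∩ A) := fun σ hs =>
    Finset.mem_image_of_mem _ hs
  have h1 := Finset.sum_fiberwise_of_maps_to hmap (fun σ => nE m c F A Finset.univ σ)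
  have h2 := Finset.card_eq_sum_card_fiberwise hmap
  rw [← h1, h2, Finset.mul_sum, ← Finset.sum_add_distrib]
  refine Finset.sum_le_sum fun R hR => ?_
  obtain ⟨τ, hτ, hτR⟩ := Finset.mem_image.1 hR
  have hne : (Z.filter (fun σ => σ ∩ A = R)).Nonempty :=
    ⟨τ, Finset.mem_filter.2 ⟨hτ, hτR⟩⟩
  have h3 := claim h A _ A (Finset.Subset.refl A) rfl R _ hne (fun σ hs j hj => by
    rw [← (Finset.mem_filter.1 hs).2, Finset.mem_inter]
    simp [hj])
  omega

end Pool.Agent.Work.MP_e64a38_co.IZ
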