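import Pool.Agent.Work.MP_e64a38_co.IZ.Cls
import Pool.Agent.Work.MP_e64a38_co.IZ.OvLem

/-!
# IZ/MMain (S): the zone in the model, for a union of M good classes

Proof. univ is the union of the classes A s = {i | f i = s}, s in Fin M. nE univ univ σ = ∑ s, nE (A s) univ σ. For each s:
overlay gives ∑ σ ∈ zon, nE (A s) univ σ ≤ ∑ R ∈ image, nE (A s) (A s) R + 2 * (zon).card, and cls_bound gives
20 * card (A s) for the first sum (σ ∩ A s is a trace on A s). Sum over s and zon_card.
-/

namespace Pool.Agent.Work.MP_e64a38_co.IZ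

variable {ι : Type*} {m c a b : ι → ℝ} {F : ℝ → ℝ}

open Classical in
theorem model_zone [Fintype ι] (h : Mdl m c a b F) (M : ℕ) (f : ι → Fin M) (g : Fin M → ι → ℕ)
    (p : Fin M → ℕ → ℝ) (hg : ∀ s, Good a b (Finset.univ.filter (fun i => f i = s)) (g s) (p s)) :
    ∑ σ ∈ zon a b, nE m c F Finset.univ Finset.univ σ
      ≤ 20 * Fintype.card ι + 2 * M * (2 * Fintype.card ι + 1) := by
  obtain ⟨A, hA⟩ : ∃ A : Fin M → Finset ι, ∀ s, A s = Finset.univ.filter (fun i => f i = s) :=
    ⟨_, fun _ => rfl⟩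
  have h1 : ∀ σ : Finset ι, nE m c F Finset.univ Finset.univ σ =
      ∑ s, nE m c F (A s) Finset.univ σ := by
    intro σ
    unfold nE
    rw [Finset.card_eq_sum_card_fiberwise (f := f) (t := Finset.univ) (fun _ _ => by simp)]
    refine Finset.sum_congr rfl fun s _ => ?_
    congr 1
    ext i
    simp only [hA, Finset.mem_filter, Finset.mem_univ, true_and]
    exact and_comm
  have h2 : ∀ s, ∑ σ ∈ zon a b, nE m c F (A s) Finset.univ σ ≤
      20 * (A s).card + 2 * (zon a b).card := by
    intro s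
    refine (overlay h (A s) (zon a b)).trans (Nat.add_le_add_right ?_ _)
    refine cls_bound h (A s) (g s) (p s) (by rw [hA]; exact hg s) _ fun R hR => ?_
    obtain ⟨σ, hσ, rfl⟩ := Finset.mem_image.mp hR
    obtain ⟨x, hx1, hx2⟩ := (Finset.mem_filter.mp hσ).2
    refine ⟨x, fun i _ => hx1 i (Finset.mem_univ _), fun i => ?_⟩
    rw [Finset.mem_inter, hx2 i]
    simp only [Finset.mem_univ, true_and]
    exact and_comm
  have h3 : ∑ s, (A s).card = Fintype.card ι := by
    rw [← Finset.card_univ, Finset.card_eq_sum_card_fiberwise (f := f) (t := Finset.univ)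
      (fun _ _ => by simp)]
    refine Finset.sum_congr rfl fun s _ => ?_
    rw [hA]
  calc ∑ σ ∈ zon a b, nE m c F Finset.univ Finset.univ σ
      = ∑ s, ∑ σ ∈ zon a b, nE m c F (A s) Finset.univ σ := by
        rw [Finset.sum_comm]
        exact Finset.sum_congr rfl fun σ _ => h1 σ
    _ ≤ ∑ s, (20 * (A s).card + 2 * (zon a b).card) := Finset.sum_le_sum fun s _ => h2 s
    _ = 20 * Fintype.card ι + 2 * M * (zon a b).card := by
        rw [Finset.sum_add_distrib, ← Finset.mul_sum, h3, Finset.sum_const, Finset.card_univ,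
          Fintype.card_fin, smul_eq_mul]
        ring
    _ ≤ 20 * Fintype.card ι + 2 * M * (2 * Fintype.card ι + 1) :=
        Nat.add_le_add_left (Nat.mul_le_mul_left _ (zon_card a b)) _

end Pool.Agent.Work.MP_e64a38_co.IZ
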