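import Pool.Agent.Work.MP_e64a38_co.IZ.PCls
import Pool.Agent.Work.MP_e64a38_co.IZ.Col
import Pool.Agent.Work.MP_e64a38_co.IZ.MMain

/-!
# IZ/MFin (S-M): the zone in the model: final form

Proof. G = {i | GoodPin i}, B = the other i. pin_classes gives 2 C + 2 good classes for G. col gives f' : ι → Fin (6 ^ r)
for B (Gen from Mdl: nea, neb, ne, lt). The colour classes of B are good: g i = Fintype.equivFin i (every part has one
element), p t = (a i + b i) / 2 for the i with number t; different i, j of the same colour do not overlap. Define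
f : ι → Fin (2 C + 2 + 6 ^ r) by Fin.castAdd / Fin.natAdd, and use model_zone.
-/

namespace Pool.Agent.Work.MP_e64a38_co.IZ

variable {ι : Type*} {m c a b : ι → ℝ} {F : ℝ → ℝ}

open Classical in
theorem model_final [Fintype ι] (h : Mdl m c a b F) (r C : ℕ) (P : Finset ℝ)
    (hP : ∀ i, ∀ p ∈ P, p ≠ a i ∧ p ≠ b i)
    (hB : NoCl a b (Finset.univ.filter (fun i => ¬ GoodPin a b P C i)) (r + 1)) :
    ∑ σ ∈ zon a b, nE m c F Finset.univ Finset.univ σ
      ≤ 20 * Fintype.card ι + 2 * (2 * C + 2 + 6 ^ r) * (2 * Fintype.card ι + 1) := by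
  obtain ⟨f1, g1, p1, h1⟩ := pin_classes a b (Finset.univ.filter (fun i => GoodPin a b P C i)) P C
    (fun i _ => h.lt i) (fun i _ p hp => hP i p hp) (fun i hi => (Finset.mem_filter.1 hi).2)
  obtain ⟨f2, h2⟩ := col r a b (Finset.univ.filter (fun i => ¬ GoodPin a b P C i))
    (fun i _ => ⟨h.lt i, fun j _ => ⟨h.ne i j, fun hij => ⟨h.nea i j hij, h.neb i j hij⟩⟩⟩) hB
  refine model_zone h (2 * C + 2 + 6 ^ r)
    (fun i => if GoodPin a b P C i then Fin.castAdd (6 ^ r) (f1 i) else
      Fin.natAdd (2 * C + 2) (f2 i))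
    (fun s => Fin.addCases (motive := fun _ => ι → ℕ) (fun t => g1 t)
      (fun _ i => (Fintype.equivFin ι i : ℕ)) s)
    (fun s => Fin.addCases (motive := fun _ => ℕ → ℝ) (fun t => p1 t)
      (fun _ n => if hn : n < Fintype.card ι then
        (a ((Fintype.equivFin ι).symm ⟨n, hn⟩) + b ((Fintype.equivFin ι).symm ⟨n, hn⟩)) / 2
        else 0) s) ?_
  intro s
  refine Fin.addCases (fun t => ?_) (fun t => ?_) s
  · simp only [Fin.addCases_left]
    have key : ∀ i, i ∈ Finset.univ.filter (fun i => (if GoodPin a b P C i then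
        Fin.castAdd (6 ^ r) (f1 i) else Fin.natAdd (2 * C + 2) (f2 i)) = Fin.castAdd (6 ^ r) t) →
        i ∈ (Finset.univ.filter (fun i => GoodPin a b P C i)).filter (fun i => f1 i = t) := by
      intro i hi
      have h3 := (Finset.mem_filter.1 hi).2
      by_cases h4 : GoodPin a b P C i
      · rw [if_pos h4] at h3
        exact Finset.mem_filter.2 ⟨Finset.mem_filter.2 ⟨Finset.mem_univ i, h4⟩,
          Fin.castAdd_injective _ _ h3⟩
      · rw [if_neg h4] at h3
        have h5 := congrArg Fin.val h3
        rw [Fin.val_natAdd, Fin.val_castAdd] at h5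
        have := t.2
        omega
    exact ⟨fun i hi => (h1 t).1 i (key i hi), fun i hi j hj => (h1 t).2 i (key i hi) j (key j hj)⟩
  · simp only [Fin.addCases_right]
    have key : ∀ i, i ∈ Finset.univ.filter (fun i => (if GoodPin a b P C i then
        Fin.castAdd (6 ^ r) (f1 i) else Fin.natAdd (2 * C + 2) (f2 i)) =
          Fin.natAdd (2 * C + 2) t) →
        i ∈ Finset.univ.filter (fun i => ¬ GoodPin a b P C i) ∧ f2 i = t := by
      intro i hi
      have h3 := (Finset.mem_filter.1 hi).2
      by_cases h4 : GoodPin a b P C i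
      · rw [if_pos h4] at h3
        have h5 := congrArg Fin.val h3
        rw [Fin.val_natAdd, Fin.val_castAdd] at h5
        have := (f1 i).2
        omega
      · rw [if_neg h4] at h3
        exact ⟨Finset.mem_filter.2 ⟨Finset.mem_univ i, h4⟩, Fin.natAdd_injective _ _ h3⟩
    constructor
    · intro i _
      have h3 : (Fintype.equivFin ι i : ℕ) < Fintype.card ι := (Fintype.equivFin ι i).2
      have h4 := h.lt i
      beta_reduce
      rw [dif_pos h3, Fin.eta, Equiv.symm_apply_apply]
      constructor <;> linarith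
    · intro i hi j hj _ hov
      obtain ⟨h3, h4⟩ := key i hi
      obtain ⟨h5, h6⟩ := key j hj
      exact h2 i h3 j h5 hov (h4.trans h6.symm)

end Pool.Agent.Work.MP_e64a38_co.IZ
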