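import Pool.Agent.Work.MP_e64a38_co.IZ.BlkL

/-!
# IZ/PCls (M): intervals separating few pins form few good classes

Proof. D = 2 C + 1. For i in G with at most 2 C points of P inside: class f i = blk P (a i) mod D (in Fin (2 C + 2)), part
g s i = blk P (a i), p s t = the element q of P with blk P q = t (exactly t points of P are smaller), if there is one. The
smallest point q of P inside (a i, b i) has blk P q = blk P (a i) (a i is not in P), so a i < p (g i) < b i. If i, j are in
the same class and in different parts, say blk (a i) + D ≤ blk (a j), then blk (b i) ≤ blk (a i) + 2 C < blk (a j)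
(blk_sub), so b i < a j (blk_mono) and the intervals do not overlap.
The other i in G have more than 2 C points inside, so (GoodPin) at most C points of P outside, and P.card ≥ 2 C + 1.
Put them in the class 2 C + 1 with g s i = 0 and p s 0 = q, the point of P with exactly C smaller points: at most C
points of P are smaller than a i, so a i < q (otherwise the C + 1 points ≤ q are all ≤ a i, so < a i and outside), and
at most C points are larger than b i, while P.card - (C + 1) ≥ C points are larger than q: if b i < q then q and all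
larger points are outside, at least C + 1 points (P.card - C ≥ C + 1), contradiction. There is only one part.
-/

namespace Pool.Agent.Work.MP_e64a38_co.IZ

variable {ι : Type*}

/-- The interval i separates the pins P, and there are at most C pins inside or at most C pins outside. -/
def GoodPin (a b : ι → ℝ) (P : Finset ℝ) (C : ℕ) (i : ι) : Prop :=
  (∃ p ∈ P, a i < p ∧ p < b i) ∧ (∃ p ∈ P, p < a i ∨ b i < p) ∧
    ((P.filter (fun p => a i < p ∧ p < b i)).card ≤ C ∨ (P.filter (fun p => p < a i ∨ b i < p)).card ≤ C)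

private theorem blk_inj (P : Finset ℝ) {q q' : ℝ} (hq : q ∈ P) (hq' : q' ∈ P)
    (h : blk P q = blk P q') : q = q' := by
  rcases lt_trichotomy q q' with h1 | h1 | h1
  · exact absurd h (blk_lt P hq le_rfl h1).ne
  · exact h1
  · exact absurd h (blk_lt P hq' le_rfl h1).ne'

private theorem blk_lt_card (P : Finset ℝ) {q : ℝ} (hq : q ∈ P) : blk P q < P.card := by
  unfold blk
  refine Finset.card_lt_card ?_
  rw [Finset.ssubset_iff_of_subset (Finset.filter_subset _ _)]
  refine ⟨q, hq, ?_⟩
  simp

private theorem exists_blk (P : Finset ℝ) {t : ℕ} (ht : t < P.card) : ∃ q ∈ P, blk P q = t := by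
  have h1 : P.image (blk P) ⊆ Finset.range P.card := by
    intro x hx
    rw [Finset.mem_image] at hx
    obtain ⟨q, hq, rfl⟩ := hx
    exact Finset.mem_range.2 (blk_lt_card P hq)
  have h2 : (P.image (blk P)).card = P.card :=
    Finset.card_image_of_injOn fun q hq q' hq' h => blk_inj P hq hq' h
  have h3 := Finset.eq_of_subset_of_card_le h1 (by rw [h2, Finset.card_range])
  have h4 : t ∈ P.image (blk P) := by
    rw [h3]
    exact Finset.mem_range.2 ht
  rw [Finset.mem_image] at h4
  obtain ⟨q, hq, h5⟩ := h4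
  exact ⟨q, hq, h5⟩

open Classical in
/-- the point of P with exactly t smaller points -/
private noncomputable def pt (P : Finset ℝ) (t : ℕ) : ℝ :=
  if h : ∃ q ∈ P, blk P q = t then h.choose else 0

private theorem pt_blk (P : Finset ℝ) {q : ℝ} (hq : q ∈ P) : pt P (blk P q) = q := by
  have h : ∃ q' ∈ P, blk P q' = blk P q := ⟨q, hq, rfl⟩
  unfold pt
  rw [dif_pos h]
  exact blk_inj P h.choose_spec.1 hq h.choose_spec.2

private theorem first_in {a b : ℝ} (P : Finset ℝ) (ha : ∀ p ∈ P, p ≠ a)
    (h : ∃ p ∈ P, a < p ∧ p < b) : a < pt P (blk P a) ∧ pt P (blk P a) < b := by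
  have hne : (P.filter (fun p => a < p ∧ p < b)).Nonempty := by
    obtain ⟨p, hp, h1⟩ := h
    exact ⟨p, Finset.mem_filter.2 ⟨hp, h1⟩⟩
  set q := (P.filter (fun p => a < p ∧ p < b)).min' hne with hq
  have hqm := Finset.min'_mem _ hne
  rw [← hq, Finset.mem_filter] at hqm
  have h1 : blk P q = blk P a := by
    rw [blk_sub P hqm.2.1.le]
    have h2 : P.filter (fun p => a ≤ p ∧ p < q) = ∅ := by
      rw [Finset.filter_eq_empty_iff]
      rintro p hp ⟨h3, h4⟩
      have h5 : a < p := lt_of_le_of_ne h3 (ha p hp).symm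
      have h6 : p ∈ P.filter (fun p => a < p ∧ p < b) :=
        Finset.mem_filter.2 ⟨hp, h5, h4.trans hqm.2.2⟩
      exact absurd (Finset.min'_le _ _ h6) (not_le.2 h4)
    rw [h2, Finset.card_empty, add_zero]
  rw [← h1, pt_blk P hqm.1]
  exact hqm.2

private theorem blk_b {a b : ℝ} (P : Finset ℝ) (hab : a < b) (ha : ∀ p ∈ P, p ≠ a) :
    blk P b = blk P a + (P.filter (fun p => a < p ∧ p < b)).card := by
  rw [blk_sub P hab.le]
  congr 2
  ext p
  simp only [Finset.mem_filter]
  constructor
  · rintro ⟨h1, h2, h3⟩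
    exact ⟨h1, lt_of_le_of_ne h2 (ha p h1).symm, h3⟩
  · rintro ⟨h1, h2, h3⟩
    exact ⟨h1, h2.le, h3⟩

private theorem far {a b a' : ℝ} (P : Finset ℝ) {C : ℕ} (hab : a < b) (ha : ∀ p ∈ P, p ≠ a)
    (h1 : (P.filter (fun p => a < p ∧ p < b)).card ≤ 2 * C)
    (h2 : blk P a < blk P a') (h3 : blk P a % (2 * C + 1) = blk P a' % (2 * C + 1)) :
    b < a' := by
  have h4 : blk P a + (2 * C + 1) ≤ blk P a' := by
    have h5 : (2 * C + 1) ∣ blk P a' - blk P a := (Nat.modEq_iff_dvd' h2.le).1 h3
    have h6 := Nat.le_of_dvd (by omega) h5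
    omega
  by_contra h
  push Not at h
  have h7 := blk_mono P h
  rw [blk_b P hab ha] at h7
  omega

private theorem mid {a b : ℝ} (P : Finset ℝ) {C : ℕ} (ha : ∀ p ∈ P, p ≠ a) (hb : ∀ p ∈ P, p ≠ b)
    (h1 : 2 * C < (P.filter (fun p => a < p ∧ p < b)).card)
    (h2 : (P.filter (fun p => p < a ∨ b < p)).card ≤ C) : a < pt P C ∧ pt P C < b := by
  have hc : 2 * C < P.card := h1.trans_le (Finset.card_filter_le _ _)
  obtain ⟨q, hq, hqC⟩ := exists_blk P (show C < P.card by omega)
  have h3 : pt P C = q := by
    rw [← hqC]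
    exact pt_blk P hq
  rw [h3]
  constructor
  · by_contra h
    push Not at h
    have h4 : q < a := lt_of_le_of_ne h (ha q hq)
    have h5 := blk_lt P hq le_rfl h4
    have h6 : blk P a ≤ (P.filter (fun p => p < a ∨ b < p)).card := by
      unfold blk
      refine Finset.card_le_card fun p hp => ?_
      simp only [Finset.mem_filter] at hp ⊢
      exact ⟨hp.1, Or.inl hp.2⟩
    omega
  · by_contra h
    push Not at h
    have h5 := blk_mono P h
    have h6 : P.card ≤ blk P b + (P.filter (fun p => p < a ∨ b < p)).card := by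
      unfold blk
      rw [← Finset.card_filter_add_card_filter_not (s := P) (fun p => p < b)]
      refine Nat.add_le_add_left (Finset.card_le_card fun p hp => ?_) _
      simp only [Finset.mem_filter, not_lt] at hp ⊢
      exact ⟨hp.1, Or.inr (lt_of_le_of_ne hp.2 (hb p hp.1).symm)⟩
    omega

open Classical in
theorem pin_classes (a b : ι → ℝ) (G : Finset ι) (P : Finset ℝ) (C : ℕ) (hab : ∀ i ∈ G, a i < b i)
    (hP : ∀ i ∈ G, ∀ p ∈ P, p ≠ a i ∧ p ≠ b i) (hG : ∀ i ∈ G, GoodPin a b P C i) :
    ∃ (f : ι → Fin (2 * C + 2)) (g : Fin (2 * C + 2) → ι → ℕ) (p : Fin (2 * C + 2) → ℕ → ℝ),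
      ∀ s, Good a b (G.filter (fun i => f i = s)) (g s) (p s) := by
  let f : ι → Fin (2 * C + 2) := fun i =>
    if (P.filter (fun p => a i < p ∧ p < b i)).card ≤ 2 * C then
      ⟨blk P (a i) % (2 * C + 1), (Nat.mod_lt _ (by omega)).trans (by omega)⟩
    else Fin.last _
  have hf1 : ∀ i, (P.filter (fun p => a i < p ∧ p < b i)).card ≤ 2 * C →
      (f i : ℕ) = blk P (a i) % (2 * C + 1) := by
    intro i hi
    simp only [f, if_pos hi]
  have hf2 : ∀ i, ¬ (P.filter (fun p => a i < p ∧ p < b i)).card ≤ 2 * C → f i = Fin.last _ := by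
    intro i hi
    simp only [f, if_neg hi]
  have hf3 : ∀ i, f i ≠ Fin.last _ → (P.filter (fun p => a i < p ∧ p < b i)).card ≤ 2 * C := by
    intro i hi
    by_contra h
    exact hi (hf2 i h)
  have hf4 : ∀ i, f i = Fin.last _ → 2 * C < (P.filter (fun p => a i < p ∧ p < b i)).card := by
    intro i hi
    by_contra h
    have h1 := hf1 i (not_lt.1 h)
    rw [hi, Fin.val_last] at h1
    have h2 := Nat.mod_lt (blk P (a i)) (show 0 < 2 * C + 1 by omega)
    omega
  refine ⟨f, fun s i => if s = Fin.last _ then C else blk P (a i), fun _ t => pt P t, ?_⟩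
  intro s
  by_cases hs : s = Fin.last _
  · constructor
    · intro i hi
      rw [Finset.mem_filter] at hi
      dsimp only
      rw [if_pos hs]
      have h1 := hf4 i (hi.2.trans hs)
      obtain ⟨-, -, h2⟩ := hG i hi.1
      refine mid P (fun p hp => (hP i hi.1 p hp).1) (fun p hp => (hP i hi.1 p hp).2) h1 ?_
      rcases h2 with h2 | h2
      · omega
      · exact h2
    · intro i hi j hj h
      dsimp only at h
      rw [if_pos hs, if_pos hs] at h
      exact absurd rfl h
  · constructor
    · intro i hi
      rw [Finset.mem_filter] at hi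
      dsimp only
      rw [if_neg hs]
      exact first_in P (fun p hp => (hP i hi.1 p hp).1) (hG i hi.1).1
    · intro i hi j hj h
      rw [Finset.mem_filter] at hi hj
      dsimp only at h
      rw [if_neg hs, if_neg hs] at h
      have h1 := hf3 i (by rw [hi.2]; exact hs)
      have h2 := hf3 j (by rw [hj.2]; exact hs)
      have h3 : blk P (a i) % (2 * C + 1) = blk P (a j) % (2 * C + 1) := by
        rw [← hf1 i h1, ← hf1 j h2, hi.2, hj.2]
      have hai := hab i hi.1
      have haj := hab j hj.1
      rcases lt_or_gt_of_ne h with h4 | h4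
      · have h5 := far P hai (fun p hp => (hP i hi.1 p hp).1) h1 h4 h3
        rintro (⟨h6, h7, h8⟩ | ⟨h6, h7, h8⟩)
        · linarith
        · linarith
      · have h5 := far P haj (fun p hp => (hP j hj.1 p hp).1) h2 h4 h3.symm
        rintro (⟨h6, h7, h8⟩ | ⟨h6, h7, h8⟩)
        · linarith
        · linarith

end Pool.Agent.Work.MP_e64a38_co.IZ
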