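import Pool.Agent.Work.MP_e64a38_co.IZ.SDefs
import Pool.Agent.Work.MP_e64a38_co.IZ.PCls

/-!
# IZ/PinTr (S): balanced lines are good for the pins in the model

Proof. Positive q are outside and negative q are inside if e i = true, and conversely if e i = false. So there is a pin inside
and a pin outside. If e i = true: a pin X q outside has l i q ≥ 0 (otherwise it is inside), so
card {pins outside} ≤ card {q in Q | 0 ≤ l i q} (Finset.card_image_le), and card {pins inside} ≤ card {q in Q | l i q ≤ 0}.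
The same for e i = false with the two closed sides exchanged.
-/

namespace Pool.Agent.Work.MP_e64a38_co.IZ

variable {n : ℕ}

open Classical in
theorem pin_tr (l : Fin n → Ln) (a b : Fin n → ℝ) (e : Fin n → Bool) (X : ℝ × ℝ → ℝ) (Q : Finset (ℝ × ℝ)) (C : ℕ)
    (i : Fin n) (hX : ∀ q ∈ Q, X q ≠ a i ∧ X q ≠ b i ∧
        ((0 < (l i).ev q ∧ e i = true) ∨ ((l i).ev q < 0 ∧ e i = false) → X q < a i ∨ b i < X q) ∧
        ((0 < (l i).ev q ∧ e i = false) ∨ ((l i).ev q < 0 ∧ e i = true) → a i < X q ∧ X q < b i))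
    (hab : a i < b i) (hB : Balanced l Q C i) : GoodPin a b (Q.image X) C i := by
  obtain ⟨⟨q1, hq1, hp1⟩, ⟨q2, hq2, hp2⟩, hcard⟩ := hB
  have hout : ∀ (U : Finset (ℝ × ℝ)), (∀ q ∈ Q, (X q < a i ∨ b i < X q) → q ∈ U) →
      ((Q.image X).filter (fun p => p < a i ∨ b i < p)).card ≤ U.card := by
    intro U hU
    refine (Finset.card_le_card ?_).trans (Finset.card_image_le (s := U) (f := X))
    intro p hp
    rw [Finset.mem_filter, Finset.mem_image] at hp
    obtain ⟨⟨q, hq, rfl⟩, hp⟩ := hp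
    exact Finset.mem_image_of_mem X (hU q hq hp)
  have hin : ∀ (U : Finset (ℝ × ℝ)), (∀ q ∈ Q, (a i < X q ∧ X q < b i) → q ∈ U) →
      ((Q.image X).filter (fun p => a i < p ∧ p < b i)).card ≤ U.card := by
    intro U hU
    refine (Finset.card_le_card ?_).trans (Finset.card_image_le (s := U) (f := X))
    intro p hp
    rw [Finset.mem_filter, Finset.mem_image] at hp
    obtain ⟨⟨q, hq, rfl⟩, hp⟩ := hp
    exact Finset.mem_image_of_mem X (hU q hq hp)
  cases he : e i with
  | true =>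
    refine ⟨⟨X q2, Finset.mem_image_of_mem X hq2, (hX q2 hq2).2.2.2 (Or.inr ⟨hp2, he⟩)⟩,
      ⟨X q1, Finset.mem_image_of_mem X hq1, (hX q1 hq1).2.2.1 (Or.inl ⟨hp1, he⟩)⟩, ?_⟩
    rcases hcard with h | h
    · refine Or.inr ((hout _ fun q hq hp => ?_).trans h)
      rw [Finset.mem_filter]
      refine ⟨hq, ?_⟩
      by_contra hcon
      push Not at hcon
      have h1 := (hX q hq).2.2.2 (Or.inr ⟨hcon, he⟩)
      rcases hp with hp | hp <;> linarith [h1.1, h1.2]
    · refine Or.inl ((hin _ fun q hq hp => ?_).trans h)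
      rw [Finset.mem_filter]
      refine ⟨hq, ?_⟩
      by_contra hcon
      push Not at hcon
      rcases (hX q hq).2.2.1 (Or.inl ⟨hcon, he⟩) with h1 | h1 <;> linarith [hp.1, hp.2]
  | false =>
    refine ⟨⟨X q1, Finset.mem_image_of_mem X hq1, (hX q1 hq1).2.2.2 (Or.inl ⟨hp1, he⟩)⟩,
      ⟨X q2, Finset.mem_image_of_mem X hq2, (hX q2 hq2).2.2.1 (Or.inr ⟨hp2, he⟩)⟩, ?_⟩
    rcases hcard with h | h
    · refine Or.inl ((hin _ fun q hq hp => ?_).trans h)
      rw [Finset.mem_filter]
      refine ⟨hq, ?_⟩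
      by_contra hcon
      push Not at hcon
      rcases (hX q hq).2.2.1 (Or.inr ⟨hcon, he⟩) with h1 | h1 <;> linarith [hp.1, hp.2]
    · refine Or.inr ((hout _ fun q hq hp => ?_).trans h)
      rw [Finset.mem_filter]
      refine ⟨hq, ?_⟩
      by_contra hcon
      push Not at hcon
      have h1 := (hX q hq).2.2.2 (Or.inl ⟨hcon, he⟩)
      rcases hp with hp | hp <;> linarith [h1.1, h1.2]

end Pool.Agent.Work.MP_e64a38_co.IZ
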