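import Pool.Agent.Work.MP_e64a38_co.IZ.GeoM
import Pool.Agent.Work.MP_e64a38_co.IZ.PinTr
import Pool.Agent.Work.MP_e64a38_co.IZ.MFin
import Pool.Agent.Work.MP_e64a38_co.IZ.Compl

/-!
# IZ/Fin (helper10): the final theorem
-/

namespace Pool.Agent.Work.MP_e64a38_co.IZ

variable {n k : ℕ}

private theorem ptn_inj (e : Fin n → Bool) : Function.Injective (ptn e) := by
  intro s t hst
  funext i
  have h : (i ∈ ptn e s) ↔ (i ∈ ptn e t) := by rw [hst]
  simp only [ptn, Finset.mem_filter, Finset.mem_univ, true_and] at h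
  revert h
  cases s i <;> cases t i <;> cases e i <;> simp

private theorem arith (n k C x : ℕ) (hk : 1 ≤ k) (hx : 1 ≤ x) :
    20 * n + 2 * (2 * C + 2 + x) * (2 * n + 1) + (2 * n + k) ≤ (30 + 4 * x) * (C + 1) * (n + k) := by
  have h1 : 2 * C + 2 + x ≤ (2 + x) * (C + 1) := by nlinarith
  have h2 : 2 * n + 1 ≤ 2 * (n + k) := by omega
  have h3 : 2 * (2 * C + 2 + x) * (2 * n + 1) ≤ 2 * ((2 + x) * (C + 1)) * (2 * (n + k)) :=
    Nat.mul_le_mul (Nat.mul_le_mul le_rfl h1) h2
  have h4 : 22 * (n + k) ≤ 22 * ((C + 1) * (n + k)) := by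
    have : n + k ≤ (C + 1) * (n + k) := Nat.le_mul_of_pos_left _ (by omega)
    omega
  have h5 : (30 + 4 * x) * (C + 1) * (n + k)
      = 2 * ((2 + x) * (C + 1)) * (2 * (n + k)) + 22 * ((C + 1) * (n + k)) := by ring
  omega

theorem zone_bound (r C : ℕ) (l : Fin n → Ln) (h : Fin k → Ln) (hP : IsPolygon h)
    (hl : Function.Injective (fun i => (l i).pts)) (hm : ∀ i, ((l i).pts ∩ inn h).Nonempty)
    (Q : Finset (ℝ × ℝ)) (hQ : ∀ q ∈ Q, q ∈ bd h)
    (hT : ∀ T : Finset (Fin n), (∀ i ∈ T, ¬ Balanced l Q C i) →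
      (∀ i ∈ T, ∀ j ∈ T, i ≠ j → CrossIn l h i j) → T.card ≤ r) :
    zoneComplexity l h ≤ (30 + 4 * 6 ^ r) * (C + 1) * (n + k) := by
  classical
  obtain ⟨m, c, a, b, F, e, X, hM, hcr, hz, he, hX⟩ := geo_model l h hP hl hm Q hQ
  have hk : 0 < k := polygon_pos hP
  have h1 := compl_le l h hP hl hm
  have h2 : ∑ s ∈ Finset.univ.filter (fun s : Fin n → Bool => ZonG l h s),
      (Finset.univ.filter (fun i : Fin n => EdgG l h s i)).card
      ≤ ∑ σ ∈ zon a b, nE m c F Finset.univ Finset.univ σ := by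
    calc ∑ s ∈ Finset.univ.filter (fun s : Fin n → Bool => ZonG l h s),
          (Finset.univ.filter (fun i : Fin n => EdgG l h s i)).card
        ≤ ∑ s ∈ Finset.univ.filter (fun s : Fin n → Bool => ZonG l h s),
          nE m c F Finset.univ Finset.univ (ptn e s) := by
          refine Finset.sum_le_sum fun s _ => ?_
          unfold nE
          refine Finset.card_le_card fun i hi => ?_
          simp only [Finset.mem_filter, Finset.mem_univ, true_and] at hi ⊢
          exact he s i hi
      _ = ∑ σ ∈ (Finset.univ.filter (fun s : Fin n → Bool => ZonG l h s)).image (ptn e),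
          nE m c F Finset.univ Finset.univ σ := by
          rw [Finset.sum_image (fun s _ t _ hst => ptn_inj e hst)]
      _ ≤ ∑ σ ∈ zon a b, nE m c F Finset.univ Finset.univ σ := by
          refine Finset.sum_le_sum_of_subset fun σ hσ => ?_
          obtain ⟨s, hs, rfl⟩ := Finset.mem_image.mp hσ
          simp only [Finset.mem_filter, Finset.mem_univ, true_and] at hs
          exact hz s hs
  have h3 := model_final hM r C (Q.image X) (by
    intro i p hp
    obtain ⟨q, hq, rfl⟩ := Finset.mem_image.mp hp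
    exact ⟨(hX q hq i).1, (hX q hq i).2.1⟩) (by
    intro T hTs hTo
    have hb : ∀ i ∈ T, ¬ Balanced l Q C i := by
      intro i hi hbal
      have hi' := hTs hi
      simp only [Finset.mem_filter, Finset.mem_univ, true_and] at hi'
      exact hi' (pin_tr l a b e X Q C i (fun q hq => hX q hq i) (hM.lt i) hbal)
    have := hT T hb (fun i hi j hj hij => (hcr i j hij).mpr ((cross hM hij).mp (hTo i hi j hj hij)))
    omega)
  rw [Fintype.card_fin] at h3
  have h4 := arith n k C (6 ^ r) hk (Nat.one_le_pow _ _ (by norm_num))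
  omega

end Pool.Agent.Work.MP_e64a38_co.IZ
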