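import Pool.Agent.Work.MP_e64a38_co.IZ.Bdry
import Pool.Agent.Work.MP_e64a38_co.IZ.Base
import Pool.Agent.Work.MP_e64a38_co.IZ.EdgeP
import Pool.Agent.Work.MP_e64a38_co.IZ.Defs

/-!
# IZ/GeoM (M-L): from the polygon to the epigraph model

Proof. base gives j0, x0; exists_F gives F. Put m i = sl (h j0) x0 (l i), c i = ct (h j0) x0 (l i), e i = (0 < l i x0 as a Bool).
For p in inn h with X = u / y, Y = 1 / y (y > 0) coord_model gives l i p = y * l i x0 * (Y - (m i X + c i)); conversely every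
(X, Y) with F X < Y (so Y > 0) comes from a point p in inn h (coord_surj with y = 1 / Y, u = X / Y).
The conditions on ε (all eventually true in 𝓝[>] 0, finitely many, so one ε > 0 satisfies all of them):
(1) for every i the interval of the line i (eps_interval; a point of l i in inn h gives F X < m i X + c i = Y);
(2) no ties for i ≠ j (eps_tie, coord_ne and hl);
(3) for every pair i ≠ j with CrossIn choose p in inn h on both lines: Ft F ε X < m i X + c i there (eps_pt);
(4) for every pair (s, i) with EdgG choose the point p: Ft F ε X < m i X + c i there (eps_pt);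
(5) for every s with ZonG choose a side j and T ≠ x0 (sup_ne) and use bdry;
(6) for every q in Q choose j, T by pin_pert and use bdry.
With this ε put F' = Ft F ε, a i, b i from (1). Mdl: lt, mem, ea, eb by (1); ne for i = j since a i < b i, ne, nea, neb for
i ≠ j by (2). CrossIn → a common point above F' by (3); conversely a common point (X, m i X + c i) above F' is above F
(F ≤ F'), so it comes from a point of inn h on both lines. ZonG s → ptn e s ∈ zon: X from (5), for every i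
0 < sb (s i) * l i T, so sb (s i) * l i x0 * (F' X - (m i X + c i)) > 0: i in ptn (s i ≠ e i) iff F' X < m i X + c i iff
a i < X < b i; X ≠ a i, b i since F' X ≠ m i X + c i. EdgG s i → Edg: x = X of the point of (4), and for j ≠ i:
0 < sb (s j) * l j p = sb (s j) * y * l j x0 * (m i X + c i - (m j X + c j)), i.e. 0 < sg (ptn e s) j * (m j X + c j - (m i X + c i)).
Last part: X q from (6).
-/

open Filter Topology

namespace Pool.Agent.Work.MP_e64a38_co.IZ

variable {n k : ℕ}

private theorem gm_pt (h0 l' : Ln) (x0 p : ℝ × ℝ) (hz : h0.ev x0 = 0) (hl : l'.ev x0 ≠ 0)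
    (hy : 0 < yv h0 p) (h0' : l'.ev p = 0) :
    1 / yv h0 p = sl h0 x0 l' * (uv h0 x0 p / yv h0 p) + ct h0 x0 l' := by
  have h1 := coord_model h0 l' x0 p hz hl hy
  rw [h0'] at h1
  have h2 : yv h0 p * l'.ev x0 ≠ 0 := mul_ne_zero hy.ne' hl
  have h3 := (mul_eq_zero.1 h1.symm).resolve_left h2
  linarith

private theorem gm_surj (h0 : Ln) (x0 : ℝ × ℝ) (hz : h0.ev x0 = 0) (X Y : ℝ) (hY : 0 < Y) :
    ∃ p, 0 < yv h0 p ∧ uv h0 x0 p / yv h0 p = X ∧ 1 / yv h0 p = Y := by
  obtain ⟨p, hu, hy⟩ := coord_surj h0 x0 hz (X / Y) (1 / Y)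
  have hY' : 0 < 1 / Y := by positivity
  refine ⟨p, by rw [hy]; exact hY', ?_, ?_⟩
  · rw [hu, hy]
    field_simp
  · rw [hy, one_div_one_div]

private theorem gm_sb (s : Bool) (x : ℝ) (h : x ≠ 0) :
    (s = decide (0 < x) → 0 < sb s * x) ∧ (s ≠ decide (0 < x) → sb s * x < 0) := by
  unfold sb
  rcases lt_or_gt_of_ne h with h1 | h1
  · have h2 : decide (0 < x) = false := by simp [h1.le]
    rw [h2]
    cases s
    · exact ⟨fun _ => by simpa using h1, fun h3 => absurd rfl h3⟩
    · exact ⟨fun h3 => by simp at h3, fun _ => by simpa using h1⟩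
  · have h2 : decide (0 < x) = true := by simp [h1]
    rw [h2]
    cases s
    · exact ⟨fun h3 => by simp at h3, fun _ => by simpa using h1⟩
    · exact ⟨fun _ => by simpa using h1, fun h3 => absurd rfl h3⟩

theorem geo_model (l : Fin n → Ln) (h : Fin k → Ln) (hP : IsPolygon h)
    (hl : Function.Injective (fun i => (l i).pts)) (hm : ∀ i, ((l i).pts ∩ inn h).Nonempty)
    (Q : Finset (ℝ × ℝ)) (hQ : ∀ q ∈ Q, q ∈ bd h) :
    ∃ (m c a b : Fin n → ℝ) (F : ℝ → ℝ) (e : Fin n → Bool) (X : ℝ × ℝ → ℝ), Mdl m c a b F ∧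
      (∀ i j, i ≠ j → (CrossIn l h i j ↔ ∃ x, F x < m i * x + c i ∧ m i * x + c i = m j * x + c j)) ∧
      (∀ s, ZonG l h s → ptn e s ∈ zon a b) ∧
      (∀ s i, EdgG l h s i → Edg m c F Finset.univ (ptn e s) i) ∧
      (∀ q ∈ Q, ∀ i, X q ≠ a i ∧ X q ≠ b i ∧
        ((0 < (l i).ev q ∧ e i = true) ∨ ((l i).ev q < 0 ∧ e i = false) → X q < a i ∨ b i < X q) ∧
        ((0 < (l i).ev q ∧ e i = false) ∨ ((l i).ev q < 0 ∧ e i = true) → a i < X q ∧ X q < b i)) := by
  classical
  obtain ⟨j0, x0, hx0, hl0, -⟩ := base l h hP hm Q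
  obtain ⟨F, hF1, hFc, hF3, hF4, hF5⟩ := exists_F h j0 x0 hx0
  have hz : (h j0).ev x0 = 0 := hx0.1
  obtain ⟨m, hmdef⟩ : ∃ m : Fin n → ℝ, ∀ i, m i = sl (h j0) x0 (l i) := ⟨_, fun _ => rfl⟩
  obtain ⟨c, hcdef⟩ : ∃ c : Fin n → ℝ, ∀ i, c i = ct (h j0) x0 (l i) := ⟨_, fun _ => rfl⟩
  -- points of the polygon and the model
  have hA : ∀ i p, p ∈ inn h → (l i).ev p = 0 →
      0 < yv (h j0) p ∧ F (uv (h j0) x0 p / yv (h j0) p) <
        m i * (uv (h j0) x0 p / yv (h j0) p) + c i ∧
      1 / yv (h j0) p = m i * (uv (h j0) x0 p / yv (h j0) p) + c i := by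
    intro i p hp hlp
    obtain ⟨h1, h2⟩ := (hF4 p).1 hp
    have h3 := gm_pt (h j0) (l i) x0 p hz (hl0 i) h1 hlp
    rw [← hmdef, ← hcdef] at h3
    exact ⟨h1, h3 ▸ h2, h3⟩
  have hB : ∀ X Y : ℝ, F X < Y → ∃ p ∈ inn h, 0 < yv (h j0) p ∧
      uv (h j0) x0 p / yv (h j0) p = X ∧ 1 / yv (h j0) p = Y := by
    intro X Y hXY
    have hY : 0 < Y := lt_of_le_of_lt (hF3 X) hXY
    obtain ⟨p, h1, h2, h3⟩ := gm_surj (h j0) x0 hz X Y hY
    exact ⟨p, (hF4 p).2 ⟨h1, by rw [h2, h3]; exact hXY⟩, h1, h2, h3⟩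
  have hC : ∀ i p, 0 < yv (h j0) p → (l i).ev p = yv (h j0) p * (l i).ev x0 *
      (1 / yv (h j0) p - (m i * (uv (h j0) x0 p / yv (h j0) p) + c i)) := by
    intro i p hy
    rw [hmdef, hcdef]
    exact coord_model (h j0) (l i) x0 p hz (hl0 i) hy
  -- the conditions on ε
  have E1 : ∀ᶠ ε in 𝓝[>] (0 : ℝ), ∀ i, ∃ a b, a < b ∧
      (∀ x, Ft F ε x < m i * x + c i ↔ (a < x ∧ x < b)) ∧
      Ft F ε a = m i * a + c i ∧ Ft F ε b = m i * b + c i := by
    rw [Filter.eventually_all]
    intro i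
    obtain ⟨p, hp1, hp2⟩ := hm i
    obtain ⟨-, h1, -⟩ := hA i p hp2 hp1
    exact eps_interval F hF1 hFc hF3 (m i) (c i) _ h1
  have E2 : ∀ᶠ ε in 𝓝[>] (0 : ℝ), ∀ i j, i ≠ j →
      ∀ x, ¬ (Ft F ε x = m i * x + c i ∧ Ft F ε x = m j * x + c j) := by
    rw [Filter.eventually_all]
    intro i
    rw [Filter.eventually_all]
    intro j
    by_cases hij : i = j
    · exact Filter.Eventually.of_forall fun ε h1 => absurd hij h1
    · have hne : (l i).pts ≠ (l j).pts := fun h1 => hij (hl h1)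
      have h1 := coord_ne (h j0) (l i) (l j) x0 hz (hl0 i) (hl0 j) hne
      rw [← hmdef, ← hmdef, ← hcdef, ← hcdef] at h1
      filter_upwards [eps_tie F (m i) (c i) (m j) (c j) h1] with ε h2 _
      exact h2
  have E3 : ∀ᶠ ε in 𝓝[>] (0 : ℝ), ∀ i j, CrossIn l h i j →
      ∃ x, Ft F ε x < m i * x + c i ∧ m i * x + c i = m j * x + c j := by
    rw [Filter.eventually_all]
    intro i
    rw [Filter.eventually_all]
    intro j
    by_cases hij : CrossIn l h i j
    · obtain ⟨p, hp, h1, h2⟩ := hij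
      obtain ⟨-, h3, h4⟩ := hA i p hp h1
      obtain ⟨-, -, h5⟩ := hA j p hp h2
      filter_upwards [eps_pt F _ _ h3] with ε h6 _
      exact ⟨_, h6, h4.symm.trans h5⟩
    · exact Filter.Eventually.of_forall fun ε h1 => absurd h1 hij
  have E4 : ∀ᶠ ε in 𝓝[>] (0 : ℝ), ∀ (s : Fin n → Bool) (i : Fin n), EdgG l h s i →
      ∃ p ∈ inn h, (l i).ev p = 0 ∧ (∀ j, j ≠ i → 0 < sb (s j) * (l j).ev p) ∧
        Ft F ε (uv (h j0) x0 p / yv (h j0) p) <
          m i * (uv (h j0) x0 p / yv (h j0) p) + c i := by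
    rw [Filter.eventually_all]
    intro s
    rw [Filter.eventually_all]
    intro i
    by_cases hij : EdgG l h s i
    · obtain ⟨p, hp, h1, h2⟩ := hij
      obtain ⟨-, h3, -⟩ := hA i p hp h1
      filter_upwards [eps_pt F _ _ h3] with ε h6 _
      exact ⟨p, hp, h1, h2, h6⟩
    · exact Filter.Eventually.of_forall fun ε h1 => absurd h1 hij
  have E5 : ∀ᶠ ε in 𝓝[>] (0 : ℝ), ∀ s : Fin n → Bool, ZonG l h s →
      ∃ X, ∀ i, 0 < sb (s i) * ((l i).ev x0 * (Ft F ε X - (m i * X + c i))) := by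
    rw [Filter.eventually_all]
    intro s
    by_cases hs : ZonG l h s
    · obtain ⟨-, j, hj⟩ := hs
      obtain ⟨T, hT1, hT2, hT3⟩ := sup_ne l h x0 s j hj
      have hT4 : ∀ i, (l i).ev T ≠ 0 := by
        intro i hi
        have := hT3 i
        rw [hi, mul_zero] at this
        exact lt_irrefl _ this
      filter_upwards [bdry l h j0 x0 hx0 hl0 F hF1 hF3 hF4 hF5 j T hT2 hT1 hT4] with ε h1 _
      obtain ⟨X, hX⟩ := h1
      refine ⟨X, fun i => ?_⟩
      have h2 := hX i
      rw [← hmdef, ← hcdef] at h2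
      have h3 := mul_pos (hT3 i) h2
      have h4 : 0 < (l i).ev T ^ 2 := by
        have := hT4 i
        positivity
      have h5 : sb (s i) * (l i).ev T * ((l i).ev T * ((l i).ev x0 *
          (Ft F ε X - (m i * X + c i)))) = (l i).ev T ^ 2 *
          (sb (s i) * ((l i).ev x0 * (Ft F ε X - (m i * X + c i)))) := by ring
      rw [h5] at h3
      exact (mul_pos_iff_of_pos_left h4).1 h3
    · exact Filter.Eventually.of_forall fun ε h1 => absurd h1 hs
  have E6 : ∀ᶠ ε in 𝓝[>] (0 : ℝ), ∀ q ∈ Q, ∃ X, ∀ i,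
      (l i).ev x0 * (Ft F ε X - (m i * X + c i)) ≠ 0 ∧
      (0 < (l i).ev q → 0 < (l i).ev x0 * (Ft F ε X - (m i * X + c i))) ∧
      ((l i).ev q < 0 → (l i).ev x0 * (Ft F ε X - (m i * X + c i)) < 0) := by
    rw [Filter.eventually_all_finset]
    intro q hq
    obtain ⟨j, T, hT1, hT2, hT4, hT3⟩ := pin_pert l h hP hm x0 q (hQ q hq)
    filter_upwards [bdry l h j0 x0 hx0 hl0 F hF1 hF3 hF4 hF5 j T hT2 hT1 hT4] with ε h1
    obtain ⟨X, hX⟩ := h1
    refine ⟨X, fun i => ?_⟩
    have h2 := hX i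
    rw [← hmdef, ← hcdef] at h2
    refine ⟨fun h3 => ?_, fun h3 => ?_, fun h3 => ?_⟩
    · rw [h3, mul_zero] at h2
      exact lt_irrefl _ h2
    · exact (mul_pos_iff_of_pos_left ((hT3 i).1 h3)).1 h2
    · have h4 := (hT3 i).2 h3
      by_contra h5
      push Not at h5
      have := mul_nonpos_of_nonpos_of_nonneg h4.le h5
      linarith
  have E7 : ∀ᶠ ε in 𝓝[>] (0 : ℝ), 0 < ε := self_mem_nhdsWithin
  obtain ⟨ε, e1, e2, e3, e4, e5, e6, e7⟩ :=
    (E1.and (E2.and (E3.and (E4.and (E5.and (E6.and E7)))))).exists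
  choose a b hab hmem hea heb using e1
  have hX : ∀ q, ∃ X, q ∈ Q → ∀ i,
      (l i).ev x0 * (Ft F ε X - (m i * X + c i)) ≠ 0 ∧
      (0 < (l i).ev q → 0 < (l i).ev x0 * (Ft F ε X - (m i * X + c i))) ∧
      ((l i).ev q < 0 → (l i).ev x0 * (Ft F ε X - (m i * X + c i)) < 0) := by
    intro q
    by_cases hq : q ∈ Q
    · obtain ⟨X, hX⟩ := e6 q hq
      exact ⟨X, fun _ => hX⟩
    · exact ⟨0, fun h1 => absurd h1 hq⟩
  choose X hX using hX
  have hFle : ∀ x, F x ≤ Ft F ε x := by
    intro x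
    unfold Ft
    have : 0 ≤ ε * (1 + x ^ 2) := by positivity
    linarith
  have hout : ∀ i x, m i * x + c i < Ft F ε x → x < a i ∨ b i < x := by
    intro i x hx
    by_contra hcon
    push Not at hcon
    obtain ⟨h1, h2⟩ := hcon
    have h3 : ¬ (a i < x ∧ x < b i) := fun h4 => absurd ((hmem i x).2 h4) (not_lt.2 hx.le)
    rcases lt_or_eq_of_le h1 with h4 | h4
    · rcases lt_or_eq_of_le h2 with h5 | h5
      · exact h3 ⟨h4, h5⟩
      · rw [h5, heb i] at hx
        exact lt_irrefl _ hx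
    · rw [← h4, hea i] at hx
      exact lt_irrefl _ hx
  refine ⟨m, c, a, b, Ft F ε, fun i => decide (0 < (l i).ev x0), X, ?_, ?_, ?_, ?_, ?_⟩
  · refine ⟨hab, hmem, hea, heb, ?_, ?_, ?_⟩
    · intro i j h1
      by_cases hij : i = j
      · subst hij
        exact absurd h1 (hab i).ne
      · exact e2 i j hij (a i) ⟨hea i, by rw [h1]; exact heb j⟩
    · intro i j hij h1
      exact e2 i j hij (a i) ⟨hea i, by rw [h1]; exact hea j⟩
    · intro i j hij h1
      exact e2 i j hij (b i) ⟨heb i, by rw [h1]; exact heb j⟩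
  · intro i j _
    constructor
    · exact e3 i j
    · rintro ⟨x, h1, h2⟩
      obtain ⟨p, hp, hy, hu, hv⟩ := hB x (m i * x + c i) (lt_of_le_of_lt (hFle x) h1)
      refine ⟨p, hp, ?_, ?_⟩
      · rw [hC i p hy, hu, hv, sub_self, mul_zero]
      · rw [hC j p hy, hu, hv, h2, sub_self, mul_zero]
  · intro s hs
    obtain ⟨x, hx⟩ := e5 s hs
    unfold zon
    rw [Finset.mem_filter]
    refine ⟨Finset.mem_univ _, x, fun i _ => ⟨?_, ?_⟩, fun i => ?_⟩
    · intro h1
      have h2 := hx i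
      rw [h1, hea i, sub_self, mul_zero, mul_zero] at h2
      exact lt_irrefl _ h2
    · intro h1
      have h2 := hx i
      rw [h1, heb i, sub_self, mul_zero, mul_zero] at h2
      exact lt_irrefl _ h2
    · have h2 := hx i
      rw [← mul_assoc] at h2
      obtain ⟨k1, k2⟩ := gm_sb (s i) ((l i).ev x0) (hl0 i)
      rw [← hmem i x]
      unfold ptn
      rw [Finset.mem_filter]
      constructor
      · rintro ⟨-, h3⟩
        refine ⟨Finset.mem_univ _, ?_⟩
        have h4 := k2 h3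
        by_contra h5
        push Not at h5
        have := mul_nonpos_of_nonpos_of_nonneg h4.le (sub_nonneg.2 h5)
        linarith
      · rintro ⟨-, h3⟩
        refine ⟨Finset.mem_univ _, fun h4 => ?_⟩
        have h5 := k1 h4
        have := mul_neg_of_pos_of_neg h5 (sub_neg.2 h3)
        linarith
  · intro s i hs
    obtain ⟨p, hp, h1, h2, h3⟩ := e4 s i hs
    obtain ⟨hy, -, h4⟩ := hA i p hp h1
    refine ⟨_, h3, fun j _ hj => ?_⟩
    have h5 := h2 j hj
    rw [hC j p hy, h4] at h5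
    obtain ⟨k1, k2⟩ := gm_sb (s j) ((l j).ev x0) (hl0 j)
    set x := uv (h j0) x0 p / yv (h j0) p with hx
    have h6 : 0 < yv (h j0) p * ((sb (s j) * (l j).ev x0) *
        ((m i * x + c i) - (m j * x + c j))) := by
      have : sb (s j) * (yv (h j0) p * (l j).ev x0 * (m i * x + c i - (m j * x + c j))) =
        yv (h j0) p * ((sb (s j) * (l j).ev x0) * ((m i * x + c i) - (m j * x + c j))) := by ring
      rw [← this]
      exact h5
    have h7 := (mul_pos_iff_of_pos_left hy).1 h6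
    unfold sg
    by_cases hj2 : j ∈ ptn (fun i => decide (0 < (l i).ev x0)) s
    · rw [if_pos hj2, one_mul]
      have h8 : s j ≠ decide (0 < (l j).ev x0) := (Finset.mem_filter.1 hj2).2
      have h9 := k2 h8
      by_contra h10
      push Not at h10
      have := mul_nonpos_of_nonpos_of_nonneg h9.le
        (show 0 ≤ (m i * x + c i) - (m j * x + c j) by linarith)
      linarith
    · rw [if_neg hj2]
      have h8 : s j = decide (0 < (l j).ev x0) := by
        by_contra h9
        exact hj2 (Finset.mem_filter.2 ⟨Finset.mem_univ _, h9⟩)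
      have h9 := k1 h8
      have h10 := (mul_pos_iff_of_pos_left h9).1 h7
      linarith
  · intro q hq i
    obtain ⟨h1, h2, h3⟩ := hX q hq i
    refine ⟨fun h4 => ?_, fun h4 => ?_, fun h4 => ?_, fun h4 => ?_⟩
    · rw [h4, hea i, sub_self, mul_zero] at h1
      exact h1 rfl
    · rw [h4, heb i, sub_self, mul_zero] at h1
      exact h1 rfl
    · apply hout i
      rcases h4 with ⟨h5, h6⟩ | ⟨h5, h6⟩
      · have h7 : 0 < (l i).ev x0 := by simpa using h6
        have h8 := (mul_pos_iff_of_pos_left h7).1 (h2 h5)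
        linarith
      · have h7 : (l i).ev x0 < 0 := lt_of_le_of_ne (by simpa using h6) (hl0 i)
        have h8 := h3 h5
        by_contra h9
        push Not at h9
        have := mul_nonneg_of_nonpos_of_nonpos h7.le (sub_nonpos.2 h9)
        linarith
    · rw [← hmem i (X q)]
      rcases h4 with ⟨h5, h6⟩ | ⟨h5, h6⟩
      · have h7 : (l i).ev x0 < 0 := lt_of_le_of_ne (by simpa using h6) (hl0 i)
        have h8 := h2 h5
        by_contra h9
        push Not at h9
        have := mul_nonpos_of_nonpos_of_nonneg h7.le (sub_nonneg.2 h9)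
        linarith
      · have h7 : 0 < (l i).ev x0 := by simpa using h6
        have h8 := h3 h5
        by_contra h9
        push Not at h9
        have := mul_nonneg h7.le (sub_nonneg.2 h9)
        linarith

end Pool.Agent.Work.MP_e64a38_co.IZ
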