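import Pool.Agent.Work.MP_e64a38_co.IZ.Defs

/-!
# IZ/KI (S-M): key lemmas of type I (cells that touch the graph of F left of the common point p)

v i x = m i * x + c i, A a family with a i < p < b i for all i in A. R = {i in A | a i < x0}, x0 ≤ p.
kI_up. i, k in R are different, xi, xk < p witnesses for the edges of R on i and k, xk < xi, and R' ⊇ R the pattern of
x0' ≤ p, R' ≠ R. Then R' has no edge on k with a witness x' < p. Proof: let j in R' \ R, so x0 < a j < p (a j < x0' ≤ p,
x0 ≠ a j), a i, a k < x0 < a j. Suppose x' is a witness for (R', k): v k < v j and v k < v i at x', F < v k at x'. Witness xi: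
v i < v k and v j < v i at xi (j is not in R). Witness xk: v k < v i, v j < v k at xk. At a j: v j = F < v i and
v j = F < v k, since a i < a j < p < b i, a k < a j < p < b k. F < v k < v j at x' gives a j < x'. v j - v k is negative at a j,
positive at x' > a j, so increasing; v i - v k is positive at xk and x' and negative at xi > xk, so decreasing, so x' < xi,
and it vanishes at some s with x' < s < xi (s > x' since it is positive at x'). At s: v j - v k > 0 (s > x'), so
v j - v i > 0 at s. But v j - v i is negative at a j < s and at xi > s: contradiction (affine).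
kI_low. i, k in A \ R different, xi, xk < p witnesses of (R, i), (R, k), xk < xi, R' the pattern of x0' < x0,
R' ≠ R (so R' ⊆ R). Then R' has no edge on k with a witness x' < p. Proof: j in R \ R', so x0' < a j < x0 ≤ p and
a j < a i, a k (a i > x0 as i is not in R, a i < p). Witness xi: v k < v i, v i < v j. Witness xk: v i < v k, v k < v j.
Witness x' of (R', k): v j < v k, v i < v k, F < v k. At a k: v k = F < v j (a j < a k < p < b j), at a i: v i = F < v j.
x' > a k (mem). v k - v j is negative at a k, positive at x' > a k: increasing; negative at xk, so xk < x'. v i - v k is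
negative at xk, x' and positive at xi > xk: increasing, x' < xi, vanishes at some s, x' < s < xi. At s: v i = v k > v j.
v j > F at s: s > x' > a k > a j and s < p < b j. So v i > F at s, hence a i < s. v i - v j is negative at a i, positive at
s, negative at xi: contradiction.
-/

namespace Pool.Agent.Work.MP_e64a38_co.IZ

variable {ι : Type*} {m c a b : ι → ℝ} {F : ℝ → ℝ}

/-- xk is a witness for an edge of the cell R on the line k, left of p. -/
def WL (m c : ι → ℝ) (F : ℝ → ℝ) (p : ℝ) (A R : Finset ι) (k : ι) (x : ℝ) : Prop :=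
  x < p ∧ F x < m k * x + c k ∧ ∀ j ∈ A, j ≠ k → 0 < sg R j * ((m j * x + c j) - (m k * x + c k))

private theorem sg_mem {R : Finset ι} {j : ι} (hj : j ∈ R) : sg R j = 1 := by
  unfold sg
  rw [if_pos hj]

private theorem sg_not {R : Finset ι} {j : ι} (hj : j ∉ R) : sg R j = -1 := by
  unfold sg
  rw [if_neg hj]

theorem kI_up (h : Mdl m c a b F) (A R R' : Finset ι) (p x0 x0' xi xk x' : ℝ) (hp : ∀ i ∈ A, a i < p ∧ p < b i)
    (h0 : x0 ≤ p) (h0' : x0' ≤ p) (hR : Tr a b A R x0) (hR' : Tr a b A R' x0') (hlt : x0 < x0') (hne : R ≠ R')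
    {i k : ι} (hi : i ∈ R) (hk : k ∈ R) (hik : i ≠ k) (wi : WL m c F p A R i xi) (wk : WL m c F p A R k xk)
    (hx : xk < xi) : ¬ WL m c F p A R' k x' := by
  rintro ⟨-, hFk, hw⟩
  obtain ⟨hiA, hi0, -⟩ := (hR.2 i).1 hi
  obtain ⟨hkA, hk0, -⟩ := (hR.2 k).1 hk
  have hsub : R ⊆ R' := by
    intro l hl
    obtain ⟨hlA, hl0, -⟩ := (hR.2 l).1 hl
    exact (hR'.2 l).2 ⟨hlA, hl0.trans hlt, h0'.trans_lt (hp l hlA).2⟩
  obtain ⟨j, hj', hj⟩ : ∃ j ∈ R', j ∉ R := by
    by_contra hc
    push Not at hc
    exact hne (Finset.Subset.antisymm hsub hc)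
  obtain ⟨hjA, hj0, -⟩ := (hR'.2 j).1 hj'
  have hxj : x0 ≤ a j := by
    by_contra hc
    push Not at hc
    exact hj ((hR.2 j).2 ⟨hjA, hc, h0.trans_lt (hp j hjA).2⟩)
  have hjk : j ≠ k := fun e => hj (e ▸ hk)
  have hji : j ≠ i := fun e => hj (e ▸ hi)
  have w1 := hw j hjA hjk
  rw [sg_mem hj'] at w1
  have w2 := hw i hiA hik
  rw [sg_mem (hsub hi)] at w2
  have w3 := wi.2.2 k hkA hik.symm
  rw [sg_mem hk] at w3
  have w4 := wi.2.2 j hjA hji
  rw [sg_not hj] at w4
  have w5 := wk.2.2 i hiA hik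
  rw [sg_mem hi] at w5
  have e1 := h.ea j
  have e2 : F (a j) < m k * a j + c k :=
    (h.mem k (a j)).2 ⟨by linarith, by linarith [(hp k hkA).2]⟩
  have e3 : a j < x' := ((h.mem j x').1 (by linarith)).1
  -- slope of `v j - v k` is positive
  have s1 : 0 < m j - m k := by
    by_contra hc
    push Not at hc
    nlinarith
  have s2 : x' < xi := by
    by_contra hc
    push Not at hc
    rcases le_or_gt 0 (m i - m k) with hs | hs
    · nlinarith
    · nlinarith
  nlinarith

theorem kI_low (h : Mdl m c a b F) (A R R' : Finset ι) (p x0 x0' xi xk x' : ℝ) (hp : ∀ i ∈ A, a i < p ∧ p < b i)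
    (h0 : x0 ≤ p) (hR : Tr a b A R x0) (hR' : Tr a b A R' x0') (hlt : x0' < x0) (hne : R ≠ R')
    {i k : ι} (hiA : i ∈ A) (hkA : k ∈ A) (hi : i ∉ R) (hk : k ∉ R) (hik : i ≠ k) (wi : WL m c F p A R i xi)
    (wk : WL m c F p A R k xk) (hx : xk < xi) : ¬ WL m c F p A R' k x' := by
  rintro ⟨-, hFk, hw⟩
  have hsub : R' ⊆ R := by
    intro l hl
    obtain ⟨hlA, hl0, -⟩ := (hR'.2 l).1 hl
    exact (hR.2 l).2 ⟨hlA, hl0.trans hlt, h0.trans_lt (hp l hlA).2⟩
  obtain ⟨j, hj, hj'⟩ : ∃ j ∈ R, j ∉ R' := by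
    by_contra hc
    push Not at hc
    exact hne (Finset.Subset.antisymm hc hsub)
  obtain ⟨hjA, hj0, -⟩ := (hR.2 j).1 hj
  have hxk : x0 ≤ a k := by
    by_contra hc
    push Not at hc
    exact hk ((hR.2 k).2 ⟨hkA, hc, h0.trans_lt (hp k hkA).2⟩)
  have hjk : j ≠ k := fun e => hk (e ▸ hj)
  have hji : j ≠ i := fun e => hi (e ▸ hj)
  have w1 := hw j hjA hjk
  rw [sg_not hj'] at w1
  have w2 := hw i hiA hik
  rw [sg_not (fun hc => hi (hsub hc))] at w2
  have w3 := wi.2.2 k hkA hik.symm
  rw [sg_not hk] at w3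
  have w4 := wi.2.2 j hjA hji
  rw [sg_mem hj] at w4
  have w5 := wk.2.2 i hiA hik
  rw [sg_not hi] at w5
  have e1 := h.ea k
  have e2 : F (a k) < m j * a k + c j :=
    (h.mem j (a k)).2 ⟨by linarith, by linarith [(hp k hkA).1, (hp j hjA).2]⟩
  have e3 : a k < x' := ((h.mem k x').1 hFk).1
  have s1 : 0 < m k - m j := by
    by_contra hc
    push Not at hc
    nlinarith
  have s2 : x' < xi := by
    by_contra hc
    push Not at hc
    rcases le_or_gt 0 (m i - m k) with hs | hs
    · nlinarith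
    · nlinarith
  nlinarith

end Pool.Agent.Work.MP_e64a38_co.IZ
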