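import Pool.Agent.Work.MP_e64a38_co.IZ.KI

/-!
# IZ/KII (S): key lemmas of type II (cells that touch the vertical line x = p)

v i x = m i * x + c i. The patterns are R = {i in A | y < v i p} (TrV).
kII_up. i, k in R different, xi < xk < p witnesses of (R, i), (R, k), R' the pattern of y' < y, R' ≠ R. Then R' has no edge
on k with a witness x' < p. Proof: j in R' \ R: y' < v j p < y < v i p, v k p. Witness xi: v i < v k, v j < v i;
witness xk: v k < v i, v j < v k; witness x' of (R', k): v k < v j, v k < v i. v i - v k is negative at xi, positive at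
xk > xi and at x': so x' > xi and it vanishes at s with xi < s < x', s < xk. v k - v j is positive at xk and at p, negative at
x' < p: so x' < xk and it is increasing, hence negative at s < x'. So v i - v j = v k - v j < 0 at s, but v i - v j is
positive at xi < s and at p > s: contradiction.
kII_low. i, k in A \ R different, xi < xk < p witnesses of (R, i), (R, k), R' the pattern of y' > y, R' ≠ R. Then R' has no
edge on k with a witness x' < p. The same with all signs reversed (j in R \ R').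
-/

namespace Pool.Agent.Work.MP_e64a38_co.IZ

variable {ι : Type*} {m c a b : ι → ℝ} {F : ℝ → ℝ}

/-- σ is, on A, the pattern of the lines above the point (p, y). -/
def TrV (m c : ι → ℝ) (p : ℝ) (A σ : Finset ι) (y : ℝ) : Prop :=
  (∀ i ∈ A, m i * p + c i ≠ y) ∧ ∀ i, i ∈ σ ↔ (i ∈ A ∧ y < m i * p + c i)

private theorem kII_core (a1 b1 a2 b2 xi xk x' p : ℝ) (hx : xi < xk) (hxp : x' < p)
    (h1 : a1 * xi + b1 < 0) (h2 : 0 < a1 * xk + b1) (h3 : 0 < a1 * x' + b1) (h5 : 0 < a2 * p + b2)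
    (h6 : a2 * x' + b2 < 0) (h7 : 0 < (a1 + a2) * xi + (b1 + b2))
    (h8 : 0 < (a1 + a2) * p + (b1 + b2)) : False := by
  have ha1 : 0 < a1 := by
    by_contra hcon
    push Not at hcon
    nlinarith
  have ha2 : 0 < a2 := by
    by_contra hcon
    push Not at hcon
    nlinarith
  have hs : a1 * (-b1 / a1) + b1 = 0 := by
    field_simp
    ring
  generalize -b1 / a1 = s at hs
  have hs1 : xi < s := by
    by_contra hcon
    push Not at hcon
    nlinarith
  have hs2 : s < x' := by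
    by_contra hcon
    push Not at hcon
    nlinarith
  have h9 : a2 * s + b2 < 0 := by nlinarith
  have h10 : (a1 + a2) * s + (b1 + b2) < 0 := by nlinarith
  rcases le_total 0 (a1 + a2) with h | h
  · nlinarith
  · nlinarith

private theorem sg_mem {σ : Finset ι} {j : ι} (h : j ∈ σ) : sg σ j = 1 := by
  unfold sg
  rw [if_pos h]

private theorem sg_nmem {σ : Finset ι} {j : ι} (h : j ∉ σ) : sg σ j = -1 := by
  unfold sg
  rw [if_neg h]

theorem kII_up (A R R' : Finset ι) (p y y' xi xk x' : ℝ)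
    (hR : TrV m c p A R y) (hR' : TrV m c p A R' y') (hlt : y' < y) (hne : R ≠ R')
    {i k : ι} (hi : i ∈ R) (hk : k ∈ R) (hik : i ≠ k) (wi : WL m c F p A R i xi) (wk : WL m c F p A R k xk)
    (hx : xi < xk) : ¬ WL m c F p A R' k x' := by
  intro w'
  have hsub : R ⊆ R' := fun l hl => (hR'.2 l).2 ⟨((hR.2 l).1 hl).1, hlt.trans ((hR.2 l).1 hl).2⟩
  obtain ⟨j, hj', hj⟩ : ∃ j ∈ R', j ∉ R := by
    by_contra hcon
    push Not at hcon
    exact hne (Finset.Subset.antisymm hsub hcon)
  have hjA := ((hR'.2 j).1 hj').1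
  have hji : j ≠ i := fun h => hj (h ▸ hi)
  have hjk : j ≠ k := fun h => hj (h ▸ hk)
  have hiA := ((hR.2 i).1 hi).1
  have hkA := ((hR.2 k).1 hk).1
  have e1 := wi.2.2 k hkA hik.symm
  have e2 := wi.2.2 j hjA hji
  have e3 := wk.2.2 i hiA hik
  have e5 := w'.2.2 j hjA hjk
  have e6 := w'.2.2 i hiA hik
  rw [sg_mem hk] at e1
  rw [sg_nmem hj] at e2
  rw [sg_mem hi] at e3
  rw [sg_mem hj'] at e5
  rw [sg_mem (hsub hi)] at e6
  have p1 := ((hR.2 i).1 hi).2
  have p2 := ((hR.2 k).1 hk).2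
  have p3 : m j * p + c j < y := by
    rcases lt_or_ge y (m j * p + c j) with h | h
    · exact absurd ((hR.2 j).2 ⟨hjA, h⟩) hj
    · exact lt_of_le_of_ne h (hR.1 j hjA)
  refine kII_core (m i - m k) (c i - c k) (m k - m j) (c k - c j) xi xk x' p hx w'.1 ?_ ?_ ?_ ?_ ?_ ?_ ?_
  all_goals nlinarith

theorem kII_low (A R R' : Finset ι) (p y y' xi xk x' : ℝ)
    (hR : TrV m c p A R y) (hR' : TrV m c p A R' y') (hlt : y < y') (hne : R ≠ R')
    {i k : ι} (hiA : i ∈ A) (hkA : k ∈ A) (hi : i ∉ R) (hk : k ∉ R) (hik : i ≠ k) (wi : WL m c F p A R i xi)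
    (wk : WL m c F p A R k xk) (hx : xi < xk) : ¬ WL m c F p A R' k x' := by
  intro w'
  have hsub : R' ⊆ R := fun l hl => (hR.2 l).2 ⟨((hR'.2 l).1 hl).1, hlt.trans ((hR'.2 l).1 hl).2⟩
  obtain ⟨j, hj', hj⟩ : ∃ j ∈ R, j ∉ R' := by
    by_contra hcon
    push Not at hcon
    exact hne (Finset.Subset.antisymm hcon hsub)
  have hjA := ((hR.2 j).1 hj').1
  have hji : j ≠ i := fun h => hi (h ▸ hj')
  have hjk : j ≠ k := fun h => hk (h ▸ hj')
  have e1 := wi.2.2 k hkA hik.symm
  have e2 := wi.2.2 j hjA hji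
  have e3 := wk.2.2 i hiA hik
  have e5 := w'.2.2 j hjA hjk
  have e6 := w'.2.2 i hiA hik
  rw [sg_nmem hk] at e1
  rw [sg_mem hj'] at e2
  rw [sg_nmem hi] at e3
  rw [sg_nmem hj] at e5
  rw [sg_nmem (fun h => hi (hsub h))] at e6
  have q : ∀ l ∈ A, l ∉ R → m l * p + c l < y := by
    intro l hl hlR
    rcases lt_or_ge y (m l * p + c l) with h | h
    · exact absurd ((hR.2 l).2 ⟨hl, h⟩) hlR
    · exact lt_of_le_of_ne h (hR.1 l hl)
  have p1 := q i hiA hi
  have p2 := q k hkA hk
  have p3 := ((hR.2 j).1 hj').2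
  refine kII_core (m k - m i) (c k - c i) (m j - m k) (c j - c k) xi xk x' p hx w'.1 ?_ ?_ ?_ ?_ ?_ ?_ ?_
  all_goals nlinarith

end Pool.Agent.Work.MP_e64a38_co.IZ
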