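import Pool.Agent.Work.MP_e64a38_co.IZ.Defs

/-!
# IZ/LvlPin (M): the layers of a levelling are pinned

lvl_outer. Proof by induction on L u: u, c in S, K u = K c, L u + 2 ≤ L c. Then both end points of u are outside
[a c, b c]. If L u = 0: a u ≤ a c by root, a u ≠ a c (Gen, u ≠ c since the levels differ), u and c do not overlap
(step: L c ≤ L u + 1 otherwise), so b u < a c or b u > b c (b u ≠ a c, b u ≠ b c by Gen). If L u = s + 1 let u' in S with
K u' = K u, L u' = s, Ov u u' (prev). u' is outside by induction. u, c do not overlap by step. If an end point of u is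
in [a c, b c] then (end points distinct) both are in (a c, b c), and since u' overlaps u one end point of u' is in
(a u, b u), so in [a c, b c], a contradiction.
lvl_pinned. Let S' = {i in S | K i = k, L i = t + 1} and P = the set of the end points a j, b j of the
j in S with K j = k, L j = t. (1) i in S' overlaps some such j (prev), so one of a j, b j is in (a i, b i). (2) a i, b i
are not in P by Gen (i ≠ j since the levels differ). (3) Let p = a j or b j, T a subset of S', pairwise overlapping,
all containing p. Claim: every c in T overlaps j. If t = 0, j is the root: c has level 1, so by prev it overlaps some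
j' in S with K j' = k, L j' = 0, and a j' ≤ a j, a j ≤ a j' by root, so a j = a j' and j = j' by Gen. If t = s + 1: let
j'' in S, K j'' = k, L j'' = s, Ov j j''. Both end points of j'' are outside [a c, b c] by lvl_outer. If c and j do not
overlap then, since an end point of j is in (a c, b c), both are, and j'' has an end point in (a j, b j): a
contradiction. So T ∪ {j} is pairwise overlapping in S, j not in T (the level), hence T.card + 1 < r + 1.
-/

namespace Pool.Agent.Work.MP_e64a38_co.IZ

variable {ι : Type*}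

private theorem inner_contra {a b : ι → ℝ} {u u' c : ι} (hau : a c < a u) (hbu : b u < b c)
    (hO : Ov a b u u') (hA : a u' < a c ∨ b c < a u') (hB : b u' < a c ∨ b c < b u') : False := by
  rcases hO with ⟨h1, h2, h3⟩ | ⟨h1, h2, h3⟩
  · rcases hA with h4 | h4
    · linarith
    · linarith
  · rcases hB with h4 | h4
    · linarith
    · linarith

private theorem both_inside {a b : ι → ℝ} {S : Finset ι} (hG : Gen a b S) {u c : ι} (hu : u ∈ S)
    (hc : c ∈ S) (huc : u ≠ c) (hO : ¬ Ov a b c u)
    (h : (a c ≤ a u ∧ a u ≤ b c) ∨ (a c ≤ b u ∧ b u ≤ b c)) : a c < a u ∧ b u < b c := by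
  have h1 := ((hG u hu).2 c hc).1
  have h2 := ((hG u hu).2 c hc).2 huc
  have h3 := ((hG c hc).2 u hu).1
  rcases h with ⟨h4, h5⟩ | ⟨h4, h5⟩
  · have h6 : a c < a u := lt_of_le_of_ne h4 (Ne.symm h2.1)
    have h7 : a u < b c := lt_of_le_of_ne h5 h1
    refine ⟨h6, ?_⟩
    by_contra h8
    push Not at h8
    have h9 : b c < b u := lt_of_le_of_ne h8 (Ne.symm h2.2)
    exact hO (Or.inl ⟨h6, h7, h9⟩)
  · have h6 : a c < b u := lt_of_le_of_ne h4 h3
    have h7 : b u < b c := lt_of_le_of_ne h5 h2.2
    refine ⟨?_, h7⟩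
    by_contra h8
    push Not at h8
    have h9 : a u < a c := lt_of_le_of_ne h8 h2.1
    exact hO (Or.inr ⟨h9, h6, h7⟩)

private theorem ov_symm {a b : ι → ℝ} {i j : ι} (h : Ov a b i j) : Ov a b j i := by
  rcases h with h | h
  · exact Or.inr h
  · exact Or.inl h

private theorem lvl_outer {τ : Type*} (a b : ι → ℝ) (S : Finset ι) (hG : Gen a b S)
    (K : ι → τ) (L : ι → ℕ) (hL : Lvl a b S K L) (s : ℕ) : ∀ u ∈ S, ∀ c ∈ S, K u = K c →
    L u = s → s + 2 ≤ L c → (a u < a c ∨ b c < a u) ∧ (b u < a c ∨ b c < b u) := by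
  induction s with
  | zero =>
    intro u hu c hc hK h0 h2
    have hne : u ≠ c := by
      rintro rfl
      omega
    have h3 := hL.root u hu h0 c hc hK.symm
    have hg := ((hG u hu).2 c hc).2 hne
    have h4 : a u < a c := lt_of_le_of_ne h3 hg.1
    refine ⟨Or.inl h4, ?_⟩
    have hO : ¬ Ov a b c u := by
      intro hO
      have := hL.step c hc u hu hO
      omega
    by_contra h5
    push Not at h5
    have h6 := both_inside hG hu hc hne hO (Or.inr h5)
    linarith [h6.1]
  | succ s ih =>
    intro u hu c hc hK h0 h2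
    have hne : u ≠ c := by
      rintro rfl
      omega
    obtain ⟨u', hu', hK', hL', hO'⟩ := hL.prev u hu s h0
    have h3 := ih u' hu' c hc (hK'.trans hK) hL' (by omega)
    have hO : ¬ Ov a b c u := by
      intro hO
      have := hL.step c hc u hu hO
      omega
    constructor
    · by_contra h5
      push Not at h5
      have h6 := both_inside hG hu hc hne hO (Or.inl h5)
      exact inner_contra h6.1 h6.2 hO' h3.1 h3.2
    · by_contra h5
      push Not at h5
      have h6 := both_inside hG hu hc hne hO (Or.inr h5)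
      exact inner_contra h6.1 h6.2 hO' h3.1 h3.2

private theorem lvl_ov {τ : Type*} (a b : ι → ℝ) (S : Finset ι) (hG : Gen a b S)
    (K : ι → τ) (L : ι → ℕ) (hL : Lvl a b S K L) (t : ℕ) (j c : ι) (hj : j ∈ S) (hc : c ∈ S)
    (hK : K j = K c) (hLj : L j = t) (hLc : L c = t + 1)
    (h : (a c ≤ a j ∧ a j ≤ b c) ∨ (a c ≤ b j ∧ b j ≤ b c)) : Ov a b c j := by
  have hne : j ≠ c := by
    rintro rfl
    omega
  rcases t with _ | s
  · obtain ⟨j', hj', hK', hL', hO'⟩ := hL.prev c hc 0 hLc
    have h1 := hL.root j' hj' hL' j hj (hK.trans hK'.symm)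
    have h2 := hL.root j hj hLj j' hj' (hK'.trans hK.symm)
    have h3 : j = j' := by
      by_contra hne'
      exact (((hG j hj).2 j' hj').2 hne').1 (le_antisymm h2 h1)
    rw [h3]
    exact hO'
  · by_contra hO
    obtain ⟨j'', hj'', hK'', hL'', hO''⟩ := hL.prev j hj s hLj
    have h1 := lvl_outer a b S hG K L hL s j'' hj'' c hc (hK''.trans hK) hL'' (by omega)
    have h2 := both_inside hG hj hc hne hO h
    exact inner_contra h2.1 h2.2 hO'' h1.1 h1.2

open Classical in
theorem lvl_pinned {τ : Type*} (a b : ι → ℝ) (S : Finset ι) (r : ℕ) (hG : Gen a b S) (hN : NoCl a b S (r + 1))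
    (K : ι → τ) (L : ι → ℕ) (hL : Lvl a b S K L) (k : τ) (t : ℕ) :
    Pinned a b (S.filter (fun i => K i = k ∧ L i = t + 1))
      ((S.filter (fun i => K i = k ∧ L i = t)).image a ∪ (S.filter (fun i => K i = k ∧ L i = t)).image b) r := by
  refine ⟨?_, ?_, ?_⟩
  · intro i hi
    obtain ⟨hiS, hKi, hLi⟩ := Finset.mem_filter.1 hi
    obtain ⟨j, hj, hKj, hLj, hO⟩ := hL.prev i hiS t hLi
    have hjf : j ∈ S.filter (fun i => K i = k ∧ L i = t) :=
      Finset.mem_filter.2 ⟨hj, hKj.trans hKi, hLj⟩
    rcases hO with ⟨h1, h2, h3⟩ | ⟨h1, h2, h3⟩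
    · exact ⟨a j, Finset.mem_union_left _ (Finset.mem_image_of_mem _ hjf), h1, h2⟩
    · exact ⟨b j, Finset.mem_union_right _ (Finset.mem_image_of_mem _ hjf), h2, h3⟩
  · intro i hi
    obtain ⟨hiS, hKi, hLi⟩ := Finset.mem_filter.1 hi
    constructor
    · intro hP
      rcases Finset.mem_union.1 hP with h | h
      · obtain ⟨j, hj, hja⟩ := Finset.mem_image.1 h
        obtain ⟨hjS, hKj, hLj⟩ := Finset.mem_filter.1 hj
        have hne : i ≠ j := by
          rintro rfl
          omega
        exact (((hG i hiS).2 j hjS).2 hne).1 hja.symm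
      · obtain ⟨j, hj, hja⟩ := Finset.mem_image.1 h
        obtain ⟨hjS, hKj, hLj⟩ := Finset.mem_filter.1 hj
        exact ((hG i hiS).2 j hjS).1 hja.symm
    · intro hP
      rcases Finset.mem_union.1 hP with h | h
      · obtain ⟨j, hj, hja⟩ := Finset.mem_image.1 h
        obtain ⟨hjS, hKj, hLj⟩ := Finset.mem_filter.1 hj
        exact ((hG j hjS).2 i hiS).1 hja
      · obtain ⟨j, hj, hja⟩ := Finset.mem_image.1 h
        obtain ⟨hjS, hKj, hLj⟩ := Finset.mem_filter.1 hj
        have hne : i ≠ j := by
          rintro rfl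
          omega
        exact (((hG i hiS).2 j hjS).2 hne).2 hja.symm
  · intro p hp T hT hTp hTO
    have hjex : ∃ j ∈ S, K j = k ∧ L j = t ∧ (p = a j ∨ p = b j) := by
      rcases Finset.mem_union.1 hp with h | h
      · obtain ⟨j, hj, hja⟩ := Finset.mem_image.1 h
        obtain ⟨hjS, hKj, hLj⟩ := Finset.mem_filter.1 hj
        exact ⟨j, hjS, hKj, hLj, Or.inl hja.symm⟩
      · obtain ⟨j, hj, hja⟩ := Finset.mem_image.1 h
        obtain ⟨hjS, hKj, hLj⟩ := Finset.mem_filter.1 hj
        exact ⟨j, hjS, hKj, hLj, Or.inr hja.symm⟩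
    obtain ⟨j, hjS, hKj, hLj, hpj⟩ := hjex
    have hov : ∀ c ∈ T, Ov a b c j := by
      intro c hc
      obtain ⟨hcS, hKc, hLc⟩ := Finset.mem_filter.1 (hT hc)
      refine lvl_ov a b S hG K L hL t j c hjS hcS (hKj.trans hKc.symm) hLj hLc ?_
      have h1 := hTp c hc
      rcases hpj with h2 | h2
      · left
        rw [← h2]
        exact ⟨h1.1.le, h1.2.le⟩
      · right
        rw [← h2]
        exact ⟨h1.1.le, h1.2.le⟩
    have hjT : j ∉ T := by
      intro hjT
      have := (Finset.mem_filter.1 (hT hjT)).2.2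
      omega
    have h3 := hN (insert j T) (by
        intro c hc
        rcases Finset.mem_insert.1 hc with h | h
        · rw [h]
          exact hjS
        · exact (Finset.mem_filter.1 (hT h)).1) (by
        intro c hc d hd hcd
        rcases Finset.mem_insert.1 hc with h | h
        · rcases Finset.mem_insert.1 hd with h' | h'
          · exact absurd (h.trans h'.symm) hcd
          · rw [h]
            exact ov_symm (hov d h')
        · rcases Finset.mem_insert.1 hd with h' | h'
          · rw [h']
            exact hov c h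
          · exact hTO c h d h' hcd)
    rw [Finset.card_insert_of_notMem hjT] at h3
    omega

end Pool.Agent.Work.MP_e64a38_co.IZ
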