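import Pool.Agent.Work.MP_e64a38_co.IZ.LvlEx
import Pool.Agent.Work.MP_e64a38_co.IZ.LvlPin
import Pool.Agent.Work.MP_e64a38_co.IZ.Prod

/-!
# IZ/Lay (S-M): from pinned families to all families

Proof. Take a levelling (lvl_exists) and use colb_part with g i = (K i, L i): the part (k, t) is colourable with M
colours: for t = s + 1 by lvl_pinned and hpin (Gen of a subset), for t = 0 since it has at most one element (root and
Gen: a i ≤ a j ≤ a i, so i = j) and no interval overlaps itself; any constant function to Fin M (1 ≤ M). Let f be the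
function of colb_part and colour i with (L i mod 2, f i) in Fin 2 × Fin M (colb_of). If i, j in S overlap and have the same
colour, then K i = K j, |L i - L j| ≤ 1 by step, the same parity, so L i = L j and g i = g j, so f i ≠ f j.
-/

namespace Pool.Agent.Work.MP_e64a38_co.IZ

variable {ι : Type*}

private lemma ov_symm' {a b : ι → ℝ} {i j : ι} (h : Ov a b i j) : Ov a b j i := by
  rcases h with h | h
  · exact Or.inr h
  · exact Or.inl h

private lemma ov_irrefl' {a b : ι → ℝ} {i : ι} (h : Ov a b i i) : False := by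
  rcases h with h | h
  · exact lt_irrefl _ h.1
  · exact lt_irrefl _ h.1

theorem lay (r M : ℕ) (hM : 1 ≤ M) (a b : ι → ℝ)
    (hpin : ∀ (S : Finset ι) (P : Finset ℝ), Gen a b S → Pinned a b S P r → Colb a b S M)
    (S : Finset ι) (hG : Gen a b S) (hN : NoCl a b S (r + 1)) : Colb a b S (2 * M) := by
  classical
  obtain ⟨K, L, hL⟩ := lvl_exists a b S
  obtain ⟨f, hf⟩ := colb_part a b S M (fun i => (K i, L i)) (by
    rintro ⟨k, t⟩
    rcases t with _ | s
    · refine ⟨fun _ => ⟨0, hM⟩, ?_⟩
      intro i hi j hj hov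
      exfalso
      simp only [Finset.mem_filter, Prod.mk.injEq] at hi hj
      have h1 : a i ≤ a j := hL.root i hi.1 hi.2.2 j hj.1 (by rw [hj.2.1, hi.2.1])
      have h2 : a j ≤ a i := hL.root j hj.1 hj.2.2 i hi.1 (by rw [hj.2.1, hi.2.1])
      by_cases hij : i = j
      · subst hij
        exact ov_irrefl' hov
      · exact (((hG i hi.1).2 j hj.1).2 hij).1 (le_antisymm h1 h2)
    · have h1 := lvl_pinned a b S r hG hN K L hL k s
      have h2 : Gen a b (S.filter (fun i => K i = k ∧ L i = s + 1)) := by
        intro i hi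
        refine ⟨(hG i (Finset.mem_filter.1 hi).1).1, fun j hj =>
          (hG i (Finset.mem_filter.1 hi).1).2 j (Finset.mem_filter.1 hj).1⟩
      obtain ⟨f0, hf0⟩ := hpin _ _ h2 h1
      refine ⟨f0, fun i hi j hj hov => hf0 i ?_ j ?_ hov⟩
      · simp only [Finset.mem_filter, Prod.mk.injEq] at hi
        simpa only [Finset.mem_filter] using hi
      · simp only [Finset.mem_filter, Prod.mk.injEq] at hj
        simpa only [Finset.mem_filter] using hj)
  refine colb_of a b S (2 * M) (κ := Fin 2 × Fin M) (by simp)
    (fun i => (⟨L i % 2, Nat.mod_lt _ (by norm_num)⟩, f i)) ?_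
  intro i hi j hj hov heq
  simp only [Prod.mk.injEq, Fin.mk.injEq] at heq
  have hK := hL.comp i hi j hj hov
  have h1 := hL.step i hi j hj hov
  have h2 := hL.step j hj i hi (ov_symm' hov)
  have h3 : L i = L j := by omega
  exact hf i hi j hj (by simp [hK, h3]) hov heq.2

end Pool.Agent.Work.MP_e64a38_co.IZ
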