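import Pool.Agent.Work.MP_e64a38_co.IZ.KI
import Pool.Agent.Work.MP_e64a38_co.IZ.KII
import Pool.Agent.Work.MP_e64a38_co.IZ.Chain

/-!
# IZ/LeftB (M): edges left of p of the zone cells of a family with the common point p

Proof. EdgL m c F p A R i iff there is x with WL m c F p A R i x. Split Z into Z1 = those R that have a point x0 ≤ p with
Tr a b A R x0 and Z2 = the others (x0 > p).
Z1: choose x0 R for each R (injective on Z1 since Tr determines R from x0). Upper edges: I R i := i ∈ R ∧ EdgL; chain_count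
with t R = x0 R: if i ≠ k in R both have witnesses xi, xk and both have later cells R', R'' then xi ≠ xk (at the same
point v i < v k and v k < v i: both i, k in R have sign 1) and the one with the smaller witness contradicts kI_up.
So at most card Z1 + card A. Lower edges: I R i := i ∉ R ∧ EdgL, t R = - x0 R, kI_low.
Z2: R in Z2 with EdgL (for some i in A; the R without EdgL contribute 0: apply the count to the subset Z2' of the R in Z2
with at least one EdgL i, i in A). For such R there is y with TrV m c p A R y: the point (x0, F x0) and the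
witness (x, v i x), x < p < x0; the segment between them meets the vertical line at (p, y), and for every j in A the
affine function sg R j * (height of the line j - height of the point) is positive at (x0, F x0) (by mem and x0 ≠ a j, b j:
j ∈ R iff F x0 < v j x0) and is ≥ 0 at the witness (> 0 for j ≠ i, = 0 for j = i), so it is positive at (p, y). Choose y R.
Upper: t R = - y R, kII_up (xi < xk: the larger witness, closer to p, contradicts). Lower: t R = y R, kII_low.
Total ≤ 2 (card Z1 + card A) + 2 (card Z2 + card A) = 2 card Z + 4 card A.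
-/

namespace Pool.Agent.Work.MP_e64a38_co.IZ

variable {ι : Type*} {m c a b : ι → ℝ} {F : ℝ → ℝ}

private theorem sg_mem {σ : Finset ι} {j : ι} (h : j ∈ σ) : sg σ j = 1 := if_pos h

private theorem sg_not {σ : Finset ι} {j : ι} (h : j ∉ σ) : sg σ j = -1 := if_neg h

open Classical in
private theorem two_counts (Z : Finset (Finset ι)) (A : Finset ι) (E I J : Finset ι → ι → Prop)
    (N : ℕ) (hE : ∀ R i, E R i → I R i ∨ J R i)
    (hU : ∑ R ∈ Z, (A.filter (fun i => I R i)).card ≤ N)
    (hL : ∑ R ∈ Z, (A.filter (fun i => J R i)).card ≤ N) :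
    ∑ R ∈ Z, (A.filter (fun i => E R i)).card ≤ 2 * N := by
  have h1 : ∀ R ∈ Z, (A.filter (fun i => E R i)).card ≤ (A.filter (fun i => I R i)).card +
      (A.filter (fun i => J R i)).card := by
    intro R _
    refine (Finset.card_le_card ?_).trans (Finset.card_union_le _ _)
    intro i hi
    rw [Finset.mem_union, Finset.mem_filter, Finset.mem_filter]
    obtain ⟨h2, h3⟩ := Finset.mem_filter.1 hi
    rcases hE R i h3 with h4 | h4
    · exact Or.inl ⟨h2, h4⟩
    · exact Or.inr ⟨h2, h4⟩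
  have h2 := Finset.sum_le_sum h1
  rw [Finset.sum_add_distrib] at h2
  omega

private theorem em_split (E : Finset ι → ι → Prop) (R : Finset ι) (i : ι) (h : E R i) :
    (i ∈ R ∧ E R i) ∨ (i ∉ R ∧ E R i) := by
  by_cases h4 : i ∈ R
  · exact Or.inl ⟨h4, h⟩
  · exact Or.inr ⟨h4, h⟩

/-- two upper edges of the same cell have different witnesses -/
private theorem wl_ne_up {p : ℝ} {A R : Finset ι} {i k : ι} {x : ℝ} (hiA : i ∈ A) (hkA : k ∈ A)
    (hi : i ∈ R) (hk : k ∈ R) (hik : i ≠ k) (wi : WL m c F p A R i x) (wk : WL m c F p A R k x) :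
    False := by
  have h1 := wi.2.2 k hkA (Ne.symm hik)
  have h2 := wk.2.2 i hiA hik
  rw [sg_mem hk] at h1
  rw [sg_mem hi] at h2
  linarith

private theorem wl_ne_low {p : ℝ} {A R : Finset ι} {i k : ι} {x : ℝ} (hiA : i ∈ A) (hkA : k ∈ A)
    (hi : i ∉ R) (hk : k ∉ R) (hik : i ≠ k) (wi : WL m c F p A R i x) (wk : WL m c F p A R k x) :
    False := by
  have h1 := wi.2.2 k hkA (Ne.symm hik)
  have h2 := wk.2.2 i hiA hik
  rw [sg_not hk] at h1
  rw [sg_not hi] at h2
  linarith

private theorem tr_inj {A R R' : Finset ι} {x : ℝ} (h : Tr a b A R x) (h' : Tr a b A R' x) :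
    R = R' := by
  ext i
  rw [h.2 i, h'.2 i]

private theorem trV_inj {A R R' : Finset ι} {p y : ℝ} (h : TrV m c p A R y)
    (h' : TrV m c p A R' y) : R = R' := by
  ext i
  rw [h.2 i, h'.2 i]

/-- an affine function which is positive at two points is positive between them -/
private theorem aff_between {u w x p y : ℝ} (hx : x < p) (hy : p < y) (h1 : 0 < u * x + w)
    (h2 : 0 < u * y + w) : 0 < u * p + w := by
  nlinarith [mul_pos h1 (sub_pos.2 hy), mul_pos h2 (sub_pos.2 hx), sub_pos.2 (hx.trans hy)]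

/-- a cell with a point right of `p` and an edge left of `p` meets the vertical line -/
private theorem exists_trV (h : Mdl m c a b F) {A R : Finset ι} {p x0 : ℝ} (hx0 : p < x0)
    (hR : Tr a b A R x0) {i : ι} {x : ℝ} (hw : WL m c F p A R i x) :
    ∃ y, TrV m c p A R y := by
  classical
  have key : ∀ k ∈ A, k ∉ R → ∀ j ∈ R, m k * p + c k < m j * p + c j := by
    intro k hkA hk j hj
    have hjA : j ∈ A := ((hR.2 j).1 hj).1
    have hjk : j ≠ k := fun h => hk (h ▸ hj)
    have h1 : F x0 < m j * x0 + c j := (h.mem j x0).2 ((hR.2 j).1 hj).2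
    have h2 : m k * x0 + c k ≤ F x0 := by
      by_contra hlt
      exact hk ((hR.2 k).2 ⟨hkA, (h.mem k x0).1 (not_le.1 hlt)⟩)
    have h3 : m k * x + c k < m j * x + c j := by
      by_cases hji : j = i
      · have h4 := hw.2.2 k hkA (fun h => hjk (hji.trans h.symm))
        rw [sg_not hk] at h4
        rw [hji]
        linarith
      · have h5 := hw.2.2 j hjA hji
        rw [sg_mem hj] at h5
        by_cases hki : k = i
        · rw [hki]
          linarith
        · have h4 := hw.2.2 k hkA hki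
          rw [sg_not hk] at h4
          linarith
    have h6 := aff_between (u := m j - m k) (w := c j - c k) hw.1 hx0 (by linarith) (by linarith)
    linarith
  obtain ⟨y, hy1, hy2⟩ := Order.exists_between_finsets
    ((A.filter (fun k => k ∉ R)).image (fun k => m k * p + c k)) (R.image (fun j => m j * p + c j))
    (by
      intro s hs t ht
      obtain ⟨k, hk, rfl⟩ := Finset.mem_image.1 hs
      obtain ⟨j, hj, rfl⟩ := Finset.mem_image.1 ht
      obtain ⟨hkA, hk⟩ := Finset.mem_filter.1 hk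
      exact key k hkA hk j hj)
  have hy1' : ∀ k ∈ A, k ∉ R → m k * p + c k < y := fun k hkA hk =>
    hy1 _ (Finset.mem_image_of_mem _ (Finset.mem_filter.2 ⟨hkA, hk⟩))
  have hy2' : ∀ j ∈ R, y < m j * p + c j := fun j hj => hy2 _ (Finset.mem_image_of_mem _ hj)
  refine ⟨y, fun k hkA => ?_, fun k => ⟨fun hk => ⟨((hR.2 k).1 hk).1, hy2' k hk⟩, fun hk => ?_⟩⟩
  · by_cases hk : k ∈ R
    · exact (hy2' k hk).ne'
    · exact (hy1' k hkA hk).ne
  · by_contra hkR
    exact lt_asymm hk.2 (hy1' k hk.1 hkR)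

open Classical in
private theorem bound1 (h : Mdl m c a b F) (A : Finset ι) (p : ℝ)
    (hp : ∀ i ∈ A, a i < p ∧ p < b i) (Z : Finset (Finset ι)) (x0 : Finset ι → ℝ)
    (hZ : ∀ R ∈ Z, x0 R ≤ p ∧ Tr a b A R (x0 R)) :
    ∑ R ∈ Z, (A.filter (fun i => EdgL m c F p A R i)).card ≤ 2 * (Z.card + A.card) := by
  have hinj : ∀ R ∈ Z, ∀ R' ∈ Z, x0 R = x0 R' → R = R' := by
    intro R hR R' hR' he
    have h1 := (hZ R' hR').2
    rw [← he] at h1
    exact tr_inj (hZ R hR).2 h1
  refine two_counts Z A (fun R i => EdgL m c F p A R i) (fun R i => i ∈ R ∧ EdgL m c F p A R i)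
    (fun R i => i ∉ R ∧ EdgL m c F p A R i) _
    (em_split (fun R i => EdgL m c F p A R i)) ?_ ?_
  · refine chain_count Z A x0 hinj (fun R i => i ∈ R ∧ EdgL m c F p A R i) ?_
    rintro R hR i hiA k hkA hik ⟨hi, xi, wi⟩ ⟨hk, xk, wk⟩ ⟨R', hR', hlt, hi', x', w'⟩
      ⟨R'', hR'', hlt', hk', x'', w''⟩
    have hne : R ≠ R' := fun h => by rw [h] at hlt; exact lt_irrefl _ hlt
    have hne' : R ≠ R'' := fun h => by rw [h] at hlt'; exact lt_irrefl _ hlt'
    rcases lt_trichotomy xk xi with hx | hx | hx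
    · exact kI_up h A R R'' p _ _ xi xk x'' hp (hZ R hR).1 (hZ R'' hR'').1 (hZ R hR).2
        (hZ R'' hR'').2 hlt' hne' hi hk hik wi wk hx w''
    · rw [hx] at wk
      exact wl_ne_up hiA hkA hi hk hik wi wk
    · exact kI_up h A R R' p _ _ xk xi x' hp (hZ R hR).1 (hZ R' hR').1 (hZ R hR).2
        (hZ R' hR').2 hlt hne hk hi (Ne.symm hik) wk wi hx w'
  · refine chain_count Z A (fun R => - x0 R) (fun R hR R' hR' he => hinj R hR R' hR' (neg_inj.1 he))
      (fun R i => i ∉ R ∧ EdgL m c F p A R i) ?_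
    rintro R hR i hiA k hkA hik ⟨hi, xi, wi⟩ ⟨hk, xk, wk⟩ ⟨R', hR', hlt, hi', x', w'⟩
      ⟨R'', hR'', hlt', hk', x'', w''⟩
    have hne : R ≠ R' := fun h => by rw [h] at hlt; exact lt_irrefl _ hlt
    have hne' : R ≠ R'' := fun h => by rw [h] at hlt'; exact lt_irrefl _ hlt'
    have hlt1 := neg_lt_neg_iff.1 hlt
    have hlt1' := neg_lt_neg_iff.1 hlt'
    rcases lt_trichotomy xk xi with hx | hx | hx
    · exact kI_low h A R R'' p _ _ xi xk x'' hp (hZ R hR).1 (hZ R hR).2
        (hZ R'' hR'').2 hlt1' hne' hiA hkA hi hk hik wi wk hx w''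
    · rw [hx] at wk
      exact wl_ne_low hiA hkA hi hk hik wi wk
    · exact kI_low h A R R' p _ _ xk xi x' hp (hZ R hR).1 (hZ R hR).2
        (hZ R' hR').2 hlt1 hne hkA hiA hk hi (Ne.symm hik) wk wi hx w'

open Classical in
private theorem bound2 (A : Finset ι) (p : ℝ) (Z : Finset (Finset ι)) (y : Finset ι → ℝ)
    (hZ : ∀ R ∈ Z, TrV m c p A R (y R)) :
    ∑ R ∈ Z, (A.filter (fun i => EdgL m c F p A R i)).card ≤ 2 * (Z.card + A.card) := by
  have hinj : ∀ R ∈ Z, ∀ R' ∈ Z, y R = y R' → R = R' := by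
    intro R hR R' hR' he
    have h1 := hZ R' hR'
    rw [← he] at h1
    exact trV_inj (hZ R hR) h1
  refine two_counts Z A (fun R i => EdgL m c F p A R i) (fun R i => i ∈ R ∧ EdgL m c F p A R i)
    (fun R i => i ∉ R ∧ EdgL m c F p A R i) _
    (em_split (fun R i => EdgL m c F p A R i)) ?_ ?_
  · refine chain_count Z A (fun R => - y R) (fun R hR R' hR' he => hinj R hR R' hR' (neg_inj.1 he))
      (fun R i => i ∈ R ∧ EdgL m c F p A R i) ?_
    rintro R hR i hiA k hkA hik ⟨hi, xi, wi⟩ ⟨hk, xk, wk⟩ ⟨R', hR', hlt, hi', x', w'⟩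
      ⟨R'', hR'', hlt', hk', x'', w''⟩
    have hne : R ≠ R' := fun h => by rw [h] at hlt; exact lt_irrefl _ hlt
    have hne' : R ≠ R'' := fun h => by rw [h] at hlt'; exact lt_irrefl _ hlt'
    have hlt1 := neg_lt_neg_iff.1 hlt
    have hlt1' := neg_lt_neg_iff.1 hlt'
    rcases lt_trichotomy xi xk with hx | hx | hx
    · exact kII_up A R R'' p _ _ xi xk x'' (hZ R hR) (hZ R'' hR'') hlt1' hne' hi hk hik wi wk hx w''
    · rw [← hx] at wk
      exact wl_ne_up hiA hkA hi hk hik wi wk
    · exact kII_up A R R' p _ _ xk xi x' (hZ R hR) (hZ R' hR') hlt1 hne hk hi (Ne.symm hik) wk wi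
        hx w'
  · refine chain_count Z A y hinj (fun R i => i ∉ R ∧ EdgL m c F p A R i) ?_
    rintro R hR i hiA k hkA hik ⟨hi, xi, wi⟩ ⟨hk, xk, wk⟩ ⟨R', hR', hlt, hi', x', w'⟩
      ⟨R'', hR'', hlt', hk', x'', w''⟩
    have hne : R ≠ R' := fun h => by rw [h] at hlt; exact lt_irrefl _ hlt
    have hne' : R ≠ R'' := fun h => by rw [h] at hlt'; exact lt_irrefl _ hlt'
    rcases lt_trichotomy xi xk with hx | hx | hx
    · exact kII_low A R R'' p _ _ xi xk x'' (hZ R hR) (hZ R'' hR'') hlt' hne' hiA hkA hi hk hik wi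
        wk hx w''
    · rw [← hx] at wk
      exact wl_ne_low hiA hkA hi hk hik wi wk
    · exact kII_low A R R' p _ _ xk xi x' (hZ R hR) (hZ R' hR') hlt hne hkA hiA hk hi (Ne.symm hik)
        wk wi hx w'

open Classical in
theorem left_bound (h : Mdl m c a b F) (A : Finset ι) (p : ℝ) (hp : ∀ i ∈ A, a i < p ∧ p < b i)
    (Z : Finset (Finset ι)) (hZ : ∀ R ∈ Z, ∃ x, Tr a b A R x) :
    ∑ R ∈ Z, (A.filter (fun i => EdgL m c F p A R i)).card ≤ 2 * Z.card + 4 * A.card := by
  have hch : ∀ R : Finset ι, ∃ x : ℝ, (∃ x, x ≤ p ∧ Tr a b A R x) → x ≤ p ∧ Tr a b A R x := by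
    intro R
    by_cases hR : ∃ x, x ≤ p ∧ Tr a b A R x
    · exact ⟨hR.choose, fun _ => hR.choose_spec⟩
    · exact ⟨0, fun h => absurd h hR⟩
  choose x0 hx0 using hch
  have hch2 : ∀ R : Finset ι, ∃ y : ℝ, (∃ y, TrV m c p A R y) → TrV m c p A R y := by
    intro R
    by_cases hR : ∃ y, TrV m c p A R y
    · exact ⟨hR.choose, fun _ => hR.choose_spec⟩
    · exact ⟨0, fun h => absurd h hR⟩
  choose y hy using hch2
  have b1 := bound1 h A p hp (Z.filter (fun R => ∃ x, x ≤ p ∧ Tr a b A R x)) x0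
    (fun R hR => hx0 R (Finset.mem_filter.1 hR).2)
  have b2 := bound2 (F := F) A p ((Z.filter (fun R => ¬ ∃ x, x ≤ p ∧ Tr a b A R x)).filter
    (fun R => ∃ y, TrV m c p A R y)) y (fun R hR => hy R (Finset.mem_filter.1 hR).2)
  have hs : ∑ R ∈ Z.filter (fun R => ¬ ∃ x, x ≤ p ∧ Tr a b A R x),
      (A.filter (fun i => EdgL m c F p A R i)).card =
      ∑ R ∈ (Z.filter (fun R => ¬ ∃ x, x ≤ p ∧ Tr a b A R x)).filter
        (fun R => ∃ y, TrV m c p A R y), (A.filter (fun i => EdgL m c F p A R i)).card := by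
    refine (Finset.sum_filter_of_ne ?_).symm
    intro R hR hne
    obtain ⟨hRZ, hRn⟩ := Finset.mem_filter.1 hR
    obtain ⟨x1, hx1⟩ := hZ R hRZ
    have hlt : p < x1 := by
      by_contra hle
      exact hRn ⟨x1, not_lt.1 hle, hx1⟩
    obtain ⟨i, hi⟩ := Finset.card_ne_zero.1 hne
    obtain ⟨-, x, hw⟩ := Finset.mem_filter.1 hi
    exact exists_trV h hlt hx1 (i := i) (x := x) hw
  have hsplit := Finset.sum_filter_add_sum_filter_not Z (fun R => ∃ x, x ≤ p ∧ Tr a b A R x)
    (fun R => (A.filter (fun i => EdgL m c F p A R i)).card)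
  have hcard := Finset.card_filter_add_card_filter_not (s := Z)
    (fun R => ∃ x, x ≤ p ∧ Tr a b A R x)
  have hcard2 := Finset.card_filter_le (Z.filter (fun R => ¬ ∃ x, x ≤ p ∧ Tr a b A R x))
    (fun R => ∃ y, TrV m c p A R y)
  rw [← hsplit, hs]
  omega

end Pool.Agent.Work.MP_e64a38_co.IZ
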