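import Pool.Agent.Work.MP_e64a38_co.IZ.GDefs

/-!
# IZ/LnL (S): simple facts on lines
-/

namespace Pool.Agent.Work.MP_e64a38_co.IZ

variable {n k : ℕ}

theorem ev_comb (l : Ln) (p q : ℝ × ℝ) (t : ℝ) : l.ev (p + t • (q - p)) = (1 - t) * l.ev p + t * l.ev q := by
  unfold Ln.ev
  simp only [Prod.fst_add, Prod.snd_add, Prod.smul_fst, Prod.smul_snd, Prod.fst_sub, Prod.snd_sub,
    smul_eq_mul]
  ring

theorem continuous_ev (l : Ln) : Continuous l.ev := by
  unfold Ln.ev
  fun_prop

private theorem pts_sub {l l' : Ln} {p q : ℝ × ℝ} (hpq : p ≠ q) (h1 : l.ev p = 0) (h2 : l.ev q = 0)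
    (h3 : l'.ev p = 0) (h4 : l'.ev q = 0) : l.pts ⊆ l'.pts := by
  intro x hx
  have hx' : l.ev x = 0 := hx
  show l'.ev x = 0
  unfold Ln.ev at *
  have hd : l.a * l'.b = l'.a * l.b := by
    have e1 : (l.a * l'.b - l'.a * l.b) * (q.1 - p.1) = 0 := by
      linear_combination l'.b * h2 - l'.b * h1 - l.b * h4 + l.b * h3
    have e2 : (l.a * l'.b - l'.a * l.b) * (q.2 - p.2) = 0 := by
      linear_combination l.a * h4 - l.a * h3 - l'.a * h2 + l'.a * h1
    by_contra hne
    have hne' : l.a * l'.b - l'.a * l.b ≠ 0 := sub_ne_zero.2 hne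
    have e3 := (mul_eq_zero.1 e1).resolve_left hne'
    have e4 := (mul_eq_zero.1 e2).resolve_left hne'
    exact hpq (Prod.ext (by linarith) (by linarith))
  rcases l.h with ha | hb
  · have e : l.a * (l'.a * x.1 + l'.b * x.2 - l'.c) = 0 := by
      linear_combination l'.a * hx' - l'.a * h1 + l.a * h3 + (x.2 - p.2) * hd
    exact (mul_eq_zero.1 e).resolve_left ha
  · have e : l.b * (l'.a * x.1 + l'.b * x.2 - l'.c) = 0 := by
      linear_combination l'.b * hx' - l'.b * h1 + l.b * h3 - (x.1 - p.1) * hd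
    exact (mul_eq_zero.1 e).resolve_left hb

/-- Two lines with two different common points are equal. -/
theorem pts_eq {l l' : Ln} {p q : ℝ × ℝ} (hpq : p ≠ q) (h1 : l.ev p = 0) (h2 : l.ev q = 0) (h3 : l'.ev p = 0)
    (h4 : l'.ev q = 0) : l.pts = l'.pts :=
  Set.Subset.antisymm (pts_sub hpq h1 h2 h3 h4) (pts_sub hpq h3 h4 h1 h2)

/-- The closure of a cell satisfies the weak inequalities. -/
theorem closure_cell (l : Fin n → Ln) (h : Fin k → Ln) (s : Fin n → Bool) {p : ℝ × ℝ}
    (hp : p ∈ closure (cellOf l h s)) : p ∈ poly h ∧ ∀ i, 0 ≤ sb (s i) * (l i).ev p := by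
  have h1 : closure (cellOf l h s) ⊆
      {p | ∀ j, (h j).ev p ≤ 0} ∩ {p | ∀ i, 0 ≤ sb (s i) * (l i).ev p} := by
    refine closure_minimal ?_ (IsClosed.inter ?_ ?_)
    · rintro x ⟨hx1, hx2⟩
      exact ⟨fun j => (hx1 j).le, fun i => (hx2 i).le⟩
    · rw [Set.ofPred_forall]
      exact isClosed_iInter fun j => isClosed_le (continuous_ev (h j)) continuous_const
    · rw [Set.ofPred_forall]
      exact isClosed_iInter fun i =>
        isClosed_le continuous_const (continuous_const.mul (continuous_ev (l i)))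
  exact h1 hp

/-- A polygon has at least one side. -/
theorem polygon_pos {h : Fin k → Ln} (hP : IsPolygon h) : 0 < k := by
  by_contra hk
  have hk0 : k = 0 := by omega
  subst hk0
  obtain ⟨R, hR⟩ := hP.bounded.subset_closedBall 0
  have h1 : ((|R| + 1, 0) : ℝ × ℝ) ∈ poly h := fun j => j.elim0
  have h2 := hR h1
  rw [mem_closedBall_zero_iff, Prod.norm_mk] at h2
  have h3 := (le_max_left ‖|R| + 1‖ ‖(0 : ℝ)‖).trans h2
  rw [Real.norm_eq_abs] at h3
  have h4 := le_abs_self (|R| + 1)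
  have h5 := le_abs_self R
  linarith

end Pool.Agent.Work.MP_e64a38_co.IZ
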