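import Pool.Agent.Work.MP_e64a38_co.IZ.Defs

/-!
# IZ/LvlEx (S-M): existence of a levelling (breadth first search)

Proof. Let G : SimpleGraph ι with G.Adj i j iff i ∈ S, j ∈ S, Ov a b i j (Ov is symmetric, and irreflexive), and
for i in S let K i = ρ (component of i) be an element of S in the connected component of i with the smallest a (a finite
nonempty set; choose one function ρ : G.ConnectedComponent → ι; outside S let K i = i).
L i = G.dist (K i) i. comp: adjacent vertices are in the same component. step: the triangle inequality for dist in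
a component (SimpleGraph.Reachable, dist_le / exists_walk_length_eq_dist). prev: take a walk of length t + 1 = dist from
i to K i, its second vertex j is adjacent to i, dist of j is at most t, and at least t by the triangle inequality.
root: L i = 0 and reachability give i = K i (SimpleGraph.Reachable.dist_eq_zero_iff); K j = K i for j in S implies that
j is in the component of K j = K i = i.
-/

namespace Pool.Agent.Work.MP_e64a38_co.IZ

variable {ι : Type*}

theorem lvl_exists (a b : ι → ℝ) (S : Finset ι) : ∃ (K : ι → ι) (L : ι → ℕ), Lvl a b S K L := by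
  classical
  let G : SimpleGraph ι :=
    { Adj := fun i j => i ∈ S ∧ j ∈ S ∧ Ov a b i j
      symm := ⟨fun i j h => ⟨h.2.1, h.1, h.2.2.symm⟩⟩
      loopless := ⟨fun i h => by
        rcases h.2.2 with h1 | h1
        · exact lt_irrefl _ h1.1
        · exact lt_irrefl _ h1.1⟩ }
  have ex : ∀ c : G.ConnectedComponent, (∃ j ∈ S, G.connectedComponentMk j = c) →
      ∃ r, r ∈ S ∧ G.connectedComponentMk r = c ∧
        ∀ j ∈ S, G.connectedComponentMk j = c → a r ≤ a j := by
    rintro c ⟨j, hj, hc⟩
    obtain ⟨r, hr, hmin⟩ := Finset.exists_min_image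
      (S.filter fun j => G.connectedComponentMk j = c) a ⟨j, Finset.mem_filter.2 ⟨hj, hc⟩⟩
    rw [Finset.mem_filter] at hr
    exact ⟨r, hr.1, hr.2, fun j hj hc => hmin j (Finset.mem_filter.2 ⟨hj, hc⟩)⟩
  choose ρ hρS hρc hρm using ex
  obtain ⟨K, hK⟩ : ∃ K : ι → ι, ∀ i, ∀ h : i ∈ S,
      K i = ρ (G.connectedComponentMk i) ⟨i, h, rfl⟩ :=
    ⟨fun i => if h : i ∈ S then ρ (G.connectedComponentMk i) ⟨i, h, rfl⟩ else i,
      fun i h => dif_pos h⟩
  have hρe : ∀ (c c' : G.ConnectedComponent) (_ : c = c') (h : ∃ j ∈ S, G.connectedComponentMk j = c)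
      (h' : ∃ j ∈ S, G.connectedComponentMk j = c'), ρ c h = ρ c' h' := by
    intro c c' e h h'
    subst e
    rfl
  have hKe : ∀ i ∈ S, ∀ j ∈ S, G.connectedComponentMk i = G.connectedComponentMk j →
      K i = K j := by
    intro i hi j hj h
    rw [hK i hi, hK j hj]
    exact hρe _ _ h _ _
  have hKc : ∀ i ∈ S, G.connectedComponentMk (K i) = G.connectedComponentMk i := by
    intro i hi
    rw [hK i hi]
    exact hρc _ _
  have hKm : ∀ i ∈ S, ∀ j ∈ S, G.connectedComponentMk j = G.connectedComponentMk i →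
      a (K i) ≤ a j := by
    intro i hi j hj h
    rw [hK i hi]
    exact hρm _ _ j hj h
  have hKr : ∀ i ∈ S, G.Reachable (K i) i := fun i hi =>
    SimpleGraph.ConnectedComponent.exact (hKc i hi)
  have hadj : ∀ i ∈ S, ∀ j ∈ S, Ov a b i j → G.Adj i j := fun i hi j hj h => ⟨hi, hj, h⟩
  have hcomp : ∀ i ∈ S, ∀ j ∈ S, Ov a b i j → K i = K j := fun i hi j hj h =>
    hKe i hi j hj (SimpleGraph.ConnectedComponent.sound (hadj i hi j hj h).reachable)
  have hstep : ∀ i ∈ S, ∀ j ∈ S, Ov a b i j → G.dist (K i) i ≤ G.dist (K j) j + 1 := by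
    intro i hi j hj h
    rw [hcomp i hi j hj h]
    obtain ⟨w, hw⟩ := (hKr j hj).exists_walk_length_eq_dist
    have h1 := SimpleGraph.dist_le (w.concat (hadj i hi j hj h).symm)
    rw [SimpleGraph.Walk.length_concat, hw] at h1
    exact h1
  refine ⟨K, fun i => G.dist (K i) i, hcomp, hstep, ?_, ?_⟩
  · intro i hi t ht
    obtain ⟨w, hw⟩ := (hKr i hi).symm.exists_walk_length_eq_dist
    have ht' : G.dist (K i) i = t + 1 := ht
    rw [SimpleGraph.dist_comm, ht'] at hw
    have hw1 : ∀ (k : ι) (w : G.Walk i k), w.length = t + 1 →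
        ∃ j, G.Adj i j ∧ ∃ q : G.Walk j k, q.length = t := by
      intro k w hw
      cases w with
      | nil => simp at hw
      | @cons _ j _ hij q =>
        rw [SimpleGraph.Walk.length_cons] at hw
        exact ⟨j, hij, q, by omega⟩
    obtain ⟨j, hij, q, hq⟩ := hw1 _ w hw
    have hj : j ∈ S := hij.2.1
    have hKj : K j = K i := (hcomp i hi j hj hij.2.2).symm
    refine ⟨j, hj, hKj, ?_, hij.2.2⟩
    show G.dist (K j) j = t
    have h1 := SimpleGraph.dist_le q
    have h2 := hstep i hi j hj hij.2.2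
    rw [ht'] at h2
    rw [hKj, SimpleGraph.dist_comm] at h2 ⊢
    omega
  · intro i hi h0 j hj hKj
    have h0' : G.dist (K i) i = 0 := h0
    have h1 : K i = i := (hKr i hi).dist_eq_zero_iff.1 h0'
    rw [← h1]
    exact hKm i hi j hj (by rw [← hKc j hj, hKj, hKc i hi])

end Pool.Agent.Work.MP_e64a38_co.IZ
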