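import Pool.Agent.Work.MP_e64a38_co.IZ.Defs

/-!
# IZ/OvStep (M): cutting a cell with one more line gives at most two more edges

v i x = m i * x + c i. Let I⁺ (I⁻) be the set of the i in A with Edg D⁺ σ⁺ i (Edg D⁺ σ⁻ i), D⁺ = insert q D,
σ⁺ = insert q σ, σ⁻ = σ.erase q. Since q is not in D the signs of σ, σ⁺, σ⁻ on D are the same, so I⁺ ∪ I⁻ is contained
in I = {i in A | Edg D σ i}; card I⁺ + card I⁻ = card (I⁺ ∪ I⁻) + card (I⁺ ∩ I⁻). Claim card (I⁺ ∩ I⁻) ≤ 2.
For i in I⁺ ∩ I⁻ (i ≠ q as i ∈ D) there are x⁺, x⁻ with v q > v i at x⁺ and v q < v i at x⁻; let x i between them with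
v q = v i. By mem the point x i is in (a i, b i), so F < v i there, and by convexity the signs of v j - v i, j in D \ {i},
at x i are those prescribed by σ (an affine function that is positive at x⁺ and x⁻ is positive between). If i ≠ i' are
both in I⁺ ∩ I⁻ then x i ≠ x i' (otherwise v i = v q = v i' there, but v i' - v i is not 0 at x i). Three different
i1, i2, i3, say x i1 < x i2 < x i3: the affine function sg σ i2 * (v i2 - v q) is positive at x i1 (there v q = v i1) and
at x i3, so positive at x i2, where it is 0: contradiction.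
-/

namespace Pool.Agent.Work.MP_e64a38_co.IZ

variable {ι : Type*} {m c a b : ι → ℝ} {F : ℝ → ℝ}

private theorem sg_ins {σ : Finset ι} [DecidableEq ι] {q j : ι} (h : j ≠ q) :
    sg (insert q σ) j = sg σ j := by
  unfold sg
  simp [Finset.mem_insert, h]

private theorem sg_er {σ : Finset ι} [DecidableEq ι] {q j : ι} (h : j ≠ q) :
    sg (σ.erase q) j = sg σ j := by
  unfold sg
  simp [Finset.mem_erase, h]

private theorem sg_insq {σ : Finset ι} [DecidableEq ι] {q : ι} : sg (insert q σ) q = 1 := by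
  unfold sg
  simp

private theorem sg_erq {σ : Finset ι} [DecidableEq ι] {q : ι} : sg (σ.erase q) q = -1 := by
  unfold sg
  simp

private theorem ed_p {D σ : Finset ι} [DecidableEq ι] {q i : ι} (hq : q ∉ D) (hi : i ∈ D)
    (h : Edg m c F (insert q D) (insert q σ) i) :
    ∃ x, F x < m i * x + c i ∧ (∀ j ∈ D, j ≠ i → 0 < sg σ j * ((m j * x + c j) - (m i * x + c i))) ∧
      0 < (m q * x + c q) - (m i * x + c i) := by
  obtain ⟨x, h1, h2⟩ := h
  refine ⟨x, h1, ?_, ?_⟩
  · intro j hj hji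
    have h3 := h2 j (Finset.mem_insert_of_mem hj) hji
    have hjq : j ≠ q := fun h4 => hq (by rw [← h4]; exact hj)
    rwa [sg_ins hjq] at h3
  · have h3 := h2 q (Finset.mem_insert_self _ _) (fun h4 => hq (by rw [h4]; exact hi))
    rwa [sg_insq, one_mul] at h3

private theorem ed_m {D σ : Finset ι} [DecidableEq ι] {q i : ι} (hq : q ∉ D) (hi : i ∈ D)
    (h : Edg m c F (insert q D) (σ.erase q) i) :
    ∃ x, F x < m i * x + c i ∧ (∀ j ∈ D, j ≠ i → 0 < sg σ j * ((m j * x + c j) - (m i * x + c i))) ∧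
      (m q * x + c q) - (m i * x + c i) < 0 := by
  obtain ⟨x, h1, h2⟩ := h
  refine ⟨x, h1, ?_, ?_⟩
  · intro j hj hji
    have h3 := h2 j (Finset.mem_insert_of_mem hj) hji
    have hjq : j ≠ q := fun h4 => hq (by rw [← h4]; exact hj)
    rwa [sg_er hjq] at h3
  · have h3 := h2 q (Finset.mem_insert_self _ _) (fun h4 => hq (by rw [h4]; exact hi))
    rw [sg_erq] at h3
    linarith

private theorem comb_pos {s t u v : ℝ} (hs : 0 < s) (ht : 0 < t) (hu : 0 < u) (hv : 0 < v) :
    0 < s * u + t * v := add_pos (mul_pos hs hu) (mul_pos ht hv)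

/-- the point of the line `i` on the line `q` -/
private theorem ed_z {D σ : Finset ι} [DecidableEq ι] {q i : ι} (hq : q ∉ D)
    (hi : i ∈ D) (hp : Edg m c F (insert q D) (insert q σ) i)
    (hm : Edg m c F (insert q D) (σ.erase q) i) :
    ∃ z, (∀ j ∈ D, j ≠ i → 0 < sg σ j * ((m j * z + c j) - (m i * z + c i))) ∧
      m q * z + c q = m i * z + c i := by
  obtain ⟨x, _, h2, h3⟩ := ed_p hq hi hp
  obtain ⟨y, _, h5, h6⟩ := ed_m hq hi hm
  set g := (m q * x + c q) - (m i * x + c i) with hg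
  set k := (m i * y + c i) - (m q * y + c q) with hk
  have hk0 : 0 < k := by rw [hk]; linarith
  have hs : 0 < g + k := by linarith
  have hne : g + k ≠ 0 := hs.ne'
  have e1 : k / (g + k) + g / (g + k) = 1 := by field_simp; ring
  have p1 : 0 < k / (g + k) := div_pos hk0 hs
  have p2 : 0 < g / (g + k) := div_pos h3 hs
  set s := k / (g + k) with hsd
  set t := g / (g + k) with htd
  have hst : s * g = t * k := by rw [hsd, htd]; field_simp
  refine ⟨s * x + t * y, ?_, ?_⟩
  · intro j hj hji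
    have h7 := comb_pos p1 p2 (h2 j hj hji) (h5 j hj hji)
    have h8 : sg σ j * ((m j * (s * x + t * y) + c j) - (m i * (s * x + t * y) + c i)) =
        s * (sg σ j * ((m j * x + c j) - (m i * x + c i))) +
          t * (sg σ j * ((m j * y + c j) - (m i * y + c i))) := by
      have e2 : c j - c i = (s + t) * (c j - c i) := by rw [e1, one_mul]
      linear_combination (sg σ j) * e2
    rw [h8]
    exact h7
  · have e2 : c q - c i = (s + t) * (c q - c i) := by rw [e1, one_mul]
    have e3 : s * ((m q * x + c q) - (m i * x + c i)) = t * ((m i * y + c i) - (m q * y + c q)) := hst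
    linear_combination e2 + e3

private theorem ed_mid {D σ : Finset ι} {q i1 i2 i3 : ι} {z1 z2 z3 : ℝ} (hi2 : i2 ∈ D)
    (h12 : i2 ≠ i1) (h32 : i2 ≠ i3)
    (g1 : ∀ j ∈ D, j ≠ i1 → 0 < sg σ j * ((m j * z1 + c j) - (m i1 * z1 + c i1)))
    (g3 : ∀ j ∈ D, j ≠ i3 → 0 < sg σ j * ((m j * z3 + c j) - (m i3 * z3 + c i3)))
    (e1 : m q * z1 + c q = m i1 * z1 + c i1) (e2 : m q * z2 + c q = m i2 * z2 + c i2)
    (e3 : m q * z3 + c q = m i3 * z3 + c i3) (l1 : z1 < z2) (l2 : z2 < z3) : False := by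
  have a1 := g1 i2 hi2 h12
  have a3 := g3 i2 hi2 h32
  rw [← e1] at a1
  rw [← e3] at a3
  have b1 := mul_pos (sub_pos.2 l2) a1
  have b3 := mul_pos (sub_pos.2 l1) a3
  have b2 : (z3 - z2) * (sg σ i2 * ((m i2 * z1 + c i2) - (m q * z1 + c q))) +
      (z2 - z1) * (sg σ i2 * ((m i2 * z3 + c i2) - (m q * z3 + c q))) = 0 := by
    linear_combination (-(z3 - z1) * sg σ i2) * e2
  linarith

open Classical in
theorem ov_step (h : Mdl m c a b F) (A D σ : Finset ι) (hA : A ⊆ D) (q : ι) (hq : q ∉ D) :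
    nE m c F A (insert q D) (insert q σ) + nE m c F A (insert q D) (σ.erase q) ≤ nE m c F A D σ + 2 := by
  have key : ((A.filter (fun i => Edg m c F (insert q D) (insert q σ) i)) ∩
      (A.filter (fun i => Edg m c F (insert q D) (σ.erase q) i))).card ≤ 2 := by
    by_contra hcon
    push Not at hcon
    obtain ⟨i1, m1, i2, m2, i3, m3, n12, n13, n23⟩ := Finset.two_lt_card.1 hcon
    have hz : ∀ i ∈ (A.filter (fun i => Edg m c F (insert q D) (insert q σ) i)) ∩
        (A.filter (fun i => Edg m c F (insert q D) (σ.erase q) i)), i ∈ D ∧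
        ∃ z, (∀ j ∈ D, j ≠ i → 0 < sg σ j * ((m j * z + c j) - (m i * z + c i))) ∧
          m q * z + c q = m i * z + c i := by
      intro i hi
      rw [Finset.mem_inter, Finset.mem_filter, Finset.mem_filter] at hi
      exact ⟨hA hi.1.1, ed_z hq (hA hi.1.1) hi.1.2 hi.2.2⟩
    obtain ⟨d1, z1, g1, e1⟩ := hz i1 m1
    obtain ⟨d2, z2, g2, e2⟩ := hz i2 m2
    obtain ⟨d3, z3, g3, e3⟩ := hz i3 m3
    have hne : ∀ (i i' : ι) (z : ℝ), i' ∈ D → i ≠ i' →
        (∀ j ∈ D, j ≠ i → 0 < sg σ j * ((m j * z + c j) - (m i * z + c i))) →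
        m q * z + c q = m i * z + c i → m q * z + c q = m i' * z + c i' → False := by
      intro i i' z hd hn hg h1 h2
      have h3 := hg i' hd hn.symm
      rw [← h1, ← h2, sub_self, mul_zero] at h3
      exact lt_irrefl _ h3
    have z12 : z1 ≠ z2 := by
      intro hh
      rw [← hh] at e2
      exact hne i1 i2 z1 d2 n12 g1 e1 e2
    have z13 : z1 ≠ z3 := by
      intro hh
      rw [← hh] at e3
      exact hne i1 i3 z1 d3 n13 g1 e1 e3
    have z23 : z2 ≠ z3 := by
      intro hh
      rw [← hh] at e3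
      exact hne i2 i3 z2 d3 n23 g2 e2 e3
    rcases lt_or_gt_of_ne z12 with l | l
    · rcases lt_or_gt_of_ne z23 with l' | l'
      · exact ed_mid d2 n12.symm n23 g1 g3 e1 e2 e3 l l'
      · rcases lt_or_gt_of_ne z13 with l'' | l''
        · exact ed_mid d3 n13.symm n23.symm g1 g2 e1 e3 e2 l'' l'
        · exact ed_mid d1 n13 n12 g3 g2 e3 e1 e2 l'' l
    · rcases lt_or_gt_of_ne z13 with l' | l'
      · exact ed_mid d1 n12 n13 g2 g3 e2 e1 e3 l l'
      · rcases lt_or_gt_of_ne z23 with l'' | l''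
        · exact ed_mid d3 n23.symm n13.symm g2 g1 e2 e3 e1 l'' l'
        · exact ed_mid d2 n23 n12.symm g3 g1 e3 e2 e1 l'' l
  have hsub : (A.filter (fun i => Edg m c F (insert q D) (insert q σ) i)) ∪
      (A.filter (fun i => Edg m c F (insert q D) (σ.erase q) i)) ⊆
      A.filter (fun i => Edg m c F D σ i) := by
    intro i hi
    rw [Finset.mem_union, Finset.mem_filter, Finset.mem_filter] at hi
    rw [Finset.mem_filter]
    rcases hi with ⟨h1, h2⟩ | ⟨h1, h2⟩
    · obtain ⟨x, h3, h4, _⟩ := ed_p hq (hA h1) h2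
      exact ⟨h1, x, h3, h4⟩
    · obtain ⟨x, h3, h4, _⟩ := ed_m hq (hA h1) h2
      exact ⟨h1, x, h3, h4⟩
  have h1 := Finset.card_le_card hsub
  have h2 := Finset.card_union_add_card_inter
    (A.filter (fun i => Edg m c F (insert q D) (insert q σ) i))
    (A.filter (fun i => Edg m c F (insert q D) (σ.erase q) i))
  unfold nE
  omega

open Classical in
/-- Only the signs on D matter, and a subcell has at most the edges of the cell. -/
theorem nE_mono (A D D' σ τ : Finset ι) (hA : A ⊆ D) (hD : D ⊆ D') (hσ : ∀ j ∈ D, j ∈ σ ↔ j ∈ τ) :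
    nE m c F A D' τ ≤ nE m c F A D σ := by
  unfold nE
  apply Finset.card_le_card
  intro i hi
  rw [Finset.mem_filter] at hi ⊢
  obtain ⟨h1, x, h2, h3⟩ := hi
  refine ⟨h1, x, h2, ?_⟩
  intro j hj hji
  have h4 := h3 j (hD hj) hji
  have h5 : sg σ j = sg τ j := by
    unfold sg
    by_cases h6 : j ∈ σ
    · rw [if_pos h6, if_pos ((hσ j hj).1 h6)]
    · rw [if_neg h6, if_neg (fun h7 => h6 ((hσ j hj).2 h7))]
  rw [h5]
  exact h4

end Pool.Agent.Work.MP_e64a38_co.IZ
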