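import Pool.Agent.Work.MP_e64a38_co.IZ.LeftB

/-!
# IZ/PinB (S-M): all edges of the zone cells of a family with a common point

Proof. Reflection x ↦ -x: if Mdl m c a b F then Mdl (-m) c (-b) (-a) (fun x => F (-x)), Tr and the patterns are the same
(point -x), EdgR m c F p A R i iff EdgL (-m) c (fun x => F (-x)) (-p) A R i. So left_bound bounds the EdgR as well.
Edg A R i implies EdgL or EdgR: if the witness is x = p, a point x slightly left of p is also a witness (for small
δ > 0, p - δ: a i < p - δ < b i by mem, and finitely many affine functions positive at p stay positive).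
So nE A A R ≤ card EdgL + card EdgR.
-/

namespace Pool.Agent.Work.MP_e64a38_co.IZ

variable {ι : Type*} {m c a b : ι → ℝ} {F : ℝ → ℝ}

private theorem mdl_neg (h : Mdl m c a b F) :
    Mdl (fun i => - m i) c (fun i => - b i) (fun i => - a i) (fun x => F (-x)) where
  lt i := neg_lt_neg (h.lt i)
  mem i x := by
    have h1 := h.mem i (-x)
    have h2 : - m i * x + c i = m i * (-x) + c i := by ring
    rw [h2, h1]
    constructor
    · rintro ⟨h3, h4⟩
      exact ⟨by linarith, by linarith⟩
    · rintro ⟨h3, h4⟩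
      exact ⟨by linarith, by linarith⟩
  ea i := by
    have h1 := h.eb i
    rw [neg_neg, h1]
    ring
  eb i := by
    have h1 := h.ea i
    rw [neg_neg, h1]
    ring
  ne i j := fun he => h.ne j i (neg_inj.1 he).symm
  nea i j hij := fun he => h.neb i j hij (neg_inj.1 he)
  neb i j hij := fun he => h.nea i j hij (neg_inj.1 he)

private theorem tr_neg {A R : Finset ι} {x : ℝ} (h : Tr a b A R x) :
    Tr (fun i => - b i) (fun i => - a i) A R (-x) := by
  refine ⟨fun i hi => ⟨fun he => (h.1 i hi).2 (neg_inj.1 he), fun he => (h.1 i hi).1 (neg_inj.1 he)⟩,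
    fun i => ?_⟩
  rw [h.2 i]
  constructor
  · rintro ⟨h1, h2, h3⟩
    exact ⟨h1, neg_lt_neg h3, neg_lt_neg h2⟩
  · rintro ⟨h1, h2, h3⟩
    exact ⟨h1, neg_lt_neg_iff.1 h3, neg_lt_neg_iff.1 h2⟩

private theorem edg_split (h : Mdl m c a b F) {A R : Finset ι} {p : ℝ} {i : ι}
    (hp : a i < p ∧ p < b i) (hE : Edg m c F A R i) :
    EdgL m c F p A R i ∨ EdgL (fun i => - m i) c (fun x => F (-x)) (-p) A R i := by
  obtain ⟨x, hx, hj⟩ := hE
  rcases lt_trichotomy x p with hlt | heq | hgt
  · exact Or.inl ⟨x, hlt, hx, hj⟩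
  · left
    subst heq
    have h1 : ∀ᶠ y in nhds x, a i < y ∧ y < b i :=
      (eventually_gt_nhds hp.1).and (eventually_lt_nhds hp.2)
    have h2 : ∀ᶠ y in nhds x, ∀ j ∈ A, j ≠ i →
        0 < sg R j * ((m j * y + c j) - (m i * y + c i)) := by
      rw [Filter.eventually_all_finset]
      intro j hjA
      by_cases hji : j = i
      · exact Filter.Eventually.of_forall fun y hne => absurd hji hne
      · have hcont : Continuous fun y : ℝ => sg R j * ((m j * y + c j) - (m i * y + c i)) := by
          fun_prop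
        have h3 := hcont.continuousAt.eventually (lt_mem_nhds (hj j hjA hji))
        filter_upwards [h3] with y hy _
        exact hy
    have h4 : ∀ᶠ y in nhdsWithin x (Set.Iio x), (a i < y ∧ y < b i) ∧
        (∀ j ∈ A, j ≠ i → 0 < sg R j * ((m j * y + c j) - (m i * y + c i))) ∧ y < x := by
      filter_upwards [nhdsWithin_le_nhds h1, nhdsWithin_le_nhds h2, self_mem_nhdsWithin]
        with y hy1 hy2 hy3
      exact ⟨hy1, hy2, hy3⟩
    obtain ⟨y, hy1, hy2, hy3⟩ := h4.exists
    exact ⟨y, hy3, (h.mem i y).2 hy1, hy2⟩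
  · right
    refine ⟨-x, neg_lt_neg hgt, ?_, ?_⟩
    · simp only [neg_neg]
      have : - m i * -x + c i = m i * x + c i := by ring
      rw [this]
      exact hx
    · intro j hjA hji
      have := hj j hjA hji
      have e : (- m j * -x + c j) - (- m i * -x + c i) = (m j * x + c j) - (m i * x + c i) := by
        ring
      rw [e]
      exact this

theorem pin_bound (h : Mdl m c a b F) (A : Finset ι) (p : ℝ) (hp : ∀ i ∈ A, a i < p ∧ p < b i)
    (Z : Finset (Finset ι)) (hZ : ∀ R ∈ Z, ∃ x, Tr a b A R x) :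
    ∑ R ∈ Z, nE m c F A A R ≤ 4 * Z.card + 8 * A.card := by
  classical
  have hL := left_bound h A p hp Z hZ
  have hR := left_bound (mdl_neg h) A (-p)
    (fun i hi => ⟨neg_lt_neg (hp i hi).2, neg_lt_neg (hp i hi).1⟩) Z
    (fun R hR => by
      obtain ⟨x, hx⟩ := hZ R hR
      exact ⟨-x, tr_neg hx⟩)
  have key : ∀ R ∈ Z, nE m c F A A R ≤ (A.filter (fun i => EdgL m c F p A R i)).card +
      (A.filter (fun i => EdgL (fun i => - m i) c (fun x => F (-x)) (-p) A R i)).card := by
    intro R _
    refine (Finset.card_le_card ?_).trans (Finset.card_union_le _ _)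
    intro i hi
    rw [Finset.mem_union, Finset.mem_filter, Finset.mem_filter]
    obtain ⟨h2, h3⟩ := Finset.mem_filter.1 hi
    rcases edg_split h (hp i h2) h3 with h4 | h4
    · exact Or.inl ⟨h2, h4⟩
    · exact Or.inr ⟨h2, h4⟩
  have hs := Finset.sum_le_sum key
  rw [Finset.sum_add_distrib] at hs
  have e1 : ∑ R ∈ Z, (A.filter (fun i => EdgL m c F p A R i)).card ≤ 2 * Z.card + 4 * A.card := by
    convert hL
  have e2 : ∑ R ∈ Z, (A.filter (fun i => EdgL (fun i => - m i) c (fun x => F (-x)) (-p) A R i)).card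
      ≤ 2 * Z.card + 4 * A.card := by
    convert hR
  omega

end Pool.Agent.Work.MP_e64a38_co.IZ
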