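import Mathlib

/-!
# Inner zone (MP_e64a38_co): definitions of the statement

Lines in the plane ℝ × ℝ, a convex polygon with k sides given by k half planes, the cells of an arrangement of lines in
the interior of the polygon, the inner zone and its complexity.
-/

namespace Pool.Agent.Work.MP_e64a38_co

/-- A straight line a x + b y = c in the plane. -/
structure Ln where
  a : ℝ
  b : ℝ
  c : ℝ
  h : a ≠ 0 ∨ b ≠ 0

/-- The affine function a x + b y - c. -/
def Ln.ev (l : Ln) (p : ℝ × ℝ) : ℝ := l.a * p.1 + l.b * p.2 - l.c

/-- The points of the line. -/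
def Ln.pts (l : Ln) : Set (ℝ × ℝ) := {p | l.ev p = 0}

/-- The interior of the polygon with the sides on the lines h j: all h j are negative. -/
def inn {k : ℕ} (h : Fin k → Ln) : Set (ℝ × ℝ) := {p | ∀ j, (h j).ev p < 0}

/-- The closed polygon. -/
def poly {k : ℕ} (h : Fin k → Ln) : Set (ℝ × ℝ) := {p | ∀ j, (h j).ev p ≤ 0}

/-- The side j of the polygon. -/
def side {k : ℕ} (h : Fin k → Ln) (j : Fin k) : Set (ℝ × ℝ) := {p | (h j).ev p = 0 ∧ p ∈ poly h}

/-- The boundary of the polygon. -/
def bd {k : ℕ} (h : Fin k → Ln) : Set (ℝ × ℝ) := {p | p ∈ poly h ∧ ∃ j, (h j).ev p = 0}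

/-- h describes a convex polygon with exactly k sides: it is bounded, it has interior points, every side has at least
two points (so it is a segment), and the sides lie on k different lines. -/
structure IsPolygon {k : ℕ} (h : Fin k → Ln) : Prop where
  bounded : Bornology.IsBounded (poly h)
  nonempty : (inn h).Nonempty
  side : ∀ j, (side h j).Nontrivial
  ne : ∀ i j, i ≠ j → (h i).pts ≠ (h j).pts

/-- The sign of a Boolean value. -/
def sb (s : Bool) : ℝ := if s then 1 else -1

/-- The set of the points of the interior of the polygon that lie, for every i, on the side of the line l i given by the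
sign s i. The nonempty sets of this form are the cells of the arrangement. -/
def cellOf {n k : ℕ} (l : Fin n → Ln) (h : Fin k → Ln) (s : Fin n → Bool) : Set (ℝ × ℝ) :=
  {p | p ∈ inn h ∧ ∀ i, 0 < sb (s i) * (l i).ev p}

/-- The set with signs s is a cell and it is supported by a side: its closure contains two different points of the
side (hence, by convexity, a segment of the side). -/
def Zone {n k : ℕ} (l : Fin n → Ln) (h : Fin k → Ln) (s : Fin n → Bool) : Prop :=
  (cellOf l h s).Nonempty ∧ ∃ j, (closure (cellOf l h s) ∩ side h j).Nontrivial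

/-- The edges on the boundary of a cell C: the intersections of its closure with a line l i or with a side of the
polygon that contain at least two points. -/
def edges {n k : ℕ} (l : Fin n → Ln) (h : Fin k → Ln) (C : Set (ℝ × ℝ)) : Set (Set (ℝ × ℝ)) :=
  {E | E.Nontrivial ∧ ((∃ i, E = closure C ∩ (l i).pts) ∨ ∃ j, E = closure C ∩ side h j)}

open Classical in
/-- The complexity of the inner zone: the number of edges of the cells that are supported by a side. -/
noncomputable def zoneComplexity {n k : ℕ} (l : Fin n → Ln) (h : Fin k → Ln) : ℕ :=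
  ∑ s : Fin n → Bool, if Zone l h s then (edges l h (cellOf l h s)).ncard else 0

/-- The lines l i and l j cross in the interior of the polygon. -/
def CrossIn {n k : ℕ} (l : Fin n → Ln) (h : Fin k → Ln) (i j : Fin n) : Prop :=
  ∃ p ∈ inn h, (l i).ev p = 0 ∧ (l j).ev p = 0

open Classical in
/-- The line i separates points of Q, and one of its closed sides contains at most C points of Q. -/
def Balanced {n : ℕ} (l : Fin n → Ln) (Q : Finset (ℝ × ℝ)) (C : ℕ) (i : Fin n) : Prop :=
  (∃ q ∈ Q, 0 < (l i).ev q) ∧ (∃ q ∈ Q, (l i).ev q < 0) ∧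
    ((Q.filter (fun q => 0 ≤ (l i).ev q)).card ≤ C ∨ (Q.filter (fun q => (l i).ev q ≤ 0)).card ≤ C)

end Pool.Agent.Work.MP_e64a38_co
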