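import Pool.Agent.Work.MP_e64a38_co.IZ.LnL

/-!
# IZ/SideA (M): the cells touching one side

Proof. Choose T s for every s with Sup l h s j, and for every i with Crs l h i j a point z i (Rel h j (z i), l i (z i) = 0).
If some l i vanishes on two different points of the line h j then it vanishes on the whole line (ev_comb), so no s has Sup
and the left side is 0. So assume that every l i has at most one zero on the line h j. Let τ p = -(h j).b * p.1 +
(h j).a * p.2 be the coordinate along the line (injective on the line h j). N s = the number of i with Crs and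
τ (z i) < τ (T s), so N s ≤ number of i with Crs. N is injective on the s with Sup: if N s = N s' and τ (T s) ≤ τ (T s'), the
two sets are nested, so equal. If s i ≠ s' i then l i has different signs at T s and T s', so it vanishes at a point z of
the open segment, Rel h j z (ev_comb), so Crs l h i j, z = z i and τ (T s) < τ (z i) < τ (T s'), a contradiction.
-/

namespace Pool.Agent.Work.MP_e64a38_co.IZ

variable {n k : ℕ}

private theorem key {g u : Ln} {p q : ℝ × ℝ} (hp : g.ev p = 0) (hq : g.ev q = 0) :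
    (g.a ^ 2 + g.b ^ 2) * (u.ev q - u.ev p) =
      (u.b * g.a - u.a * g.b) * ((-g.b * q.1 + g.a * q.2) - (-g.b * p.1 + g.a * p.2)) := by
  unfold Ln.ev at *
  have hd : g.a * (q.1 - p.1) + g.b * (q.2 - p.2) = 0 := by linarith
  linear_combination (u.a * g.a + u.b * g.b) * hd

private theorem norm_pos (g : Ln) : 0 < g.a ^ 2 + g.b ^ 2 := by
  rcases g.h with h | h
  · have := pow_pos (abs_pos.2 h) 2
    rw [sq_abs] at this
    nlinarith [sq_nonneg g.b]
  · have := pow_pos (abs_pos.2 h) 2
    rw [sq_abs] at this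
    nlinarith [sq_nonneg g.a]

private theorem sb_cases (s : Bool) : sb s = 1 ∧ s = true ∨ sb s = -1 ∧ s = false := by
  cases s <;> simp [sb]

/-- a line that separates two inner points of the side crosses the side -/
private theorem crs_of {l : Fin n → Ln} {h : Fin k → Ln} {i : Fin n} {j : Fin k} {p q : ℝ × ℝ}
    (hp : Rel h j p) (hq : Rel h j q) (h1 : (l i).ev p < 0) (h2 : 0 < (l i).ev q) :
    Crs l h i j := by
  obtain ⟨t, ht⟩ : ∃ t : ℝ, t = -(l i).ev p / ((l i).ev q - (l i).ev p) := ⟨_, rfl⟩
  have hd : 0 < (l i).ev q - (l i).ev p := by linarith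
  have ht0 : 0 < t := by rw [ht]; exact div_pos (by linarith) hd
  have ht1 : t < 1 := by rw [ht, div_lt_one hd]; linarith
  have ht2 : t * ((l i).ev q - (l i).ev p) = -(l i).ev p := by
    rw [ht, div_mul_cancel₀ _ hd.ne']
  refine ⟨p + t • (q - p), ⟨?_, fun j' hj' => ?_⟩, ?_⟩
  · rw [ev_comb, hp.1, hq.1]; ring
  · rw [ev_comb]
    have h3 := mul_pos (sub_pos.2 ht1) (neg_pos.2 (hp.2 j' hj'))
    have h4 := mul_pos ht0 (neg_pos.2 (hq.2 j' hj'))
    linarith
  · rw [ev_comb]; linarith

open Classical in
theorem side_cells (l : Fin n → Ln) (h : Fin k → Ln) (j : Fin k) :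
    (Finset.univ.filter (fun s : Fin n → Bool => Sup l h s j)).card
      ≤ 1 + (Finset.univ.filter (fun i : Fin n => Crs l h i j)).card := by
  -- points
  have hT : ∀ s : Fin n → Bool, ∃ T : ℝ × ℝ, Sup l h s j →
      Rel h j T ∧ ∀ i, 0 < sb (s i) * (l i).ev T := by
    intro s
    by_cases hs : Sup l h s j
    · obtain ⟨T, hT⟩ := hs
      exact ⟨T, fun _ => hT⟩
    · exact ⟨0, fun h => absurd h hs⟩
  choose T hT using hT
  obtain ⟨κ, hκ⟩ : ∃ κ : Fin n → ℝ, ∀ i, κ i = (l i).b * (h j).a - (l i).a * (h j).b :=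
    ⟨_, fun i => rfl⟩
  obtain ⟨τ, hτ⟩ : ∃ τ : ℝ × ℝ → ℝ, ∀ p, τ p = -(h j).b * p.1 + (h j).a * p.2 :=
    ⟨_, fun i => rfl⟩
  obtain ⟨D, hD⟩ : ∃ D : ℝ, D = (h j).a ^ 2 + (h j).b ^ 2 := ⟨_, rfl⟩
  have hD0 : 0 < D := by rw [hD]; exact norm_pos _
  have hkey : ∀ i (p q : ℝ × ℝ), Rel h j p → Rel h j q →
      D * ((l i).ev q - (l i).ev p) = κ i * (τ q - τ p) := by
    intro i p q hp hq
    rw [hD, hκ, hτ, hτ]
    exact key hp.1 hq.1
  obtain ⟨A, hA⟩ : ∃ A : (Fin n → Bool) → Finset (Fin n), ∀ s, A s =
      (Finset.univ.filter (fun i : Fin n => Crs l h i j)).filter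
        (fun i => 0 < (l i).ev (T s) * κ i) := ⟨_, fun s => rfl⟩
  have mono : ∀ s s', Sup l h s j → Sup l h s' j → τ (T s) ≤ τ (T s') → A s ⊆ A s' := by
    intro s s' hs hs' hle i hi
    rw [hA, Finset.mem_filter] at hi ⊢
    refine ⟨hi.1, ?_⟩
    have h1 := hkey i (T s) (T s') (hT s hs).1 (hT s' hs').1
    have h2 : 0 ≤ κ i * (τ (T s') - τ (T s)) * κ i := by
      have : κ i * (τ (T s') - τ (T s)) * κ i = κ i ^ 2 * (τ (T s') - τ (T s)) := by ring
      rw [this]
      exact mul_nonneg (sq_nonneg _) (sub_nonneg.2 hle)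
    have h3 : 0 < D * ((l i).ev (T s) * κ i) := mul_pos hD0 hi.2
    have h4 : D * ((l i).ev (T s') * κ i) =
        D * ((l i).ev (T s) * κ i) + κ i * (τ (T s') - τ (T s)) * κ i := by
      linear_combination κ i * h1
    have h5 : 0 < D * ((l i).ev (T s') * κ i) := by rw [h4]; linarith
    exact (mul_pos_iff_of_pos_left hD0).1 h5
  have inj : ∀ s s', Sup l h s j → Sup l h s' j → τ (T s) ≤ τ (T s') → A s' ⊆ A s → s = s' := by
    intro s s' hs hs' hle hsub
    by_contra hne
    obtain ⟨i, hi⟩ := Function.ne_iff.1 hne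
    have h1 := hkey i (T s) (T s') (hT s hs).1 (hT s' hs').1
    have a1 := (hT s hs).2 i
    have a2 := (hT s' hs').2 i
    have hc : ∀ u v : ℝ, ((l i).ev (T s) = u) → ((l i).ev (T s') = v) → Crs l h i j →
        u * v < 0 → False := by
      intro u v hu hv hcr huv
      rw [hu, hv] at h1
      -- i is in A s'
      have hne2 : v - u ≠ 0 := by
        intro h0
        have : u = v := by linarith
        rw [this] at huv
        nlinarith [mul_self_nonneg v]
      have hneq : κ i * (τ (T s') - τ (T s)) ≠ 0 := by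
        rw [← h1]
        exact mul_ne_zero hD0.ne' hne2
      have hτ0 : 0 < τ (T s') - τ (T s) :=
        lt_of_le_of_ne (sub_nonneg.2 hle) (Ne.symm (right_ne_zero_of_mul hneq))
      have hk : 0 < (v - u) * κ i := by
        have e1 : D * ((v - u) * κ i) = κ i ^ 2 * (τ (T s') - τ (T s)) := by
          linear_combination κ i * h1
        have e2 : 0 < κ i ^ 2 * (τ (T s') - τ (T s)) :=
          mul_pos (by have := left_ne_zero_of_mul hneq; positivity) hτ0
        rw [← e1] at e2
        exact (mul_pos_iff_of_pos_left hD0).1 e2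
      have hv' : 0 < v * κ i := by
        have e3 : 0 < (v * κ i) * ((v - u) * v) := by
          have e4 : (v * κ i) * ((v - u) * v) = ((v - u) * κ i) * v ^ 2 := by ring
          rw [e4]
          refine mul_pos hk ?_
          have : v ≠ 0 := by
            rintro rfl
            simp at huv
          positivity
        have e5 : 0 < (v - u) * v := by nlinarith [mul_self_nonneg v]
        exact (mul_pos_iff_of_pos_right e5).1 e3
      have hu' : ¬ 0 < u * κ i := by
        intro e6
        have e7 : 0 < (u * κ i) * (v * κ i) := mul_pos e6 hv'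
        have e8 : (u * κ i) * (v * κ i) = (u * v) * κ i ^ 2 := by ring
        rw [e8] at e7
        nlinarith [sq_nonneg (κ i)]
      have m1 : i ∈ A s' := by
        rw [hA, Finset.mem_filter, Finset.mem_filter]
        exact ⟨⟨Finset.mem_univ _, hcr⟩, by rw [hv]; exact hv'⟩
      have m2 := hsub m1
      rw [hA, Finset.mem_filter, hu] at m2
      exact hu' m2.2
    rcases sb_cases (s i) with ⟨b1, b2⟩ | ⟨b1, b2⟩ <;>
      rcases sb_cases (s' i) with ⟨b3, b4⟩ | ⟨b3, b4⟩
    · exact hi (b2.trans b4.symm)
    · rw [b1] at a1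
      rw [b3] at a2
      have c1 : 0 < (l i).ev (T s) := by linarith
      have c2 : (l i).ev (T s') < 0 := by linarith
      exact hc _ _ rfl rfl (crs_of (hT s' hs').1 (hT s hs).1 c2 c1) (mul_neg_of_pos_of_neg c1 c2)
    · rw [b1] at a1
      rw [b3] at a2
      have c1 : (l i).ev (T s) < 0 := by linarith
      have c2 : 0 < (l i).ev (T s') := by linarith
      exact hc _ _ rfl rfl (crs_of (hT s hs).1 (hT s' hs').1 c1 c2) (mul_neg_of_neg_of_pos c1 c2)
    · exact hi (b2.trans b4.symm)
  have hcard := Finset.card_le_card_of_injOn (s := Finset.univ.filter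
    (fun s : Fin n → Bool => Sup l h s j))
    (t := Finset.range (1 + (Finset.univ.filter (fun i : Fin n => Crs l h i j)).card))
    (fun s => (A s).card) (fun s _ => ?_) (fun s hs s' hs' heq => ?_)
  · rwa [Finset.card_range] at hcard
  · rw [Finset.coe_range, Set.mem_Iio]
    have : (A s).card ≤ (Finset.univ.filter (fun i : Fin n => Crs l h i j)).card := by
      rw [hA]
      exact Finset.card_le_card (Finset.filter_subset _ _)
    show (A s).card < _
    omega
  · have h1 : Sup l h s j := by simpa using hs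
    have h2 : Sup l h s' j := by simpa using hs'
    have heq' : (A s).card = (A s').card := heq
    rcases le_total (τ (T s)) (τ (T s')) with h3 | h3
    · have h4 := Finset.eq_of_subset_of_card_le (mono s s' h1 h2 h3) heq'.ge
      exact inj s s' h1 h2 h3 h4.ge
    · have h4 := Finset.eq_of_subset_of_card_le (mono s' s h2 h1 h3) heq'.le
      exact (inj s' s h2 h1 h3 h4.ge).symm

end Pool.Agent.Work.MP_e64a38_co.IZ
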